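import Mathlib

set_option autoImplicit false

/-!
Lifting continuous maps from contractible sets, and homotopy domination.
-/

namespace Pool.Agent.Lib.MP_55d555_gt

open Set Topology unitInterval

section Dominated

variable {A V : Type*} [TopologicalSpace A] [TopologicalSpace V]

/-- A space that is homotopy dominated by a contractible space is contractible. -/
theorem contractible_of_dominated [ContractibleSpace V] (i : C(V, A)) (r : C(A, V))
    (H : ContinuousMap.Homotopic (ContinuousMap.id A) (i.comp r)) : ContractibleSpace A := by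
  rw [contractible_iff_id_nullhomotopic]
  obtain ⟨y, hy⟩ := ((id_nullhomotopic V).comp_left r).comp_right i
  refine ⟨y, H.trans ?_⟩
  simpa using hy

/-- A space that is homotopy dominated by a path connected space is path connected. -/
theorem pathConnected_of_dominated [PathConnectedSpace V] (i : C(V, A)) (r : C(A, V))
    (H : ContinuousMap.Homotopic (ContinuousMap.id A) (i.comp r)) : PathConnectedSpace A := by
  obtain ⟨H⟩ := H
  have hj : ∀ a, Joined a (i (r a)) := fun a => ⟨(H.evalAt a)⟩
  refine ⟨⟨i (Classical.arbitrary V)⟩, fun a b => ?_⟩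
  have h1 : Joined (i (r a)) (i (r b)) := (PathConnectedSpace.joined (r a) (r b)).map i.continuous
  exact (hj a).trans (h1.trans (hj b).symm)

end Dominated

section Lift

variable {E X A : Type*} [TopologicalSpace E] [TopologicalSpace X] [TopologicalSpace A]

/-- A map from a contractible space lifts through a surjective covering map. -/
theorem exists_lift_of_contractible {p : E → X} (cov : IsCoveringMap p)
    (hs : Function.Surjective p) [ContractibleSpace A] (f : C(A, X)) :
    ∃ g : C(A, E), ∀ a, p (g a) = f a := by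
  obtain ⟨a₀, ⟨H⟩⟩ := id_nullhomotopic A
  obtain ⟨e, he⟩ := hs (f a₀)
  let K : C(I × A, X) := f.comp H.symm.toContinuousMap
  have hK0 : ∀ a, K (0, a) = p ((ContinuousMap.const A e) a) := by
    intro a
    have : H.symm (0, a) = a₀ := by simp
    simp only [K, ContinuousMap.comp_apply, ContinuousMap.const_apply, he]
    exact congrArg f this
  have hK1 : ∀ a, K (1, a) = f a := by
    intro a
    have : H.symm (1, a) = a := by simp
    simp only [K, ContinuousMap.comp_apply]
    exact congrArg f this
  let g := cov.liftHomotopy K (ContinuousMap.const A e) hK0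
  refine ⟨g.comp ((ContinuousMap.const A 1).prodMk (ContinuousMap.id A)), fun a => ?_⟩
  have := congrFun (cov.liftHomotopy_lifts K (ContinuousMap.const A e) hK0) (1, a)
  rw [← hK1 a, ← this]
  rfl

end Lift

section Sqrt

variable {S : Type*} [TopologicalSpace S]

/-- A nowhere zero continuous function on a contractible set has a continuous square root. -/
theorem exists_sqrt_on (A : Set S) [ContractibleSpace A] (G : S → ℂ) (hG : ContinuousOn G A)
    (h0 : ∀ x ∈ A, G x ≠ 0) :
    ∃ y : S → ℂ, ContinuousOn y A ∧ ∀ x ∈ A, (y x) ^ 2 = G x := by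
  classical
  have cov := isCoveringMap_npow (𝕜 := ℂ) 2 (by norm_num)
  have hs : Function.Surjective (fun x : {x : ℂ // x ≠ 0} ↦
      (⟨x ^ 2, pow_ne_zero 2 x.2⟩ : {x : ℂ // x ≠ 0})) := by
    rintro ⟨z, hz⟩
    obtain ⟨w, hw⟩ := IsAlgClosed.exists_pow_nat_eq z (n := 2) (by norm_num)
    refine ⟨⟨w, ?_⟩, ?_⟩
    · rintro rfl
      exact hz (by simpa using hw.symm)
    · apply Subtype.ext
      simpa using hw
  let f : C(A, {x : ℂ // x ≠ 0}) := ⟨fun a => ⟨G a, h0 a a.2⟩, by
    apply Continuous.subtype_mk
    exact hG.domRestrict⟩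
  obtain ⟨g, hg⟩ := exists_lift_of_contractible cov hs f
  refine ⟨fun x => if hx : x ∈ A then (g ⟨x, hx⟩ : ℂ) else 0, ?_, ?_⟩
  · rw [continuousOn_iff_continuous_domRestrict]
    have : A.domRestrict (fun x => if hx : x ∈ A then (g ⟨x, hx⟩ : ℂ) else 0)
        = fun a : A => (g a : ℂ) := by
      funext a
      simp [Set.domRestrict]
    rw [this]
    exact continuous_subtype_val.comp g.continuous
  · intro x hx
    simp only [hx, dite_true]
    have := congrArg Subtype.val (hg ⟨x, hx⟩)
    exact this

/-- A circle valued continuous function on a contractible set lifts to the reals. -/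
theorem exists_real_lift_on (A : Set S) [ContractibleSpace A] (f : S → UnitAddCircle)
    (hf : ContinuousOn f A) :
    ∃ F : S → ℝ, ContinuousOn F A ∧ ∀ x ∈ A, ((F x : ℝ) : UnitAddCircle) = f x := by
  classical
  have cov : IsCoveringMap ((↑) : ℝ → UnitAddCircle) := AddCircle.isCoveringMap_coe (1 : ℝ)
  have hs : Function.Surjective ((↑) : ℝ → UnitAddCircle) := QuotientAddGroup.mk_surjective
  obtain ⟨g, hg⟩ := exists_lift_of_contractible cov hs (⟨fun a : A => f a, hf.domRestrict⟩ : C(A, _))
  refine ⟨fun x => if hx : x ∈ A then g ⟨x, hx⟩ else 0, ?_, ?_⟩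
  · rw [continuousOn_iff_continuous_domRestrict]
    have : A.domRestrict (fun x => if hx : x ∈ A then g ⟨x, hx⟩ else 0) = fun a : A => g a := by
      funext a
      simp [Set.domRestrict]
    rw [this]
    exact g.continuous
  · intro x hx
    simp only [hx, dite_true]
    exact hg ⟨x, hx⟩

end Sqrt

section IntDiff

variable {S : Type*} [TopologicalSpace S]

/-- Two real lifts of the same circle valued function differ by an integer constant on a
preconnected set. -/
theorem exists_int_diff {A : Set S} (hA : IsPreconnected A) {F G : S → ℝ}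
    (hF : ContinuousOn F A) (hG : ContinuousOn G A)
    (h : ∀ x ∈ A, ((F x : ℝ) : UnitAddCircle) = ((G x : ℝ) : UnitAddCircle)) :
    ∃ n : ℤ, ∀ x ∈ A, F x - G x = n := by
  rcases A.eq_empty_or_nonempty with rfl | ⟨x₀, hx₀⟩
  · exact ⟨0, by simp⟩
  have hint : ∀ x ∈ A, ∃ n : ℤ, F x - G x = n := by
    intro x hx
    have := h x hx
    have h2 : ((F x - G x : ℝ) : UnitAddCircle) = 0 := by
      rw [AddCircle.coe_sub, this, sub_self]
    rw [AddCircle.coe_eq_zero_iff] at h2
    obtain ⟨n, hn⟩ := h2
    exact ⟨n, by simpa using hn.symm⟩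
  obtain ⟨n, hn⟩ := hint x₀ hx₀
  refine ⟨n, fun x hx => ?_⟩
  have hd : IsDiscrete (Set.range ((↑) : ℤ → ℝ)) :=
    Int.isClosedEmbedding_coe_real.isEmbedding.isDiscrete_range
  have := hA.constant_of_mapsTo hd (hF.sub hG) (fun x hx => by
    obtain ⟨m, hm⟩ := hint x hx
    exact ⟨m, by simpa using hm.symm⟩) hx hx₀
  simp only [Pi.sub_apply] at this
  rw [this, hn]

end IntDiff

end Pool.Agent.Lib.MP_55d555_gt
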