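import Mathlib
import Pool.Agent.Lib.MP_55d555_gt.Lift

set_option autoImplicit false

/-!
Vertically star-shaped subsets of `X × ℝ`.
-/

namespace Pool.Agent.Lib.MP_55d555_gt

open Set Topology unitInterval

section VertStar

variable {X : Type*} [TopologicalSpace X]

/-- The subset `R` of `X × ℝ` lies over `Q` and each vertical slice is star-shaped about the
height given by `sg`. -/
structure VertStar (Q : Set X) (sg : X → ℝ) (R : Set (X × ℝ)) : Prop where
  cont : ContinuousOn sg Q
  proj : ∀ z ∈ R, z.1 ∈ Q
  sec : ∀ x ∈ Q, (x, sg x) ∈ R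
  star : ∀ x s, (x, s) ∈ R → ∀ τ ∈ Icc (0 : ℝ) 1, (x, (1 - τ) * s + τ * sg x) ∈ R

namespace VertStar

variable {Q : Set X} {sg : X → ℝ} {R : Set (X × ℝ)}

/-- the inclusion of the section -/
def inc (H : VertStar Q sg R) : C(Q, R) :=
  ⟨fun x => ⟨((x : X), sg x), H.sec x x.2⟩, by
    apply Continuous.subtype_mk
    exact continuous_subtype_val.prodMk H.cont.domRestrict⟩

/-- the projection -/
def ret (H : VertStar Q sg R) : C(R, Q) :=
  ⟨fun z => ⟨z.1.1, H.proj z.1 z.2⟩, by
    apply Continuous.subtype_mk
    exact continuous_fst.comp continuous_subtype_val⟩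

theorem homotopic (H : VertStar Q sg R) :
    ContinuousMap.Homotopic (ContinuousMap.id R) (H.inc.comp H.ret) := by
  refine ⟨⟨⟨fun w => ⟨(w.2.1.1, (1 - (w.1 : ℝ)) * w.2.1.2 + (w.1 : ℝ) * sg w.2.1.1), ?_⟩, ?_⟩, ?_, ?_⟩⟩
  · exact H.star _ _ w.2.2 _ w.1.2
  · apply Continuous.subtype_mk
    have h1 : Continuous fun w : I × R => sg w.2.1.1 := by
      have := H.cont.domRestrict
      exact this.comp ((H.ret.continuous).comp continuous_snd)
    have h2 : Continuous fun w : I × R => (w.2.1 : X × ℝ) :=
      continuous_subtype_val.comp continuous_snd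
    have h3 : Continuous fun w : I × R => (w.1 : ℝ) := continuous_subtype_val.comp continuous_fst
    exact (continuous_fst.comp h2).prodMk
      (((continuous_const.sub h3).mul (continuous_snd.comp h2)).add (h3.mul h1))
  · intro z
    apply Subtype.ext
    simp
  · intro z
    apply Subtype.ext
    simp [inc, ret]

theorem contractible (H : VertStar Q sg R) [ContractibleSpace Q] : ContractibleSpace R :=
  contractible_of_dominated H.inc H.ret H.homotopic

theorem pathConnected (H : VertStar Q sg R) [PathConnectedSpace Q] : PathConnectedSpace R :=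
  pathConnected_of_dominated H.inc H.ret H.homotopic

variable {S : Type*} [TopologicalSpace S]

theorem contractible_image (H : VertStar Q sg R) [ContractibleSpace Q] {b : X × ℝ → S}
    (hb : IsEmbedding b) : ContractibleSpace (b '' R) := by
  have := H.contractible
  exact (hb.homeomorphImage R).symm.contractibleSpace

theorem isPreconnected_image (H : VertStar Q sg R) [PathConnectedSpace Q] {b : X × ℝ → S}
    (hb : Continuous b) : IsPreconnected (b '' R) := by
  have := H.pathConnected
  have h1 : IsPathConnected R := isPathConnected_iff_pathConnectedSpace.2 this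
  exact (h1.image hb).isConnected.isPreconnected

end VertStar

end VertStar

end Pool.Agent.Lib.MP_55d555_gt
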