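import Mathlib
import Pool.Agent.Lib.MP_55d555_gt.VertStar

set_option autoImplicit false
set_option linter.unusedSectionVars false

/-!
The abstract configuration: a space cut along a surface with a product neighbourhood, and a
parametrized link inside the product neighbourhood.
-/

namespace Pool.Agent.Lib.MP_55d555_gt

open Set Topology unitInterval

/-- A space `S` which is the union of two closed pieces `Wp`, `Wm` meeting in a surface with open
product neighbourhood `h : F × ℝ → S`, and a parametrized curve system `(p, t)` in it. -/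
structure Config (S F P : Type*) [TopologicalSpace S] [TopologicalSpace F]
    [TopologicalSpace P] where
  h : F × ℝ → S
  hop : IsOpenEmbedding h
  Wp : Set S
  Wm : Set S
  clp : IsClosed Wp
  clm : IsClosed Wm
  cover : ∀ z, z ∈ Wp ∨ z ∈ Wm
  inter : ∀ z, z ∈ Wp → z ∈ Wm → ∃ x, z = h (x, 0)
  pos : ∀ x s, 0 ≤ s → h (x, s) ∈ Wp
  neg : ∀ x s, s ≤ 0 → h (x, s) ∈ Wm
  p : P → F
  t : P → ℝ
  hp : Continuous p
  ht : Continuous t

namespace Config

variable {S F P : Type*} [TopologicalSpace S] [TopologicalSpace F] [TopologicalSpace P]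

/-- turn the configuration upside down -/
def flip (c : Config S F P) : Config S F P where
  h := fun q => c.h (q.1, -q.2)
  hop := c.hop.comp (Homeomorph.prodCongr (Homeomorph.refl F) (Homeomorph.neg ℝ)).isOpenEmbedding
  Wp := c.Wm
  Wm := c.Wp
  clp := c.clm
  clm := c.clp
  cover := fun z => (c.cover z).symm
  inter := fun z h1 h2 => by
    obtain ⟨x, hx⟩ := c.inter z h2 h1
    exact ⟨x, by simpa using hx⟩
  pos := fun x s hs => c.neg x (-s) (by linarith)
  neg := fun x s hs => c.pos x (-s) (by linarith)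
  p := c.p
  t := fun τ => -c.t τ
  hp := c.hp
  ht := c.ht.neg

variable (c : Config S F P)

theorem h_inj {q q' : F × ℝ} (e : c.h q = c.h q') : q = q' := c.hop.injective e

theorem h_pair_inj {x x' : F} {s s' : ℝ} (e : c.h (x, s) = c.h (x', s')) : x = x' ∧ s = s' := by
  have := c.h_inj e
  exact ⟨congrArg Prod.fst this, congrArg Prod.snd this⟩

theorem not_Wm {x : F} {s : ℝ} (hs : 0 < s) : c.h (x, s) ∉ c.Wm := by
  intro hm
  obtain ⟨x', hx'⟩ := c.inter _ (c.pos x s hs.le) hm
  have := (c.h_pair_inj hx').2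
  linarith

theorem not_Wp {x : F} {s : ℝ} (hs : s < 0) : c.h (x, s) ∉ c.Wp := by
  intro hm
  obtain ⟨x', hx'⟩ := c.inter _ hm (c.neg x s hs.le)
  have := (c.h_pair_inj hx').2
  linarith

/-- points above all strands -/
def top : Set S :=
  {z | (z ∈ c.Wp ∧ z ∉ range c.h) ∨ ∃ x s, z = c.h (x, s) ∧ ∀ τ, c.p τ = x → c.t τ < s}

/-- the link -/
def link : Set S := {z | ∃ τ, z = c.h (c.p τ, c.t τ)}

theorem mem_top_h {x : F} {s : ℝ} : c.h (x, s) ∈ c.top ↔ ∀ τ, c.p τ = x → c.t τ < s := by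
  constructor
  · rintro (⟨_, h2⟩ | ⟨x', s', h1, h2⟩)
    · exact absurd ⟨_, rfl⟩ h2
    · obtain ⟨rfl, rfl⟩ := c.h_pair_inj h1
      exact h2
  · intro hh
    exact Or.inr ⟨x, s, rfl, hh⟩

theorem top_disjoint_link {z : S} (hz : z ∈ c.top) : z ∉ c.link := by
  rintro ⟨τ, rfl⟩
  exact lt_irrefl _ ((c.mem_top_h).1 hz τ rfl)

theorem flip_link : c.flip.link = c.link := by
  ext z
  simp [link, flip]

theorem mem_flip_top_h {x : F} {s : ℝ} :
    c.h (x, s) ∈ c.flip.top ↔ ∀ τ, c.p τ = x → s < c.t τ := by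
  have h1 : c.h (x, s) = c.flip.h (x, -s) := by simp [flip]
  rw [h1, mem_top_h]
  constructor
  · intro hh τ hτ
    have := hh τ hτ
    simp only [flip] at this
    linarith
  · intro hh τ hτ
    have := hh τ hτ
    simp only [flip]
    linarith

theorem top_inter_flip_top {z : S} :
    z ∈ c.top ∧ z ∈ c.flip.top ↔ ∃ x s, z = c.h (x, s) ∧ x ∉ range c.p := by
  constructor
  · rintro ⟨h1, h2⟩
    have hr : range c.flip.h = range c.h := by
      ext w
      constructor
      · rintro ⟨q, rfl⟩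
        exact ⟨(q.1, -q.2), rfl⟩
      · rintro ⟨q, rfl⟩
        exact ⟨(q.1, -q.2), by simp [flip]⟩
    by_cases hz : z ∈ range c.h
    · obtain ⟨⟨x, s⟩, rfl⟩ := hz
      refine ⟨x, s, rfl, ?_⟩
      rintro ⟨τ, hτ⟩
      have e1 := c.mem_top_h.1 h1 τ hτ
      have e2 := c.mem_flip_top_h.1 h2 τ hτ
      linarith
    · have hp : z ∈ c.Wp := by
        rcases h1 with h1 | ⟨x, s, h1, _⟩
        · exact h1.1
        · exact absurd ⟨_, h1.symm⟩ hz
      have hm : z ∈ c.Wm := by
        rcases h2 with h2 | ⟨x, s, h2, _⟩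
        · exact h2.1
        · rw [← hr] at hz
          exact absurd ⟨_, h2.symm⟩ hz
      obtain ⟨x, hx⟩ := c.inter z hp hm
      exact absurd ⟨_, hx.symm⟩ hz
  · rintro ⟨x, s, rfl, hx⟩
    exact ⟨c.mem_top_h.2 fun τ hτ => absurd ⟨τ, hτ⟩ hx,
      c.mem_flip_top_h.2 fun τ hτ => absurd ⟨τ, hτ⟩ hx⟩

/-- A point off the link, outside top and bottom regions, lies between two strands. -/
theorem exists_between {z : S} (h1 : z ∉ c.top) (h2 : z ∉ c.flip.top) (h3 : z ∉ c.link) :
    ∃ x s τ τ', z = c.h (x, s) ∧ c.p τ = x ∧ c.p τ' = x ∧ s < c.t τ ∧ c.t τ' < s := by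
  by_cases hz : z ∈ range c.h
  · obtain ⟨⟨x, s⟩, rfl⟩ := hz
    rw [mem_top_h] at h1
    rw [mem_flip_top_h] at h2
    push Not at h1 h2
    obtain ⟨τ, hτ, hs⟩ := h1
    obtain ⟨τ', hτ', hs'⟩ := h2
    refine ⟨x, s, τ, τ', rfl, hτ, hτ', lt_of_le_of_ne hs ?_, lt_of_le_of_ne hs' ?_⟩
    · rintro rfl
      exact h3 ⟨τ, by rw [hτ]⟩
    · rintro rfl
      exact h3 ⟨τ', by rw [hτ']⟩
  · exfalso
    rcases c.cover z with h | h
    · exact h1 (Or.inl ⟨h, hz⟩)
    · refine h2 (Or.inl ⟨h, ?_⟩)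
      rintro ⟨q, rfl⟩
      exact hz ⟨(q.1, -q.2), rfl⟩

section Open

variable [CompactSpace P] [T2Space F] [CompactSpace F] [T2Space S]

theorem exists_bound : ∃ R : ℝ, 0 < R ∧ ∀ τ, |c.t τ| < R := by
  have : IsCompact (range c.t) := isCompact_range c.ht
  obtain ⟨R, hR⟩ := this.isBounded.exists_norm_le
  refine ⟨|R| + 1, by positivity, fun τ => ?_⟩
  have := hR (c.t τ) ⟨τ, rfl⟩
  rw [Real.norm_eq_abs] at this
  have := le_abs_self R
  linarith

theorem isOpen_above : IsOpen {q : F × ℝ | ∀ τ, c.p τ = q.1 → c.t τ < q.2} := by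
  have hcl : IsClosed {w : P × (F × ℝ) | c.p w.1 = w.2.1 ∧ w.2.2 ≤ c.t w.1} := by
    apply IsClosed.inter
    · exact isClosed_eq (c.hp.comp continuous_fst) (continuous_fst.comp continuous_snd)
    · exact isClosed_le (continuous_snd.comp continuous_snd) (c.ht.comp continuous_fst)
  have := isClosedMap_snd_of_compactSpace _ hcl
  rw [← isOpen_compl_iff] at this
  convert this using 1
  ext q
  simp only [mem_ofPred_eq, mem_compl_iff, mem_image, Prod.exists, not_exists, not_and]
  constructor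
  · rintro h τ x s h1 rfl
    exact absurd (h τ h1.1) (not_lt.2 h1.2)
  · intro h τ hτ
    by_contra hcon
    exact h τ q.1 q.2 ⟨hτ, not_lt.1 hcon⟩ rfl

theorem isOpen_top : IsOpen c.top := by
  rw [isOpen_iff_mem_nhds]
  rintro z (⟨h1, h2⟩ | ⟨x, s, rfl, h2⟩)
  · obtain ⟨R, hR0, hR⟩ := c.exists_bound
    have hK : IsCompact (c.h '' (univ ×ˢ Icc 0 R)) :=
      (isCompact_univ.prod isCompact_Icc).image c.hop.continuous
    have hzm : z ∉ c.Wm := by
      intro hm
      obtain ⟨x, hx⟩ := c.inter z h1 hm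
      exact h2 ⟨_, hx.symm⟩
    have hzK : z ∉ c.h '' (univ ×ˢ Icc 0 R) := by
      rintro ⟨q, _, rfl⟩
      exact h2 ⟨q, rfl⟩
    have hO : c.Wmᶜ ∩ (c.h '' (univ ×ˢ Icc 0 R))ᶜ ∈ 𝓝 z :=
      Filter.inter_mem (c.clm.isOpen_compl.mem_nhds hzm) (hK.isClosed.isOpen_compl.mem_nhds hzK)
    refine Filter.mem_of_superset hO ?_
    rintro w ⟨hw1, hw2⟩
    by_cases hw : w ∈ range c.h
    · obtain ⟨⟨x, s⟩, rfl⟩ := hw
      right
      refine ⟨x, s, rfl, fun τ hτ => ?_⟩
      have hs : 0 < s := by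
        by_contra hcon
        exact hw1 (c.neg x s (not_lt.1 hcon))
      by_contra hcon
      refine hw2 ⟨(x, s), ⟨mem_univ _, hs.le, ?_⟩, rfl⟩
      have := hR τ
      have := le_abs_self (c.t τ)
      simp only
      linarith
    · left
      refine ⟨?_, hw⟩
      rcases c.cover w with h | h
      · exact h
      · exact absurd h hw1
  · have hO : c.h '' {q : F × ℝ | ∀ τ, c.p τ = q.1 → c.t τ < q.2} ∈ 𝓝 (c.h (x, s)) :=
      (c.hop.isOpenMap _ c.isOpen_above).mem_nhds ⟨(x, s), h2, rfl⟩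
    refine Filter.mem_of_superset hO ?_
    rintro _ ⟨⟨x', s'⟩, hq, rfl⟩
    exact Or.inr ⟨x', s', rfl, hq⟩

end Open

section VMap

open Classical in
/-- change the height coordinate inside the product neighbourhood -/
noncomputable def vm (f : F × ℝ → ℝ) (z : S) : S :=
  if hz : z ∈ range c.h then c.h (hz.choose.1, f hz.choose) else z

theorem vm_h (f : F × ℝ → ℝ) (q : F × ℝ) : c.vm f (c.h q) = c.h (q.1, f q) := by
  have hz : c.h q ∈ range c.h := ⟨q, rfl⟩
  have h1 : hz.choose = q := c.h_inj hz.choose_spec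
  unfold vm
  rw [dif_pos hz, h1]

theorem vm_of_not (f : F × ℝ → ℝ) {z : S} (hz : z ∉ range c.h) : c.vm f z = z := by
  unfold vm
  rw [dif_neg hz]

variable [T2Space S] [CompactSpace F]

theorem vm_continuousOn {Y : Type*} [TopologicalSpace Y] (f : Y × (F × ℝ) → ℝ)
    (hf : Continuous f) (R : ℝ) (hR : ∀ y x s, R ≤ s → f (y, (x, s)) = s) :
    ContinuousOn (fun w : Y × S => c.vm (fun q => f (w.1, q)) w.2)
      {w | w.2 ∈ c.Wp ∨ w.2 ∈ range c.h} := by
  rintro ⟨y, z⟩ hw
  apply ContinuousAt.continuousWithinAt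
  by_cases hz : z ∈ range c.h
  · obtain ⟨q, rfl⟩ := hz
    have hemb : IsOpenEmbedding (Prod.map (id : Y → Y) c.h) :=
      IsOpenEmbedding.prodMap IsOpenEmbedding.id c.hop
    have h1 : ((y, c.h q) : Y × S) = Prod.map id c.h (y, q) := rfl
    rw [h1, ← hemb.continuousAt_iff]
    have h2 : ((fun w : Y × S => c.vm (fun q => f (w.1, q)) w.2) ∘ Prod.map id c.h)
        = fun w : Y × (F × ℝ) => c.h (w.2.1, f w) := by
      funext w
      simp [vm_h]
    rw [h2]
    exact (c.hop.continuous.comp ((continuous_fst.comp continuous_snd).prodMk hf)).continuousAt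
  · have hzp : z ∈ c.Wp := by
      rcases hw with h | h
      · exact h
      · exact absurd h hz
    have hK : IsCompact (c.h '' (univ ×ˢ Icc 0 R)) :=
      (isCompact_univ.prod isCompact_Icc).image c.hop.continuous
    have hzm : z ∉ c.Wm := by
      intro hm
      obtain ⟨x, hx⟩ := c.inter z hzp hm
      exact hz ⟨_, hx.symm⟩
    have hzK : z ∉ c.h '' (univ ×ˢ Icc 0 R) := by
      rintro ⟨q, _, rfl⟩
      exact hz ⟨q, rfl⟩
    have hO : c.Wmᶜ ∩ (c.h '' (univ ×ˢ Icc 0 R))ᶜ ∈ 𝓝 z :=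
      Filter.inter_mem (c.clm.isOpen_compl.mem_nhds hzm) (hK.isClosed.isOpen_compl.mem_nhds hzK)
    have hev : (fun w : Y × S => c.vm (fun q => f (w.1, q)) w.2) =ᶠ[𝓝 (y, z)] Prod.snd := by
      have : ∀ᶠ w : Y × S in 𝓝 (y, z), w.2 ∈ c.Wmᶜ ∩ (c.h '' (univ ×ˢ Icc 0 R))ᶜ :=
        continuous_snd.continuousAt.eventually hO
      filter_upwards [this] with w hw'
      obtain ⟨hw1, hw2⟩ := hw'
      by_cases hwr : w.2 ∈ range c.h
      · obtain ⟨⟨x, s⟩, hxs⟩ := hwr
        rw [← hxs] at hw1 hw2 ⊢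
        rw [vm_h]
        have hs : 0 < s := by
          by_contra hcon
          exact hw1 (c.neg x s (not_lt.1 hcon))
        have hsR : R ≤ s := by
          by_contra hcon
          exact hw2 ⟨(x, s), ⟨mem_univ _, hs.le, (not_le.1 hcon).le⟩, rfl⟩
        rw [hR _ _ _ hsR]
      · rw [vm_of_not _ _ hwr]
    exact (continuous_snd.continuousAt).congr hev.symm

theorem vm_continuousOn' (f : F × ℝ → ℝ)
    (hf : Continuous f) (R : ℝ) (hR : ∀ x s, R ≤ s → f (x, s) = s) :
    ContinuousOn (c.vm f) {z | z ∈ c.Wp ∨ z ∈ range c.h} := by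
  have := c.vm_continuousOn (Y := Unit) (fun w => f w.2) (hf.comp continuous_snd) R
    (fun _ x s h => hR x s h)
  have h2 : ContinuousOn (fun z : S => (((), z) : Unit × S)) {z | z ∈ c.Wp ∨ z ∈ range c.h} :=
    (continuous_const.prodMk continuous_id).continuousOn
  exact this.comp h2 (fun z hz => hz)

end VMap

section Retract

/-- push everything at height at most `R` to height zero -/
noncomputable def rho (R : ℝ) (q : F × ℝ) : ℝ := max 0 (min q.2 (2 * (q.2 - R)))

/-- push heights above zero to heights above `R` -/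
noncomputable def ii (R : ℝ) (q : F × ℝ) : ℝ := max q.2 (R + q.2 / 2)

/-- the straight line homotopy pushing up to height `R` -/
noncomputable def hom (R : ℝ) (w : I × (F × ℝ)) : ℝ :=
  (1 - (w.1 : ℝ)) * w.2.2 + (w.1 : ℝ) * max w.2.2 R

/-- the part of the top region lying over `A` -/
def part (R : ℝ) (A : Set S) : Set S := {z | z ∈ c.top ∧ c.vm (rho R) z ∈ A}

theorem top_sub {z : S} (hz : z ∈ c.top) : z ∈ c.Wp ∨ z ∈ range c.h := by
  rcases hz with h | ⟨x, s, rfl, _⟩
  · exact Or.inl h.1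
  · exact Or.inr ⟨_, rfl⟩

variable [T2Space S] [CompactSpace F] {R : ℝ} (hR0 : 0 < R)

include hR0

theorem rho_continuousOn : ContinuousOn (c.vm (rho R)) {z | z ∈ c.Wp ∨ z ∈ range c.h} := by
  apply c.vm_continuousOn' (rho R) (by unfold rho; fun_prop) (2 * R)
  intro x s hs
  simp only [rho]
  rw [min_eq_left (by linarith), max_eq_right (by linarith)]

theorem ii_continuousOn : ContinuousOn (c.vm (ii R)) {z | z ∈ c.Wp ∨ z ∈ range c.h} := by
  apply c.vm_continuousOn' (ii R) (by unfold ii; fun_prop) (2 * R)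
  intro x s hs
  simp only [ii]
  rw [max_eq_left (by linarith)]

theorem hom_continuousOn : ContinuousOn
    (fun w : I × S => c.vm (fun q => hom R (w.1, q)) w.2)
      {w | w.2 ∈ c.Wp ∨ w.2 ∈ range c.h} := by
  apply c.vm_continuousOn (hom R) (by unfold hom; fun_prop) (2 * R)
  intro y x s hs
  simp only [hom]
  rw [max_eq_left (by linarith)]
  ring

theorem nonneg_of_Wp {x : F} {s : ℝ} (h : c.h (x, s) ∈ c.Wp) : 0 ≤ s := by
  by_contra hcon
  exact c.not_Wp (not_le.1 hcon) h

variable (hR : ∀ τ, |c.t τ| < R)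
include hR

theorem ii_mem_top {z : S} (hz : z ∈ c.Wp) : c.vm (ii R) z ∈ c.top := by
  by_cases h : z ∈ range c.h
  · obtain ⟨⟨x, s⟩, rfl⟩ := h
    rw [vm_h, mem_top_h]
    intro τ _
    have h1 := c.nonneg_of_Wp hR0 hz
    have h2 := hR τ
    have h3 := le_abs_self (c.t τ)
    simp only [ii]
    have := le_max_right s (R + s / 2)
    linarith
  · rw [vm_of_not _ _ h]
    exact Or.inl ⟨hz, h⟩

omit hR in
theorem rho_ii {z : S} (hz : z ∈ c.Wp) : c.vm (rho R) (c.vm (ii R) z) = z := by
  by_cases h : z ∈ range c.h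
  · obtain ⟨⟨x, s⟩, rfl⟩ := h
    have h1 := c.nonneg_of_Wp hR0 hz
    rw [vm_h, vm_h]
    simp only [ii, rho]
    congr 2
    rcases le_total s (2 * R) with h2 | h2
    · rw [max_eq_right (a := s) (by linarith)]
      rw [min_eq_right (by linarith), max_eq_right (by linarith)]
      ring
    · rw [max_eq_left (b := R + s / 2) (by linarith), min_eq_left (by linarith), max_eq_right h1]
  · rw [vm_of_not _ _ h, vm_of_not _ _ h]

omit hR in
theorem ii_rho {z : S} : c.vm (ii R) (c.vm (rho R) z) = c.vm (fun q => max q.2 R) z := by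
  by_cases h : z ∈ range c.h
  · obtain ⟨⟨x, s⟩, rfl⟩ := h
    rw [vm_h, vm_h, vm_h]
    simp only [ii, rho]
    congr 2
    rcases le_total s R with h2 | h2
    · rw [max_eq_left (a := (0:ℝ)) (le_trans (min_le_right _ _) (by linarith)), max_eq_right h2,
        max_eq_right (by linarith)]
      ring
    · rcases le_total s (2 * R) with h3 | h3
      · rw [min_eq_right (by linarith), max_eq_right (a := (0:ℝ)) (by linarith)]
        rw [max_eq_left h2]
        rw [max_eq_right (by linarith)]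
        ring
      · rw [min_eq_left (by linarith), max_eq_right (a := (0:ℝ)) (by linarith),
          max_eq_left h2, max_eq_left (by linarith)]
  · rw [vm_of_not _ _ h, vm_of_not _ _ h, vm_of_not _ _ h]

omit hR in
theorem hom_mem_top {z : S} (hz : z ∈ c.top) (y : I) :
    c.vm (fun q => hom R (y, q)) z ∈ c.top := by
  by_cases h : z ∈ range c.h
  · obtain ⟨⟨x, s⟩, rfl⟩ := h
    rw [vm_h, mem_top_h]
    intro τ hτ
    have h1 := (c.mem_top_h.1 hz) τ hτ
    simp only [hom]
    have h2 := le_max_left s R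
    have h3 := y.2.1
    nlinarith
  · rw [vm_of_not _ _ h]
    exact hz

omit hR in
theorem rho_hom {z : S} (y : I) :
    c.vm (rho R) (c.vm (fun q => hom R (y, q)) z) = c.vm (rho R) z := by
  by_cases h : z ∈ range c.h
  · obtain ⟨⟨x, s⟩, rfl⟩ := h
    rw [vm_h, vm_h, vm_h]
    simp only [hom, rho]
    congr 2
    have h3 := y.2.1
    have h4 := y.2.2
    rcases le_total s R with h2 | h2
    · rw [max_eq_right h2, max_eq_left (a := (0:ℝ)) (le_trans (min_le_right _ _) (by nlinarith)),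
        max_eq_left (a := (0:ℝ)) (le_trans (min_le_right _ _) (by nlinarith))]
    · rw [max_eq_left h2]
      congr 2 <;> ring
  · rw [vm_of_not _ _ h, vm_of_not _ _ h]

/-- The inclusion of `A ⊆ Wp` into the part of the top region over `A`. -/
noncomputable def incl {A : Set S} (hA : A ⊆ c.Wp) : C(A, c.part R A) :=
  ⟨fun z => ⟨c.vm (ii R) z, c.ii_mem_top hR0 hR (hA z.2), by
    rw [c.rho_ii hR0 (hA z.2)]; exact z.2⟩, by
    apply Continuous.subtype_mk
    exact ((c.ii_continuousOn hR0).mono (fun z hz => Or.inl (hA hz))).domRestrict⟩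

omit hR in
/-- The retraction. -/
noncomputable def retr (A : Set S) : C(c.part R A, A) :=
  ⟨fun z => ⟨c.vm (rho R) z, z.2.2⟩, by
    apply Continuous.subtype_mk
    exact ((c.rho_continuousOn hR0).mono (fun z hz => c.top_sub hz.1)).domRestrict⟩

theorem homotopic {A : Set S} (hA : A ⊆ c.Wp) :
    ContinuousMap.Homotopic (ContinuousMap.id (c.part R A))
      ((c.incl hR0 hR hA).comp (c.retr hR0 A)) := by
  refine ⟨⟨⟨fun w => ⟨c.vm (fun q => hom R (w.1, q)) w.2, c.hom_mem_top hR0 w.2.2.1 _, ?_⟩, ?_⟩,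
    ?_, ?_⟩⟩
  · rw [c.rho_hom hR0]
    exact w.2.2.2
  · apply Continuous.subtype_mk
    have h1 : Continuous fun w : I × (c.part R A) => ((w.1, (w.2 : S)) : I × S) :=
      continuous_fst.prodMk (continuous_subtype_val.comp continuous_snd)
    exact (c.hom_continuousOn hR0).comp_continuous h1 (fun w => c.top_sub w.2.2.1)
  · intro z
    apply Subtype.ext
    simp only [ContinuousMap.id_apply]
    have : (fun q : F × ℝ => hom R ((0 : I), q)) = fun q => q.2 := by
      funext q
      simp [hom]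
    rw [this]
    by_cases h : (z : S) ∈ range c.h
    · obtain ⟨⟨x, s⟩, hxs⟩ := h
      rw [← hxs, vm_h]
    · rw [vm_of_not _ _ h]
  · intro z
    apply Subtype.ext
    simp only [ContinuousMap.comp_apply]
    have : (fun q : F × ℝ => hom R ((1 : I), q)) = fun q => max q.2 R := by
      funext q
      simp [hom]
    rw [this]
    exact (c.ii_rho hR0).symm

theorem contractible_over {A : Set S} (hA : A ⊆ c.Wp) [ContractibleSpace A] :
    ContractibleSpace (c.part R A) :=
  contractible_of_dominated (c.incl hR0 hR hA) (c.retr hR0 A) (c.homotopic hR0 hR hA)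

theorem isPreconnected_over {A : Set S} (hA : A ⊆ c.Wp) [PathConnectedSpace A] :
    IsPreconnected (c.part R A) := by
  have := pathConnected_of_dominated (c.incl hR0 hR hA) (c.retr hR0 A) (c.homotopic hR0 hR hA)
  exact (isPathConnected_iff_pathConnectedSpace.2 this).isConnected.isPreconnected

end Retract

end Config

end Pool.Agent.Lib.MP_55d555_gt
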