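import Mathlib
import Pool.Agent.Lib.MP_55d555_gt.VertStar

set_option autoImplicit false
set_option linter.unusedSectionVars false

/-!
The standard handlebody and its decomposition into two balls glued along disks.
-/

namespace Pool.Agent.Lib.MP_55d555_gt

open Set Topology unitInterval

/-- The standard handlebody of genus `g`: the product with `[0,1]` of the rectangle
`[0,2g+1] × [-1,1]` with the `g` open rectangles `(2j+1,2j+2) × (-1/2,1/2)`, `j < g`, removed. -/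
def handlebody (g : ℕ) : Set (ℝ × ℝ × ℝ) :=
  {v | v.1 ∈ Icc (0 : ℝ) (2 * g + 1) ∧ v.2.1 ∈ Icc (-1 : ℝ) 1 ∧ v.2.2 ∈ Icc (0 : ℝ) 1 ∧
    ∀ j : ℕ, j < g → ¬ (v.1 ∈ Ioo (2 * j + 1 : ℝ) (2 * j + 2) ∧ |v.2.1| < 1 / 2)}

section Decomp

/-- the coordinate change moving the second coordinate to the last place -/
def swapc : (ℝ × ℝ) × ℝ ≃ₜ ℝ × ℝ × ℝ where
  toFun w := (w.1.1, w.2, w.1.2)
  invFun v := ((v.1, v.2.2), v.2.1)
  left_inv w := rfl
  right_inv v := rfl
  continuous_toFun := by fun_prop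
  continuous_invFun := by fun_prop

theorem swapc_apply (w : (ℝ × ℝ) × ℝ) : swapc w = (w.1.1, w.2, w.1.2) := rfl

/-- half of the handlebody -/
def halfA (g : ℕ) : Set (ℝ × ℝ × ℝ) := handlebody g ∩ {v | 0 ≤ v.2.1}

/-- half of the handlebody -/
def halfB (g : ℕ) : Set (ℝ × ℝ × ℝ) := handlebody g ∩ {v | v.2.1 ≤ 0}

/-- the disks in which the two halves meet -/
def diskJ (g : ℕ) (j : Fin (g + 1)) : Set (ℝ × ℝ × ℝ) :=
  {v | v.1 ∈ Icc (2 * (j : ℕ) : ℝ) (2 * (j : ℕ) + 1) ∧ v.2.1 = 0 ∧ v.2.2 ∈ Icc (0 : ℝ) 1}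

/-- the base rectangle -/
def baseQ (g : ℕ) : Set (ℝ × ℝ) := Icc (0 : ℝ) (2 * g + 1) ×ˢ Icc (0 : ℝ) 1

theorem contractible_baseQ (g : ℕ) : ContractibleSpace (baseQ g) := by
  apply Convex.contractibleSpace
  · exact (convex_Icc _ _).prod (convex_Icc _ _)
  · refine ⟨(0, 0), ⟨⟨le_refl _, ?_⟩, ⟨le_refl _, ?_⟩⟩⟩
    · simp only
      positivity
    · norm_num

theorem vertStar_A (g : ℕ) :
    VertStar (baseQ g) (fun _ => 1) (swapc ⁻¹' (halfA g)) where
  cont := continuousOn_const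
  proj := by
    rintro ⟨⟨x, z⟩, y⟩ ⟨⟨h1, h2, h3, h4⟩, h5⟩
    exact ⟨h1, h3⟩
  sec := by
    rintro ⟨x, z⟩ ⟨h1, h2⟩
    refine ⟨⟨h1, ?_, h2, ?_⟩, ?_⟩
    · simp [swapc_apply]
    · rintro j hj ⟨_, h⟩
      simp only [swapc_apply] at h
      norm_num at h
    · simp [swapc_apply]
  star := by
    rintro ⟨x, z⟩ y ⟨⟨h1, h2, h3, h4⟩, h5⟩ τ hτ
    simp only [swapc_apply, mem_ofPred_eq] at h1 h2 h3 h4 h5
    have e1 := hτ.1
    have e2 := hτ.2
    have e3 := h2.2
    have key : y ≤ (1 - τ) * y + τ * 1 := by nlinarith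
    refine ⟨⟨h1, ?_, h3, ?_⟩, ?_⟩
    · simp only [swapc_apply]
      constructor
      · linarith
      · nlinarith
    · rintro j hj ⟨h6, h7⟩
      simp only [swapc_apply] at h6 h7
      refine h4 j hj ⟨h6, ?_⟩
      rw [abs_of_nonneg h5]
      rw [abs_of_nonneg (by linarith)] at h7
      linarith
    · simp only [swapc_apply, mem_ofPred_eq]
      linarith

theorem vertStar_B (g : ℕ) :
    VertStar (baseQ g) (fun _ => -1) (swapc ⁻¹' (halfB g)) where
  cont := continuousOn_const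
  proj := by
    rintro ⟨⟨x, z⟩, y⟩ ⟨⟨h1, h2, h3, h4⟩, h5⟩
    exact ⟨h1, h3⟩
  sec := by
    rintro ⟨x, z⟩ ⟨h1, h2⟩
    refine ⟨⟨h1, ?_, h2, ?_⟩, ?_⟩
    · simp [swapc_apply]
    · rintro j hj ⟨_, h⟩
      simp only [swapc_apply] at h
      norm_num at h
    · simp [swapc_apply]
  star := by
    rintro ⟨x, z⟩ y ⟨⟨h1, h2, h3, h4⟩, h5⟩ τ hτ
    simp only [swapc_apply, mem_ofPred_eq] at h1 h2 h3 h4 h5
    have e1 := hτ.1
    have e2 := hτ.2
    have e3 := h2.1
    have key : (1 - τ) * y + τ * (-1) ≤ y := by nlinarith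
    refine ⟨⟨h1, ?_, h3, ?_⟩, ?_⟩
    · simp only [swapc_apply]
      constructor
      · nlinarith
      · linarith
    · rintro j hj ⟨h6, h7⟩
      simp only [swapc_apply] at h6 h7
      refine h4 j hj ⟨h6, ?_⟩
      rw [abs_of_nonpos h5]
      rw [abs_of_nonpos (by linarith)] at h7
      linarith
    · simp only [swapc_apply, mem_ofPred_eq]
      linarith

theorem contractible_halfA (g : ℕ) : ContractibleSpace (halfA g) := by
  have := contractible_baseQ g
  have h := (vertStar_A g).contractible_image swapc.isEmbedding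
  rwa [image_preimage_eq _ swapc.surjective] at h

theorem contractible_halfB (g : ℕ) : ContractibleSpace (halfB g) := by
  have := contractible_baseQ g
  have h := (vertStar_B g).contractible_image swapc.isEmbedding
  rwa [image_preimage_eq _ swapc.surjective] at h

theorem pathConnected_diskJ (g : ℕ) (j : Fin (g + 1)) : PathConnectedSpace (diskJ g j) := by
  have hc : Convex ℝ (diskJ g j) := by
    have : diskJ g j = Icc (2 * (j : ℕ) : ℝ) (2 * (j : ℕ) + 1) ×ˢ ({(0 : ℝ)} ×ˢ Icc (0 : ℝ) 1) := by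
      ext v
      simp [diskJ]
    rw [this]
    exact (convex_Icc _ _).prod ((convex_singleton _).prod (convex_Icc _ _))
  have hne : (diskJ g j).Nonempty := ⟨(2 * (j : ℕ), 0, 0), by simp [diskJ]⟩
  have := hc.contractibleSpace hne
  infer_instance

theorem diskJ_sub (g : ℕ) (j : Fin (g + 1)) : diskJ g j ⊆ halfA g ∩ halfB g := by
  rintro ⟨x, y, z⟩ ⟨h1, h2, h3⟩
  simp only at h1 h2 h3
  subst h2
  have hj : (j : ℕ) ≤ g := Nat.lt_succ_iff.1 j.2
  have hj' : ((j : ℕ) : ℝ) ≤ g := by exact_mod_cast hj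
  have hj0 : (0 : ℝ) ≤ ((j : ℕ) : ℝ) := by positivity
  have hmem : (x, (0 : ℝ), z) ∈ handlebody g := by
    refine ⟨⟨by linarith [h1.1], by linarith [h1.2]⟩, by norm_num, h3, ?_⟩
    rintro i hi ⟨h4, _⟩
    simp only at h4
    have e1 : (2 * i + 1 : ℝ) < 2 * (j : ℕ) + 1 := lt_of_lt_of_le h4.1 h1.2
    have e2 : (2 * (j : ℕ) : ℝ) < 2 * i + 2 := lt_of_le_of_lt h1.1 h4.2
    have e3 : (2 * i + 1 : ℕ) < 2 * (j : ℕ) + 1 := by exact_mod_cast e1
    have e4 : 2 * (j : ℕ) < 2 * i + 2 := by exact_mod_cast e2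
    omega
  exact ⟨⟨hmem, le_refl (0 : ℝ)⟩, ⟨hmem, le_refl (0 : ℝ)⟩⟩

theorem inter_sub (g : ℕ) : halfA g ∩ halfB g ⊆ ⋃ j, diskJ g j := by
  rintro ⟨x, y, z⟩ ⟨⟨⟨h1, h2, h3, h4⟩, h5⟩, ⟨_, h6⟩⟩
  simp only [mem_ofPred_eq] at h1 h2 h3 h4 h5 h6
  have hy : y = 0 := le_antisymm h6 h5
  subst hy
  rw [mem_iUnion]
  have hx0 := h1.1
  -- the index is the floor of x / 2
  set m : ℕ := ⌊x / 2⌋₊ with hm
  have hm1 : (m : ℝ) ≤ x / 2 := Nat.floor_le (by positivity)
  have hm2 : x / 2 < m + 1 := Nat.lt_floor_add_one _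
  have hmg : m ≤ g := by
    by_contra hcon
    have : (g + 1 : ℕ) ≤ m := by omega
    have h7 : ((g + 1 : ℕ) : ℝ) ≤ m := by exact_mod_cast this
    push_cast at h7
    have := h1.2
    linarith
  refine ⟨⟨m, Nat.lt_succ_iff.2 hmg⟩, ⟨⟨?_, ?_⟩, rfl, h3⟩⟩
  · simp only
    linarith
  · simp only
    by_contra hcon
    push Not at hcon
    by_cases hmg' : m < g
    · refine h4 m hmg' ⟨⟨by linarith, by linarith⟩, by norm_num⟩
    · have : m = g := le_antisymm hmg (not_lt.1 hmg')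
      have h7 : (m : ℝ) = g := by exact_mod_cast this
      have := h1.2
      rw [h7] at hcon
      linarith

theorem halves_union (g : ℕ) : halfA g ∪ halfB g = handlebody g := by
  ext v
  constructor
  · rintro (h | h) <;> exact h.1
  · intro h
    rcases le_total 0 v.2.1 with h1 | h1
    · exact Or.inl ⟨h, h1⟩
    · exact Or.inr ⟨h, h1⟩

theorem isCompact_handlebody (g : ℕ) : IsCompact (handlebody g) := by
  have hK : IsCompact (Icc (0 : ℝ) (2 * g + 1) ×ˢ (Icc (-1 : ℝ) 1 ×ˢ Icc (0 : ℝ) 1)) :=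
    isCompact_Icc.prod (isCompact_Icc.prod isCompact_Icc)
  apply hK.of_isClosed_subset
  · have : handlebody g = (Icc (0 : ℝ) (2 * g + 1) ×ˢ (Icc (-1 : ℝ) 1 ×ˢ Icc (0 : ℝ) 1)) ∩
        ⋂ j : Fin g, {v : ℝ × ℝ × ℝ | v.1 ∈ Ioo (2 * (j : ℕ) + 1 : ℝ) (2 * (j : ℕ) + 2) ∧
          |v.2.1| < 1 / 2}ᶜ := by
      ext v
      simp only [handlebody, mem_ofPred_eq, mem_inter_iff, mem_prod, mem_iInter, mem_compl_iff]
      constructor
      · rintro ⟨h1, h2, h3, h4⟩
        exact ⟨⟨h1, h2, h3⟩, fun j => h4 j j.2⟩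
      · rintro ⟨⟨h1, h2, h3⟩, h4⟩
        exact ⟨h1, h2, h3, fun j hj => h4 ⟨j, hj⟩⟩
    rw [this]
    apply IsClosed.inter
    · exact isClosed_Icc.prod (isClosed_Icc.prod isClosed_Icc)
    · apply isClosed_iInter
      intro j
      rw [isClosed_compl_iff]
      apply IsOpen.inter
      · exact isOpen_Ioo.preimage continuous_fst
      · exact isOpen_lt ((continuous_fst.comp continuous_snd).abs) continuous_const
  · rintro v ⟨h1, h2, h3, _⟩
    exact ⟨h1, h2, h3⟩

variable {S Y : Type*} [TopologicalSpace S] [TopologicalSpace Y]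

/-- transport of a subset along a homeomorphism between subsets -/
def pull {A : Set S} {B : Set Y} (φ : A ≃ₜ B) (K : Set Y) : Set S :=
  {z | ∃ hz : z ∈ A, (φ ⟨z, hz⟩ : Y) ∈ K}

/-- the transported subset is homeomorphic to the original one -/
def pullHomeo {A : Set S} {B : Set Y} (φ : A ≃ₜ B) {K : Set Y} (hK : K ⊆ B) :
    pull φ K ≃ₜ K where
  toFun z := ⟨φ ⟨z.1, z.2.choose⟩, z.2.choose_spec⟩
  invFun k := ⟨(φ.symm ⟨k.1, hK k.2⟩ : S), ⟨(φ.symm ⟨k.1, hK k.2⟩).2, by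
    simp [k.2]⟩⟩
  left_inv z := by
    apply Subtype.ext
    simp
  right_inv k := by
    apply Subtype.ext
    simp
  continuous_toFun := by
    apply Continuous.subtype_mk
    apply continuous_subtype_val.comp
    apply φ.continuous.comp
    apply Continuous.subtype_mk
    exact continuous_subtype_val
  continuous_invFun := by
    apply Continuous.subtype_mk
    apply continuous_subtype_val.comp
    apply φ.symm.continuous.comp
    apply Continuous.subtype_mk
    exact continuous_subtype_val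

theorem isClosed_pull {A : Set S} (hA : IsClosed A) {B : Set Y} (φ : A ≃ₜ B) {K : Set Y}
    (hK : IsClosed K) : IsClosed (pull φ K) := by
  have : pull φ K = ((↑) : A → S) '' {z : A | (φ z : Y) ∈ K} := by
    ext z
    constructor
    · rintro ⟨h1, h2⟩
      exact ⟨⟨z, h1⟩, h2, rfl⟩
    · rintro ⟨w, hw, rfl⟩
      exact ⟨w.2, hw⟩
  rw [this]
  apply hA.isClosedEmbedding_subtypeVal.isClosedMap
  exact hK.preimage (continuous_subtype_val.comp φ.continuous)

/-- Decomposition of a handlebody embedded as a closed subset. -/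
theorem handlebody_decomp {g : ℕ} {W : Set S} (hW : IsClosed W)
    (φ : W ≃ₜ handlebody g) :
    ∃ (Wa Wb : Set S) (Wj : Fin (g + 1) → Set S), IsClosed Wa ∧ IsClosed Wb ∧ Wa ∪ Wb = W ∧
      (∀ j, Wj j ⊆ Wa ∩ Wb) ∧ Wa ∩ Wb ⊆ ⋃ j, Wj j ∧ ContractibleSpace Wa ∧
      ContractibleSpace Wb ∧ ∀ j, PathConnectedSpace (Wj j) := by
  have hclA : IsClosed (halfA g) :=
    (isCompact_handlebody g).isClosed.inter (isClosed_le continuous_const (by fun_prop))
  have hclB : IsClosed (halfB g) :=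
    (isCompact_handlebody g).isClosed.inter (isClosed_le (by fun_prop) continuous_const)
  refine ⟨pull φ (halfA g), pull φ (halfB g), fun j => pull φ (diskJ g j),
    isClosed_pull hW φ hclA, isClosed_pull hW φ hclB, ?_, ?_, ?_, ?_, ?_, ?_⟩
  · ext z
    constructor
    · rintro (⟨h, _⟩ | ⟨h, _⟩) <;> exact h
    · intro h
      have : (φ ⟨z, h⟩ : ℝ × ℝ × ℝ) ∈ halfA g ∪ halfB g := by
        rw [halves_union]; exact (φ ⟨z, h⟩).2
      rcases this with h1 | h1
      · exact Or.inl ⟨h, h1⟩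
      · exact Or.inr ⟨h, h1⟩
  · rintro j z ⟨h1, h2⟩
    exact ⟨⟨h1, (diskJ_sub g j h2).1⟩, ⟨h1, (diskJ_sub g j h2).2⟩⟩
  · rintro z ⟨⟨h1, h2⟩, ⟨_, h3⟩⟩
    have := inter_sub g ⟨h2, h3⟩
    rw [mem_iUnion] at this ⊢
    obtain ⟨j, hj⟩ := this
    exact ⟨j, ⟨h1, hj⟩⟩
  · have := contractible_halfA g
    have hsub : halfA g ⊆ handlebody g := inter_subset_left
    exact (pullHomeo φ hsub).contractibleSpace
  · have := contractible_halfB g
    have hsub : halfB g ⊆ handlebody g := inter_subset_left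
    exact (pullHomeo φ hsub).contractibleSpace
  · intro j
    have := pathConnected_diskJ g j
    have hsub : diskJ g j ⊆ handlebody g := fun v hv => (diskJ_sub g j hv).1.1
    exact (pullHomeo φ hsub).symm.surjective.pathConnectedSpace
      (pullHomeo φ hsub).symm.continuous

end Decomp

end Pool.Agent.Lib.MP_55d555_gt
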