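import Mathlib
import Pool.Agent.Lib.MP_55d555_gt.Lift

set_option autoImplicit false
set_option linter.unusedSectionVars false

/-!
The double cover and lifts of odd circle valued classes over a union of two contractible sets.
-/

namespace Pool.Agent.Lib.MP_55d555_gt

open Set Topology

section Dbl

variable {S : Type*} [TopologicalSpace S]

/-- the part over `T` of the double cover defined by square roots of `G` -/
def dbl (G : S → ℂ) (T : Set S) : Set (S × ℂ) := {z | z.1 ∈ T ∧ z.2 ^ 2 = G z.1 ∧ G z.1 ≠ 0}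

theorem dbl_mono (G : S → ℂ) {T T' : Set S} (h : T ⊆ T') : dbl G T ⊆ dbl G T' :=
  fun _ hz => ⟨h hz.1, hz.2⟩

theorem dbl_neg {G : S → ℂ} {T : Set S} {z : S × ℂ} (hz : z ∈ dbl G T) :
    (z.1, -z.2) ∈ dbl G T := ⟨hz.1, by simpa using hz.2.1, hz.2.2⟩

theorem snd_ne_zero {G : S → ℂ} {T : Set S} {z : S × ℂ} (hz : z ∈ dbl G T) : z.2 ≠ 0 := by
  intro h
  have h1 := hz.2.1
  rw [h] at h1
  exact hz.2.2 (by simpa using h1.symm)

theorem mem_dbl {G : S → ℂ} {T : Set S} {y : S → ℂ} (hy : ∀ x ∈ T, (y x) ^ 2 = G x)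
    (h0 : ∀ x ∈ T, G x ≠ 0) {x : S} (hx : x ∈ T) : (x, y x) ∈ dbl G T :=
  ⟨hx, hy x hx, h0 x hx⟩

theorem eq_or_eq_neg_of_dbl {G : S → ℂ} {T : Set S} {z : S × ℂ} (hz : z ∈ dbl G T) {w : ℂ}
    (hw : w ^ 2 = G z.1) : z.2 = w ∨ z.2 = -w := by
  have : z.2 ^ 2 = w ^ 2 := by rw [hz.2.1, hw]
  exact sq_eq_sq_iff_eq_or_eq_neg.1 this

theorem continuousOn_of_relclosed {X Y : Type*} [TopologicalSpace X] [TopologicalSpace Y]
    {f : X → Y} {U C D : Set X} (hU : U ⊆ C ∪ D) (hC : IsClosed C) (hD : IsClosed D)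
    (h1 : ContinuousOn f (U ∩ C)) (h2 : ContinuousOn f (U ∩ D)) : ContinuousOn f U := by
  intro z hz
  have hsub : U ⊆ (U ∩ C) ∪ (U ∩ D) := by
    intro w hw
    rcases hU hw with h | h
    · exact Or.inl ⟨hw, h⟩
    · exact Or.inr ⟨hw, h⟩
  refine ContinuousWithinAt.mono (ContinuousWithinAt.union ?_ ?_) hsub
  · by_cases h : z ∈ C
    · exact h1 z ⟨hz, h⟩
    · apply continuousWithinAt_of_notMem_closure
      intro h3
      exact h (hC.closure_subset (closure_mono inter_subset_right h3))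
  · by_cases h : z ∈ D
    · exact h2 z ⟨hz, h⟩
    · apply continuousWithinAt_of_notMem_closure
      intro h3
      exact h (hD.closure_subset (closure_mono inter_subset_right h3))

/-- the odd function on the double cover determined by a function on the base and a section -/
noncomputable def oddExt (y : S → ℂ) (F : S → ℝ) (z : S × ℂ) : ℝ := (z.2 / y z.1).re * F z.1

theorem oddExt_neg (y : S → ℂ) (F : S → ℝ) (z : S × ℂ) :
    oddExt y F (z.1, -z.2) = -oddExt y F z := by
  simp [oddExt, neg_div]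

theorem oddExt_continuousOn {G : S → ℂ} {T : Set S} {y : S → ℂ} {F : S → ℝ}
    (hy : ContinuousOn y T) (hy2 : ∀ x ∈ T, (y x) ^ 2 = G x) (hF : ContinuousOn F T) :
    ContinuousOn (oddExt y F) (dbl G T) := by
  have hm : MapsTo Prod.fst (dbl G T) T := fun z hz => hz.1
  have h1 : ContinuousOn (fun z : S × ℂ => y z.1) (dbl G T) :=
    hy.comp continuous_fst.continuousOn hm
  have h2 : ContinuousOn (fun z : S × ℂ => F z.1) (dbl G T) :=
    hF.comp continuous_fst.continuousOn hm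
  have h3 : ContinuousOn (fun z : S × ℂ => z.2 / y z.1) (dbl G T) := by
    apply continuous_snd.continuousOn.div h1
    intro z hz h
    have := hy2 z.1 hz.1
    rw [h] at this
    exact hz.2.2 (by simpa using this.symm)
  exact (Complex.continuous_re.comp_continuousOn h3).mul h2

theorem oddExt_section {y : S → ℂ} {F : S → ℝ} {x : S} (hx : y x ≠ 0) :
    oddExt y F (x, y x) = F x := by
  simp [oddExt, div_self hx]

theorem oddExt_lift {G : S → ℂ} {T : Set S} {y : S → ℂ} {F : S → ℝ} {θ : S × ℂ → UnitAddCircle}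
    (hodd : ∀ z ∈ dbl G univ, θ (z.1, -z.2) = -θ z)
    (hy2 : ∀ x ∈ T, (y x) ^ 2 = G x)
    (hF : ∀ x ∈ T, ((F x : ℝ) : UnitAddCircle) = θ (x, y x)) {z : S × ℂ} (hz : z ∈ dbl G T) :
    ((oddExt y F z : ℝ) : UnitAddCircle) = θ z := by
  have hy0 : y z.1 ≠ 0 := by
    intro h
    have := hy2 z.1 hz.1
    rw [h] at this
    exact hz.2.2 (by simpa using this.symm)
  rcases eq_or_eq_neg_of_dbl hz (hy2 z.1 hz.1) with h | h
  · have h1 : oddExt y F z = F z.1 := by simp [oddExt, h, div_self hy0]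
    rw [h1, hF z.1 hz.1, ← h]
  · have h1 : oddExt y F z = -F z.1 := by simp [oddExt, h, neg_div, div_self hy0]
    have h2 : z = (z.1, -y z.1) := Prod.ext rfl h
    have h3 : (z.1, y z.1) ∈ dbl G univ := ⟨mem_univ _, hy2 z.1 hz.1, hz.2.2⟩
    rw [h1, AddCircle.coe_neg, hF z.1 hz.1, h2]
    exact (hodd _ h3).symm

/-- Lifting odd classes over a union of two contractible sets meeting in `m` connected pieces:
all but `m` integral conditions vanish. -/
theorem top_lift {N m : ℕ} {G : S → ℂ} {θ : Fin N → S × ℂ → UnitAddCircle}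
    (hθ : ∀ i, ContinuousOn (θ i) (dbl G univ))
    (hodd : ∀ i, ∀ z ∈ dbl G univ, θ i (z.1, -z.2) = -θ i z)
    (hG : Continuous G)
    {T Ta Tb : Set S} {Tj : Fin m → Set S} (hT : T = Ta ∪ Tb) (hG0 : ∀ x ∈ T, G x ≠ 0)
    (hcla : ∃ C, IsClosed C ∧ T ∩ C = Ta) (hclb : ∃ C, IsClosed C ∧ T ∩ C = Tb)
    [ContractibleSpace Ta] [ContractibleSpace Tb] (hTj : ∀ j, Tj j ⊆ Ta ∩ Tb)
    (hTjp : ∀ j, IsPreconnected (Tj j)) (hcov : Ta ∩ Tb ⊆ ⋃ j, Tj j) :
    ∃ (M : Fin m → Fin N → ℤ) (φ : Fin N → S × ℂ → ℝ),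
      (∀ i, ∀ z ∈ dbl G T, ((φ i z : ℝ) : UnitAddCircle) = θ i z) ∧
      (∀ i z, φ i (z.1, -z.2) = -φ i z) ∧
      ∀ a : Fin N → ℤ, (∀ j, ∑ i, a i * M j i = 0) →
        ContinuousOn (fun z => ∑ i, (a i : ℝ) * φ i z) (dbl G T) := by
  classical
  have hTa : Ta ⊆ T := hT ▸ subset_union_left
  have hTb : Tb ⊆ T := hT ▸ subset_union_right
  obtain ⟨ya, hya, hya2⟩ := exists_sqrt_on Ta G hG.continuousOn (fun x hx => hG0 x (hTa hx))
  obtain ⟨yb, hyb, hyb2⟩ := exists_sqrt_on Tb G hG.continuousOn (fun x hx => hG0 x (hTb hx))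
  have hsec : ∀ {A : Set S} {y : S → ℂ}, A ⊆ T → ContinuousOn y A → (∀ x ∈ A, y x ^ 2 = G x) →
      ∀ i, ContinuousOn (fun x => θ i (x, y x)) A := by
    intro A y hA hy hy2 i
    exact (hθ i).comp (continuousOn_id.prodMk hy)
      (fun x hx => ⟨mem_univ _, hy2 x hx, hG0 x (hA hx)⟩)
  choose Fa hFa hFa2 using fun i => exists_real_lift_on Ta _ (hsec hTa hya hya2 i)
  choose Fb hFb hFb2 using fun i => exists_real_lift_on Tb _ (hsec hTb hyb hyb2 i)
  have hya0 : ∀ x ∈ Ta, ya x ≠ 0 := by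
    intro x hx h
    have := hya2 x hx
    rw [h] at this
    exact hG0 x (hTa hx) (by simpa using this.symm)
  have hyb0 : ∀ x ∈ Tb, yb x ≠ 0 := by
    intro x hx h
    have := hyb2 x hx
    rw [h] at this
    exact hG0 x (hTb hx) (by simpa using this.symm)
  -- comparison on the pieces of the intersection
  have hcomp : ∀ j, ∃ Mj : Fin N → ℤ, ∀ i, ∀ z : S × ℂ, z.1 ∈ Tj j →
      oddExt yb (Fb i) z - oddExt ya (Fa i) z = (z.2 / yb z.1).re * Mj i := by
    intro j
    have hja : Tj j ⊆ Ta := fun x hx => (hTj j hx).1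
    have hjb : Tj j ⊆ Tb := fun x hx => (hTj j hx).2
    have hsq : EqOn (ya ^ 2) (yb ^ 2) (Tj j) := by
      intro x hx
      simp only [Pi.pow_apply]
      rw [hya2 x (hja hx), hyb2 x (hjb hx)]
    rcases (hTjp j).eq_or_eq_neg_of_sq_eq (hya.mono hja) (hyb.mono hjb) hsq
      (fun {x} hx => hyb0 x (hjb hx)) with h | h
    · have : ∀ i, ∃ n : ℤ, ∀ x ∈ Tj j, Fb i x - Fa i x = n := by
        intro i
        apply exists_int_diff (hTjp j) ((hFb i).mono hjb) ((hFa i).mono hja)
        intro x hx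
        rw [hFb2 i x (hjb hx), hFa2 i x (hja hx), h hx]
      choose n hn using this
      refine ⟨n, fun i z hz => ?_⟩
      simp only [oddExt]
      rw [h hz, ← hn i z.1 hz]
      ring
    · have : ∀ i, ∃ n : ℤ, ∀ x ∈ Tj j, Fb i x - (-Fa i x) = n := by
        intro i
        apply exists_int_diff (hTjp j) ((hFb i).mono hjb) ((hFa i).mono hja).neg
        intro x hx
        have h3 : (x, ya x) ∈ dbl G univ :=
          ⟨mem_univ _, hya2 x (hja hx), hG0 x (hTa (hja hx))⟩
        rw [hFb2 i x (hjb hx), Pi.neg_apply, AddCircle.coe_neg, hFa2 i x (hja hx),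
          ← hodd i _ h3, h hx]
        simp
      choose n hn using this
      refine ⟨n, fun i z hz => ?_⟩
      simp only [oddExt]
      rw [h hz, ← hn i z.1 hz]
      simp only [Pi.neg_apply, div_neg, Complex.neg_re]
      ring
  choose M hM using hcomp
  let φ : Fin N → S × ℂ → ℝ := fun i z =>
    if z.1 ∈ Ta then oddExt ya (Fa i) z else oddExt yb (Fb i) z
  refine ⟨M, φ, ?_, ?_, ?_⟩
  · intro i z hz
    by_cases h : z.1 ∈ Ta
    · simp only [φ, if_pos h]
      exact oddExt_lift (hodd i) hya2 (hFa2 i) ⟨h, hz.2⟩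
    · have h' : z.1 ∈ Tb := by
        have := hz.1
        rw [hT] at this
        exact this.resolve_left h
      simp only [φ, if_neg h]
      exact oddExt_lift (hodd i) hyb2 (hFb2 i) ⟨h', hz.2⟩
  · intro i z
    by_cases h : z.1 ∈ Ta
    · simp only [φ, if_pos h]
      exact oddExt_neg _ _ _
    · simp only [φ, if_neg h]
      exact oddExt_neg _ _ _
  · intro a ha
    obtain ⟨Ca, hCa, hCa2⟩ := hcla
    obtain ⟨Cb, hCb, hCb2⟩ := hclb
    have hA : EqOn (fun z => ∑ i, (a i : ℝ) * φ i z)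
        (fun z => ∑ i, (a i : ℝ) * oddExt ya (Fa i) z) (dbl G Ta) := by
      intro z hz
      simp only [φ, if_pos hz.1]
    have hB : EqOn (fun z => ∑ i, (a i : ℝ) * φ i z)
        (fun z => ∑ i, (a i : ℝ) * oddExt yb (Fb i) z) (dbl G Tb) := by
      intro z hz
      by_cases h : z.1 ∈ Ta
      · simp only [φ, if_pos h]
        obtain ⟨j, hj⟩ := mem_iUnion.1 (hcov ⟨h, hz.1⟩)
        have h1 : ∑ i, (a i : ℝ) * oddExt yb (Fb i) z - ∑ i, (a i : ℝ) * oddExt ya (Fa i) z
            = 0 := by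
          rw [← Finset.sum_sub_distrib]
          have h2 : ∀ i ∈ Finset.univ, (a i : ℝ) * oddExt yb (Fb i) z
              - (a i : ℝ) * oddExt ya (Fa i) z
              = (z.2 / yb z.1).re * ((a i * M j i : ℤ) : ℝ) := by
            intro i _
            rw [← mul_sub, hM j i z hj]
            push_cast
            ring
          rw [Finset.sum_congr rfl h2, ← Finset.mul_sum, ← Int.cast_sum, ha j]
          simp
        linarith
      · simp only [φ, if_neg h]
    have hcA : ContinuousOn (fun z => ∑ i, (a i : ℝ) * φ i z) (dbl G Ta) := by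
      refine ContinuousOn.congr ?_ hA
      exact continuousOn_finsetSum _ fun i _ =>
        continuousOn_const.mul (oddExt_continuousOn hya hya2 (hFa i))
    have hcB : ContinuousOn (fun z => ∑ i, (a i : ℝ) * φ i z) (dbl G Tb) := by
      refine ContinuousOn.congr ?_ hB
      exact continuousOn_finsetSum _ fun i _ =>
        continuousOn_const.mul (oddExt_continuousOn hyb hyb2 (hFb i))
    apply continuousOn_of_relclosed (C := Prod.fst ⁻¹' Ca) (D := Prod.fst ⁻¹' Cb)
    · intro z hz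
      have h1 := hz.1
      rw [hT] at h1
      rcases h1 with h | h
      · rw [← hCa2] at h
        exact Or.inl h.2
      · rw [← hCb2] at h
        exact Or.inr h.2
    · exact hCa.preimage continuous_fst
    · exact hCb.preimage continuous_fst
    · refine hcA.mono ?_
      rintro z ⟨h1, h2⟩
      exact ⟨hCa2 ▸ ⟨h1.1, h2⟩, h1.2⟩
    · refine hcB.mono ?_
      rintro z ⟨h1, h2⟩
      exact ⟨hCb2 ▸ ⟨h1.1, h2⟩, h1.2⟩

end Dbl

end Pool.Agent.Lib.MP_55d555_gt
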