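import Mathlib
import Pool.Agent.Lib.MP_55d555_gt.Config
import Pool.Agent.Lib.MP_55d555_gt.Top
import Pool.Agent.Lib.MP_55d555_gt.Mg.G001

set_option autoImplicit false
set_option linter.unusedSectionVars false

/-!
Analysis in the column over a chart of the surface.
-/

namespace Pool.Agent.Lib.MP_55d555_gt

open Set Topology

namespace Config

variable {S F P : Type*} [TopologicalSpace S] [TopologicalSpace F] [TopologicalSpace P]

/-- the column map of a chart -/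
def col (c : Config S F P) (e : ℝ × ℝ → F) (w : (ℝ × ℝ) × ℝ) : S := c.h (e w.1, w.2)

theorem col_open (c : Config S F P) {e : ℝ × ℝ → F} (he : IsOpenEmbedding e) :
    IsOpenEmbedding (c.col e) :=
  c.hop.comp (he.prodMap IsOpenEmbedding.id)

/-- a chart in which the projection is one strand over the horizontal axis -/
structure RegChart (c : Config S F P) where
  e : ℝ × ℝ → F
  a : ℝ → P
  he : IsOpenEmbedding e
  ha : Continuous a
  hpa : ∀ u, c.p (a u) = e (u, 0)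
  hcov : ∀ τ, c.p τ ∈ range e → ∃ u, τ = a u

/-- a chart in which the projection is two strands over the two axes, the horizontal one being
above height `s0` and the vertical one below -/
structure CrossChart (c : Config S F P) where
  e : ℝ × ℝ → F
  a : ℝ → P
  b : ℝ → P
  he : IsOpenEmbedding e
  ha : Continuous a
  hb : Continuous b
  hpa : ∀ u, c.p (a u) = e (u, 0)
  hpb : ∀ v, c.p (b v) = e (0, v)
  hcov : ∀ τ, c.p τ ∈ range e → (∃ u, τ = a u) ∨ ∃ v, τ = b v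
  s0 : ℝ
  has : ∀ u, s0 < c.t (a u)
  hbs : ∀ v, c.t (b v) < s0

section Reg

variable {c : Config S F P} (r : RegChart c)

/-- the height of the strand -/
def RegChart.ta (u : ℝ) : ℝ := c.t (r.a u)

theorem RegChart.continuous_ta : Continuous r.ta := c.ht.comp r.ha

theorem RegChart.mem_D {q : ℝ × ℝ} : r.e q ∈ range c.p ↔ q.2 = 0 := by
  constructor
  · rintro ⟨τ, hτ⟩
    obtain ⟨u, rfl⟩ := r.hcov τ ⟨q, hτ.symm⟩
    rw [r.hpa] at hτ
    rw [← r.he.injective hτ]
  · intro h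
    exact ⟨r.a q.1, by rw [r.hpa, ← h]⟩

theorem RegChart.mem_top {w : (ℝ × ℝ) × ℝ} : c.col r.e w ∈ c.top ↔ w ∈ rT1 r.ta := by
  obtain ⟨⟨u, v⟩, s⟩ := w
  unfold col
  rw [mem_top_h]
  constructor
  · intro h hv
    simp only at hv
    subst hv
    exact h (r.a u) (r.hpa u)
  · intro h τ hτ
    obtain ⟨u', rfl⟩ := r.hcov τ ⟨_, hτ.symm⟩
    rw [r.hpa] at hτ
    have := r.he.injective hτ
    simp only [Prod.mk.injEq] at this
    obtain ⟨rfl, h2⟩ := this
    exact h h2.symm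

theorem RegChart.mem_both {w : (ℝ × ℝ) × ℝ} (hw : w.1.2 ≠ 0) :
    c.col r.e w ∈ c.top ∧ c.col r.e w ∈ c.flip.top := by
  rw [top_inter_flip_top]
  exact ⟨r.e w.1, w.2, rfl, fun h => hw (r.mem_D.1 h)⟩

end Reg

section Cross

variable {c : Config S F P} (r : CrossChart c)

/-- the height of the upper strand -/
def CrossChart.ta (u : ℝ) : ℝ := c.t (r.a u)

/-- the height of the lower strand -/
def CrossChart.tb (v : ℝ) : ℝ := c.t (r.b v)

theorem CrossChart.continuous_ta : Continuous r.ta := c.ht.comp r.ha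

theorem CrossChart.continuous_tb : Continuous r.tb := c.ht.comp r.hb

theorem CrossChart.mem_D {q : ℝ × ℝ} : r.e q ∈ range c.p ↔ q.1 = 0 ∨ q.2 = 0 := by
  constructor
  · rintro ⟨τ, hτ⟩
    rcases r.hcov τ ⟨q, hτ.symm⟩ with ⟨u, rfl⟩ | ⟨v, rfl⟩
    · rw [r.hpa] at hτ
      right
      rw [← r.he.injective hτ]
    · rw [r.hpb] at hτ
      left
      rw [← r.he.injective hτ]
  · rintro (h | h)
    · exact ⟨r.b q.2, by rw [r.hpb, ← h]⟩
    · exact ⟨r.a q.1, by rw [r.hpa, ← h]⟩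

theorem CrossChart.mem_top {w : (ℝ × ℝ) × ℝ} :
    c.col r.e w ∈ c.top ↔ w ∈ rT2 r.ta r.tb := by
  obtain ⟨⟨u, v⟩, s⟩ := w
  unfold col
  rw [mem_top_h]
  constructor
  · intro h
    refine ⟨fun hv => ?_, fun hv => ?_⟩
    · simp only at hv
      subst hv
      exact h (r.a u) (r.hpa u)
    · simp only at hv
      subst hv
      exact h (r.b v) (r.hpb v)
  · intro h τ hτ
    rcases r.hcov τ ⟨_, hτ.symm⟩ with ⟨u', rfl⟩ | ⟨v', rfl⟩
    · rw [r.hpa] at hτ
      have := r.he.injective hτ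
      simp only [Prod.mk.injEq] at this
      obtain ⟨rfl, h2⟩ := this
      exact h.1 h2.symm
    · rw [r.hpb] at hτ
      have := r.he.injective hτ
      simp only [Prod.mk.injEq] at this
      obtain ⟨h2, rfl⟩ := this
      exact h.2 h2.symm

theorem CrossChart.mem_bot {w : (ℝ × ℝ) × ℝ} :
    c.col r.e w ∈ c.flip.top ↔ w ∈ rB2 r.ta r.tb := by
  obtain ⟨⟨u, v⟩, s⟩ := w
  unfold col
  rw [mem_flip_top_h]
  constructor
  · intro h
    refine ⟨fun hv => ?_, fun hv => ?_⟩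
    · simp only at hv
      subst hv
      exact h (r.a u) (r.hpa u)
    · simp only at hv
      subst hv
      exact h (r.b v) (r.hpb v)
  · intro h τ hτ
    rcases r.hcov τ ⟨_, hτ.symm⟩ with ⟨u', rfl⟩ | ⟨v', rfl⟩
    · rw [r.hpa] at hτ
      have := r.he.injective hτ
      simp only [Prod.mk.injEq] at this
      obtain ⟨rfl, h2⟩ := this
      exact h.1 h2.symm
    · rw [r.hpb] at hτ
      have := r.he.injective hτ
      simp only [Prod.mk.injEq] at this
      obtain ⟨h2, rfl⟩ := this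
      exact h.2 h2.symm

theorem CrossChart.mem_link {w : (ℝ × ℝ) × ℝ} :
    c.col r.e w ∈ c.link ↔ (w.1.2 = 0 ∧ w.2 = r.ta w.1.1) ∨ (w.1.1 = 0 ∧ w.2 = r.tb w.1.2) := by
  obtain ⟨⟨u, v⟩, s⟩ := w
  unfold col
  constructor
  · rintro ⟨τ, hτ⟩
    obtain ⟨h1, h2⟩ := c.h_pair_inj hτ
    rcases r.hcov τ ⟨_, h1⟩ with ⟨u', rfl⟩ | ⟨v', rfl⟩
    · rw [r.hpa] at h1
      have := r.he.injective h1
      simp only [Prod.mk.injEq] at this
      obtain ⟨rfl, h3⟩ := this
      exact Or.inl ⟨h3, h2⟩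
    · rw [r.hpb] at h1
      have := r.he.injective h1
      simp only [Prod.mk.injEq] at this
      obtain ⟨h3, rfl⟩ := this
      exact Or.inr ⟨h3, h2⟩
  · rintro (⟨h1, h2⟩ | ⟨h1, h2⟩)
    · simp only at h1 h2
      subst h1 h2
      exact ⟨r.a u, by rw [r.hpa]; rfl⟩
    · simp only at h1 h2
      subst h1 h2
      exact ⟨r.b v, by rw [r.hpb]; rfl⟩

end Cross

/-- an odd continuous real lift of `θ` over the part of the double cover over `T` -/
structure OddLift (G : S → ℂ) (θ : S × ℂ → UnitAddCircle) (T : Set S) (f : S × ℂ → ℝ) :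
    Prop where
  cont : ContinuousOn f (dbl G T)
  odd : ∀ z, f (z.1, -z.2) = -f z
  lift : ∀ z ∈ dbl G T, ((f z : ℝ) : UnitAddCircle) = θ z

theorem OddLift.comp_continuousOn {G : S → ℂ} {θ : S × ℂ → UnitAddCircle} {T : Set S}
    {f : S × ℂ → ℝ} (h : OddLift G θ T f) {A : Set S} (hA : A ⊆ T) {y : S → ℂ}
    (hy : ContinuousOn y A) (hy2 : ∀ x ∈ A, y x ^ 2 = G x) (h0 : ∀ x ∈ A, G x ≠ 0) :
    ContinuousOn (fun x => f (x, y x)) A :=
  h.cont.comp (continuousOn_id.prodMk hy) (fun x hx => ⟨hA hx, hy2 x hx, h0 x hx⟩)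

section RegData

variable {c : Config S F P} (r : RegChart c) {G : S → ℂ} {θ : S × ℂ → UnitAddCircle}
  {fT fB : S × ℂ → ℝ}

/-- In the column over a regular chart there is a square root over the part above the strand, and
relative to it the difference of the two lifts is constant on each side. -/
theorem RegChart.exists_data (hG : Continuous G) (hlink : ∀ x, G x = 0 → x ∈ c.link)
    (hT : OddLift G θ c.top fT) (hB : OddLift G θ c.flip.top fB) :
    ∃ (y : S → ℂ) (k1 k2 : ℤ), ContinuousOn y (c.col r.e '' rT1 r.ta) ∧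
      (∀ x ∈ c.col r.e '' rT1 r.ta, y x ^ 2 = G x) ∧
      (∀ w, 0 < w.1.2 → fT (c.col r.e w, y (c.col r.e w)) - fB (c.col r.e w, y (c.col r.e w))
        = k1) ∧
      (∀ w, w.1.2 < 0 → fT (c.col r.e w, y (c.col r.e w)) - fB (c.col r.e w, y (c.col r.e w))
        = k2) := by
  have hemb := c.col_open r.he
  have := contractible_univ_plane
  have hcon : ContractibleSpace (c.col r.e '' rT1 r.ta) :=
    (vs_T1 r.continuous_ta).contractible_image hemb.isEmbedding
  have hsub : c.col r.e '' rT1 r.ta ⊆ c.top := by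
    rintro _ ⟨w, hw, rfl⟩
    exact r.mem_top.2 hw
  have hG0 : ∀ x ∈ c.top, G x ≠ 0 := fun x hx h => c.top_disjoint_link hx (hlink x h)
  obtain ⟨y, hy, hy2⟩ := exists_sqrt_on (c.col r.e '' rT1 r.ta) G hG.continuousOn
    (fun x hx => hG0 x (hsub hx))
  have key : ∀ Q : Set (ℝ × ℝ), Convex ℝ Q → (∀ q ∈ Q, q.2 ≠ 0) →
      ∃ k : ℤ, ∀ w : (ℝ × ℝ) × ℝ, w.1 ∈ Q →
        fT (c.col r.e w, y (c.col r.e w)) - fB (c.col r.e w, y (c.col r.e w)) = k := by
    intro Q hQ hQ0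
    have hpre : IsPreconnected (c.col r.e '' {w | w.1 ∈ Q}) :=
      (preconnected_column hQ).image _ hemb.continuous.continuousOn
    have h1 : c.col r.e '' {w | w.1 ∈ Q} ⊆ c.top := by
      rintro _ ⟨w, hw, rfl⟩
      exact (r.mem_both (hQ0 _ hw)).1
    have h2 : c.col r.e '' {w | w.1 ∈ Q} ⊆ c.flip.top := by
      rintro _ ⟨w, hw, rfl⟩
      exact (r.mem_both (hQ0 _ hw)).2
    have h3 : c.col r.e '' {w | w.1 ∈ Q} ⊆ c.col r.e '' rT1 r.ta := by
      rintro _ ⟨w, hw, rfl⟩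
      exact ⟨w, fun h => absurd h (hQ0 _ hw), rfl⟩
    obtain ⟨k, hk⟩ := exists_int_diff hpre
      (hT.comp_continuousOn h1 (hy.mono h3) (fun x hx => hy2 x (h3 hx))
        (fun x hx => hG0 x (h1 hx)))
      (hB.comp_continuousOn h2 (hy.mono h3) (fun x hx => hy2 x (h3 hx))
        (fun x hx => hG0 x (h1 hx)))
      (fun x hx => by
        rw [hT.lift _ ⟨h1 hx, hy2 x (h3 hx), hG0 x (h1 hx)⟩,
          hB.lift _ ⟨h2 hx, hy2 x (h3 hx), hG0 x (h1 hx)⟩])
    exact ⟨k, fun w hw => hk _ ⟨w, hw, rfl⟩⟩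
  obtain ⟨k1, hk1⟩ := key hUp convex_hUp (fun q hq => ne_of_gt hq)
  obtain ⟨k2, hk2⟩ := key hDn convex_hDn (fun q hq => ne_of_lt hq)
  exact ⟨y, k1, k2, hy, hy2, hk1, hk2⟩

end RegData

section CrossData

variable {c : Config S F P} (r : CrossChart c) {G : S → ℂ} {θ : S × ℂ → UnitAddCircle}
  {fT fB : S × ℂ → ℝ}

/-- Data on the region between the two strands at a crossing. -/
structure CrossMid (c : Config S F P) (r : CrossChart c) (G : S → ℂ)
    (θ : S × ℂ → UnitAddCircle) (fT fB : S × ℂ → ℝ) (yN : S → ℂ) (FN : S → ℝ)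
    (aU aD bR bL : ℤ) : Prop where
  ycont : ContinuousOn yN (c.col r.e '' rN r.ta r.tb)
  ysq : ∀ x ∈ c.col r.e '' rN r.ta r.tb, yN x ^ 2 = G x
  Fcont : ContinuousOn FN (c.col r.e '' rN r.ta r.tb)
  Flift : ∀ x ∈ c.col r.e '' rN r.ta r.tb, ((FN x : ℝ) : UnitAddCircle) = θ (x, yN x)
  up : ∀ w ∈ rT2 r.ta r.tb ∩ rN r.ta r.tb, 0 < w.1.2 →
    fT (c.col r.e w, yN (c.col r.e w)) - FN (c.col r.e w) = aU
  dn : ∀ w ∈ rT2 r.ta r.tb ∩ rN r.ta r.tb, w.1.2 < 0 →
    fT (c.col r.e w, yN (c.col r.e w)) - FN (c.col r.e w) = aD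
  rt : ∀ w ∈ rB2 r.ta r.tb ∩ rN r.ta r.tb, 0 < w.1.1 →
    fB (c.col r.e w, yN (c.col r.e w)) - FN (c.col r.e w) = bR
  lt : ∀ w ∈ rB2 r.ta r.tb ∩ rN r.ta r.tb, w.1.1 < 0 →
    fB (c.col r.e w, yN (c.col r.e w)) - FN (c.col r.e w) = bL

theorem CrossChart.rN_not_link {w : (ℝ × ℝ) × ℝ} (hw : w ∈ rN r.ta r.tb) :
    c.col r.e w ∉ c.link := by
  rw [r.mem_link]
  rintro (⟨h1, h2⟩ | ⟨h1, h2⟩)
  · have := hw.1 h1
    linarith
  · have := hw.2 h1
    linarith

theorem CrossChart.exists_mid (hG : Continuous G) (hlink : ∀ x, G x = 0 → x ∈ c.link)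
    (hθ : ContinuousOn θ (dbl G univ))
    (hT : OddLift G θ c.top fT) (hB : OddLift G θ c.flip.top fB) :
    ∃ yN FN aU aD bR bL, CrossMid c r G θ fT fB yN FN aU aD bR bL := by
  have hemb := c.col_open r.he
  have := contractible_univ_plane
  have hcon : ContractibleSpace (c.col r.e '' rN r.ta r.tb) :=
    (vs_N (s0 := r.s0) r.has r.hbs).contractible_image hemb.isEmbedding
  have hG0 : ∀ x ∈ c.col r.e '' rN r.ta r.tb, G x ≠ 0 := by
    rintro _ ⟨w, hw, rfl⟩ h
    exact r.rN_not_link hw (hlink _ h)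
  obtain ⟨yN, hy, hy2⟩ := exists_sqrt_on (c.col r.e '' rN r.ta r.tb) G hG.continuousOn hG0
  have hsec : ContinuousOn (fun x => θ (x, yN x)) (c.col r.e '' rN r.ta r.tb) :=
    hθ.comp (continuousOn_id.prodMk hy) (fun x hx => ⟨mem_univ _, hy2 x hx, hG0 x hx⟩)
  obtain ⟨FN, hF, hF2⟩ := exists_real_lift_on _ _ hsec
  have key : ∀ {T : Set S} {f : S × ℂ → ℝ} (A : Set ((ℝ × ℝ) × ℝ)), OddLift G θ T f →
      IsPreconnected (c.col r.e '' A) → A ⊆ rN r.ta r.tb → c.col r.e '' A ⊆ T →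
      ∃ k : ℤ, ∀ w ∈ A, f (c.col r.e w, yN (c.col r.e w)) - FN (c.col r.e w) = k := by
    intro T f A hf hpre hA hAT
    have h3 : c.col r.e '' A ⊆ c.col r.e '' rN r.ta r.tb := image_mono hA
    obtain ⟨k, hk⟩ := exists_int_diff hpre
      (hf.comp_continuousOn hAT (hy.mono h3) (fun x hx => hy2 x (h3 hx))
        (fun x hx => hG0 x (h3 hx))) (hF.mono h3)
      (fun x hx => by
        rw [hf.lift _ ⟨hAT hx, hy2 x (h3 hx), hG0 x (h3 hx)⟩, hF2 x (h3 hx)])
    exact ⟨k, fun w hw => hk _ ⟨w, hw, rfl⟩⟩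
  have := pc_hUp
  have := pc_hDn
  have := pc_hRt
  have := pc_hLt
  have hTsub : ∀ Q : Set (ℝ × ℝ), c.col r.e '' ((rT2 r.ta r.tb ∩ rN r.ta r.tb) ∩ {w | w.1 ∈ Q})
      ⊆ c.top := by
    rintro Q _ ⟨w, hw, rfl⟩
    exact r.mem_top.2 hw.1.1
  have hBsub : ∀ Q : Set (ℝ × ℝ), c.col r.e '' ((rB2 r.ta r.tb ∩ rN r.ta r.tb) ∩ {w | w.1 ∈ Q})
      ⊆ c.flip.top := by
    rintro Q _ ⟨w, hw, rfl⟩
    exact r.mem_bot.2 hw.1.1
  obtain ⟨aU, haU⟩ := key _ hT ((vs_TN (ta := r.ta) (Q := hUp) (fun q hq => ne_of_gt hq)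
    r.continuous_tb).isPreconnected_image hemb.continuous)
    (inter_subset_left.trans inter_subset_right) (hTsub _)
  obtain ⟨aD, haD⟩ := key _ hT ((vs_TN (ta := r.ta) (Q := hDn) (fun q hq => ne_of_lt hq)
    r.continuous_tb).isPreconnected_image hemb.continuous)
    (inter_subset_left.trans inter_subset_right) (hTsub _)
  obtain ⟨bR, hbR⟩ := key _ hB ((vs_BN (tb := r.tb) (Q := hRt) (fun q hq => ne_of_gt hq)
    r.continuous_ta).isPreconnected_image hemb.continuous)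
    (inter_subset_left.trans inter_subset_right) (hBsub _)
  obtain ⟨bL, hbL⟩ := key _ hB ((vs_BN (tb := r.tb) (Q := hLt) (fun q hq => ne_of_lt hq)
    r.continuous_ta).isPreconnected_image hemb.continuous)
    (inter_subset_left.trans inter_subset_right) (hBsub _)
  exact ⟨yN, FN, aU, aD, bR, bL, hy, hy2, hF, hF2, fun w hw h => haU w ⟨hw, h⟩,
    fun w hw h => haD w ⟨hw, h⟩, fun w hw h => hbR w ⟨hw, h⟩, fun w hw h => hbL w ⟨hw, h⟩⟩

/-- A square root above both strands at a crossing, and its comparison with the square root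
in the middle region. -/
theorem CrossChart.exists_up (hG : Continuous G) (hlink : ∀ x, G x = 0 ↔ x ∈ c.link)
    (htop : IsOpen c.top)
    (hns : ∀ x ∈ c.link, ∀ U : Set S, IsOpen U → x ∈ U → ¬ ∃ y : S → ℂ,
      ContinuousOn y (U \ c.link) ∧ ∀ z ∈ U \ c.link, y z ^ 2 = G z)
    {yN : S → ℂ} (hyN : ContinuousOn yN (c.col r.e '' rN r.ta r.tb))
    (hyN2 : ∀ x ∈ c.col r.e '' rN r.ta r.tb, yN x ^ 2 = G x) :
    ∃ (yT : S → ℂ) (η : ℝ), (η = 1 ∨ η = -1) ∧ ContinuousOn yT (c.col r.e '' rT2 r.ta r.tb) ∧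
      (∀ x ∈ c.col r.e '' rT2 r.ta r.tb, yT x ^ 2 = G x) ∧
      (∀ w ∈ rT2 r.ta r.tb ∩ rN r.ta r.tb, 0 < w.1.2 →
        yT (c.col r.e w) = η * yN (c.col r.e w)) ∧
      (∀ w ∈ rT2 r.ta r.tb ∩ rN r.ta r.tb, w.1.2 < 0 →
        yT (c.col r.e w) = -η * yN (c.col r.e w)) := by
  classical
  have hemb := c.col_open r.he
  have := contractible_univ_plane
  have hcon : ContractibleSpace (c.col r.e '' rT2 r.ta r.tb) :=
    (vs_T2 r.continuous_ta r.continuous_tb).contractible_image hemb.isEmbedding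
  have hsub : c.col r.e '' rT2 r.ta r.tb ⊆ c.top := by
    rintro _ ⟨w, hw, rfl⟩
    exact r.mem_top.2 hw
  have hG0 : ∀ x ∈ c.top, G x ≠ 0 := fun x hx h => c.top_disjoint_link hx ((hlink x).1 h)
  have hGN : ∀ x ∈ c.col r.e '' rN r.ta r.tb, G x ≠ 0 := by
    rintro _ ⟨w, hw, rfl⟩ h
    exact r.rN_not_link hw ((hlink _).1 h)
  have hyN0 : ∀ x ∈ c.col r.e '' rN r.ta r.tb, yN x ≠ 0 := by
    intro x hx h
    have := hyN2 x hx
    rw [h] at this
    exact hGN x hx (by simpa using this.symm)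
  obtain ⟨yT, hy, hy2⟩ := exists_sqrt_on (c.col r.e '' rT2 r.ta r.tb) G hG.continuousOn
    (fun x hx => hG0 x (hsub hx))
  have := pc_hUp
  have := pc_hDn
  have key : ∀ Q : Set (ℝ × ℝ), PathConnectedSpace Q → (∀ q ∈ Q, q.2 ≠ 0) →
      ∃ η : ℝ, (η = 1 ∨ η = -1) ∧ ∀ w ∈ (rT2 r.ta r.tb ∩ rN r.ta r.tb) ∩ {w | w.1 ∈ Q},
        yT (c.col r.e w) = η * yN (c.col r.e w) := by
    intro Q hQ hQ0
    have hpre := (vs_TN (ta := r.ta) (Q := Q) hQ0 r.continuous_tb).isPreconnected_image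
      hemb.continuous
    have h1 : c.col r.e '' ((rT2 r.ta r.tb ∩ rN r.ta r.tb) ∩ {w | w.1 ∈ Q}) ⊆
        c.col r.e '' rT2 r.ta r.tb := image_mono (inter_subset_left.trans inter_subset_left)
    have h2 : c.col r.e '' ((rT2 r.ta r.tb ∩ rN r.ta r.tb) ∩ {w | w.1 ∈ Q}) ⊆
        c.col r.e '' rN r.ta r.tb := image_mono (inter_subset_left.trans inter_subset_right)
    rcases hpre.eq_or_eq_neg_of_sq_eq (hy.mono h1) (hyN.mono h2)
      (fun x hx => by
        simp only [Pi.pow_apply]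
        rw [hy2 x (h1 hx), hyN2 x (h2 hx)]) (fun {x} hx => hyN0 x (h2 hx)) with h | h
    · refine ⟨1, Or.inl rfl, fun w hw => ?_⟩
      rw [h ⟨w, hw, rfl⟩]
      simp
    · refine ⟨-1, Or.inr rfl, fun w hw => ?_⟩
      rw [h ⟨w, hw, rfl⟩]
      simp
  obtain ⟨η1, hη1, h1⟩ := key hUp pc_hUp (fun q hq => ne_of_gt hq)
  obtain ⟨η2, hη2, h2⟩ := key hDn pc_hDn (fun q hq => ne_of_lt hq)
  have hne : η2 = -η1 := by
    by_contra hcon'
    have heq : η2 = η1 := by
      rcases hη1 with h | h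
      · rcases hη2 with h' | h'
        · rw [h, h']
        · exact absurd (by rw [h, h']) hcon'
      · rcases hη2 with h' | h'
        · exact absurd (by rw [h, h']; norm_num) hcon'
        · rw [h, h']
    subst heq
    -- glue the two square roots around the upper strand
    let z0 : (ℝ × ℝ) × ℝ := ((0, 0), r.ta 0)
    have hz0 : c.col r.e z0 ∈ c.link := r.mem_link.2 (Or.inl ⟨rfl, rfl⟩)
    let U : Set S := c.col r.e '' {w | r.s0 < w.2}
    have hU : IsOpen U := by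
      apply hemb.isOpenMap
      exact isOpen_lt continuous_const continuous_snd
    have hzU : c.col r.e z0 ∈ U := ⟨z0, r.has 0, rfl⟩
    apply hns _ hz0 U hU hzU
    have hNopen : IsOpen (c.col r.e '' rN r.ta r.tb) :=
      hemb.isOpenMap _ (isOpen_rN r.continuous_ta r.continuous_tb)
    have hTopen : IsOpen (c.col r.e '' rT2 r.ta r.tb) := by
      have : c.col r.e '' rT2 r.ta r.tb = c.top ∩ range (c.col r.e) := by
        ext x
        constructor
        · rintro ⟨w, hw, rfl⟩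
          exact ⟨r.mem_top.2 hw, w, rfl⟩
        · rintro ⟨h3, w, rfl⟩
          exact ⟨w, r.mem_top.1 h3, rfl⟩
      rw [this]
      exact htop.inter hemb.isOpen_range
    let y : S → ℂ := fun x => if x ∈ c.col r.e '' rT2 r.ta r.tb then yT x else η2 * yN x
    have hyT' : EqOn y yT (c.col r.e '' rT2 r.ta r.tb) := fun x hx => by simp only [y, if_pos hx]
    have hyN' : EqOn y (fun x => η2 * yN x) (c.col r.e '' rN r.ta r.tb) := by
      rintro _ ⟨w, hw, rfl⟩
      by_cases hx : c.col r.e w ∈ c.col r.e '' rT2 r.ta r.tb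
      · simp only [y, if_pos hx]
        obtain ⟨w', hw', he⟩ := hx
        have := hemb.injective he
        subst this
        have hv : w'.1.2 ≠ 0 := by
          intro hv
          have e1 := hw'.1 hv
          have e2 := hw.1 hv
          linarith
        rcases lt_or_gt_of_ne hv with h | h
        · exact h2 _ ⟨⟨hw', hw⟩, h⟩
        · exact h1 _ ⟨⟨hw', hw⟩, h⟩
      · simp only [y, if_neg hx]
    have hcovU : U \ c.link ⊆ (c.col r.e '' rT2 r.ta r.tb) ∪ (c.col r.e '' rN r.ta r.tb) := by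
      rintro _ ⟨⟨w, hw, rfl⟩, hwl⟩
      simp only [mem_ofPred_eq] at hw
      have hb : w.1.1 = 0 → r.tb w.1.2 < w.2 := fun _ => lt_trans (r.hbs _) hw
      rw [r.mem_link] at hwl
      push Not at hwl
      by_cases hv : w.1.2 = 0
      · rcases lt_or_gt_of_ne (hwl.1 hv) with h | h
        · exact Or.inr ⟨w, ⟨fun _ => h, hb⟩, rfl⟩
        · exact Or.inl ⟨w, ⟨fun _ => h, hb⟩, rfl⟩
      · exact Or.inl ⟨w, ⟨fun h => absurd h hv, hb⟩, rfl⟩
    have hη : ((η2 : ℝ) : ℂ) ^ 2 = 1 := by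
      rcases hη2 with h | h <;> rw [h] <;> norm_num
    refine ⟨y, ?_, ?_⟩
    · intro x hx
      rcases hcovU hx with h | h
      · have : ContinuousAt y x :=
          ((hy.congr hyT').continuousAt (hTopen.mem_nhds h))
        exact this.continuousWithinAt
      · have : ContinuousAt y x :=
          (((continuousOn_const.mul hyN).congr hyN').continuousAt (hNopen.mem_nhds h))
        exact this.continuousWithinAt
    · intro x hx
      rcases hcovU hx with h | h
      · rw [hyT' h, hy2 x h]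
      · rw [hyN' h]
        simp only
        rw [mul_pow, hη, one_mul, hyN2 x h]
  refine ⟨yT, η1, hη1, hy, hy2, fun w hw h => h1 w ⟨hw, h⟩, fun w hw h => ?_⟩
  have := h2 w ⟨hw, h⟩
  rw [hne] at this
  rw [this]
  push_cast
  ring

end CrossData

end Config

end Pool.Agent.Lib.MP_55d555_gt
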