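import Mathlib
import Pool.Agent.Lib.MP_55d555_gt.Local

set_option autoImplicit false
set_option linter.unusedSectionVars false

/-!
Diagrams on the surface, their charts, and one-sided neighbourhoods of parameters.
-/

namespace Pool.Agent.Lib.MP_55d555_gt

open Set Topology Filter

/-- an open embedding of the line into a small interval around zero -/
theorem exists_shrink {δ : ℝ} (hδ : 0 < δ) :
    ∃ φ : ℝ → ℝ, IsOpenEmbedding φ ∧ φ 0 = 0 ∧ ∀ u, |φ u| < δ := by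
  have hπ := Real.pi_pos
  have hr : range Real.arctan = Ioo (-(Real.pi / 2)) (Real.pi / 2) := Real.range_arctan
  have h1 : IsOpenEmbedding Real.arctan := by
    refine ⟨Real.arctan_strictMono.isEmbedding_of_ordConnected ?_, ?_⟩
    · rw [hr]; exact ordConnected_Ioo
    · rw [hr]; exact isOpen_Ioo
  have hk : (δ * (2 / Real.pi)) ≠ 0 := by positivity
  have h2 : IsOpenEmbedding (fun x : ℝ => (δ * (2 / Real.pi)) * x) :=
    (Homeomorph.mulLeft₀ _ hk).isOpenEmbedding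
  refine ⟨fun u => (δ * (2 / Real.pi)) * Real.arctan u, h2.comp h1, by simp, fun u => ?_⟩
  have h3 := Real.arctan_lt_pi_div_two u
  have h4 := Real.neg_pi_div_two_lt_arctan u
  rw [abs_lt]
  have e : δ = (δ * (2 / Real.pi)) * (Real.pi / 2) := by field_simp
  have hk' : 0 < δ * (2 / Real.pi) := by positivity
  constructor
  · calc -δ = (δ * (2 / Real.pi)) * (-(Real.pi / 2)) := by rw [mul_neg, ← e]
      _ < _ := mul_lt_mul_of_pos_left h4 hk'
  · calc (δ * (2 / Real.pi)) * Real.arctan u < (δ * (2 / Real.pi)) * (Real.pi / 2) :=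
          mul_lt_mul_of_pos_left h3 hk'
      _ = δ := e.symm

/-- one-sided neighbourhoods under an injective continuous reparametrization -/
theorem sides {α : ℝ → ℝ} (hc : Continuous α) (hi : Function.Injective α) {a : ℝ}
    (h0 : α 0 = a) :
    ((∀ᶠ w in 𝓝[>] a, ∃ u, 0 < u ∧ α u = w) ∧ (∀ᶠ w in 𝓝[<] a, ∃ u, u < 0 ∧ α u = w)) ∨
    ((∀ᶠ w in 𝓝[>] a, ∃ u, u < 0 ∧ α u = w) ∧ (∀ᶠ w in 𝓝[<] a, ∃ u, 0 < u ∧ α u = w)) := by
  rcases hc.strictMono_of_inj hi with h | h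
  · left
    constructor
    · have h1 : a < α 1 := by rw [← h0]; exact h (by norm_num)
      filter_upwards [Ioo_mem_nhdsGT h1] with w hw
      have : w ∈ Ioo (α 0) (α 1) := by rw [h0]; exact hw
      obtain ⟨u, hu, hu2⟩ := intermediate_value_Ioo (by norm_num : (0 : ℝ) ≤ 1) hc.continuousOn this
      exact ⟨u, hu.1, hu2⟩
    · have h1 : α (-1) < a := by rw [← h0]; exact h (by norm_num)
      filter_upwards [Ioo_mem_nhdsLT h1] with w hw
      have : w ∈ Ioo (α (-1)) (α 0) := by rw [h0]; exact hw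
      obtain ⟨u, hu, hu2⟩ := intermediate_value_Ioo (by norm_num : (-1 : ℝ) ≤ 0)
        hc.continuousOn this
      exact ⟨u, hu.2, hu2⟩
  · right
    constructor
    · have h1 : a < α (-1) := by rw [← h0]; exact h (by norm_num)
      filter_upwards [Ioo_mem_nhdsGT h1] with w hw
      have : w ∈ Ioo (α 0) (α (-1)) := by rw [h0]; exact hw
      obtain ⟨u, hu, hu2⟩ := intermediate_value_Ioo' (by norm_num : (-1 : ℝ) ≤ 0)
        hc.continuousOn this
      exact ⟨u, hu.2, hu2⟩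
    · have h1 : α 1 < a := by rw [← h0]; exact h (by norm_num)
      filter_upwards [Ioo_mem_nhdsLT h1] with w hw
      have : w ∈ Ioo (α 1) (α 0) := by rw [h0]; exact hw
      obtain ⟨u, hu, hu2⟩ := intermediate_value_Ioo' (by norm_num : (0 : ℝ) ≤ 1)
        hc.continuousOn this
      exact ⟨u, hu.1, hu2⟩

theorem nhds_range {α : ℝ → ℝ} (hc : Continuous α) (hi : Function.Injective α) {a : ℝ}
    (h0 : α 0 = a) : ∀ᶠ w in 𝓝 a, ∃ u, α u = w := by
  rw [← nhdsNE_sup_pure a, ← nhdsLT_sup_nhdsGT a, eventually_sup, eventually_sup]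
  rcases sides hc hi h0 with ⟨h1, h2⟩ | ⟨h1, h2⟩
  · exact ⟨⟨h2.mono fun w ⟨u, _, hu⟩ => ⟨u, hu⟩, h1.mono fun w ⟨u, _, hu⟩ => ⟨u, hu⟩⟩, ⟨0, h0⟩⟩
  · exact ⟨⟨h2.mono fun w ⟨u, _, hu⟩ => ⟨u, hu⟩, h1.mono fun w ⟨u, _, hu⟩ => ⟨u, hu⟩⟩, ⟨0, h0⟩⟩

variable {S F : Type*} [TopologicalSpace S] [TopologicalSpace F] {n : ℕ}

namespace Config

/-- the crossing parameters -/
def crossing (c : Config S F (Fin n × UnitAddCircle)) : Set (Fin n × UnitAddCircle) :=
  {τ | ∃ τ', τ' ≠ τ ∧ c.p τ' = c.p τ}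

/-- over crossing parameters -/
def isOver (c : Config S F (Fin n × UnitAddCircle)) (τ : Fin n × UnitAddCircle) : Prop :=
  ∃ τ', τ' ≠ τ ∧ c.p τ' = c.p τ ∧ c.t τ' < c.t τ

/-- under crossing parameters -/
def isUnder (c : Config S F (Fin n × UnitAddCircle)) (τ : Fin n × UnitAddCircle) : Prop :=
  ∃ τ', τ' ≠ τ ∧ c.p τ' = c.p τ ∧ c.t τ < c.t τ'

/-- an alternating diagram -/
structure AltDiagram (c : Config S F (Fin n × UnitAddCircle)) : Prop where
  inj : ∀ τ τ', c.p τ = c.p τ' → c.t τ = c.t τ' → τ = τ'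
  fin : c.crossing.Finite
  reg : ∀ (i : Fin n) (a : ℝ), (i, (a : UnitAddCircle)) ∉ c.crossing →
    ∃ (e : ℝ × ℝ → F) (α : ℝ → ℝ), IsOpenEmbedding e ∧ Continuous α ∧ α 0 = a ∧
      (∀ u, c.p (i, (α u : UnitAddCircle)) = e (u, 0)) ∧
      ∀ τ, c.p τ ∈ range e → ∃ u, τ = (i, (α u : UnitAddCircle))
  cross : ∀ (i j : Fin n) (a b : ℝ), (i, (a : UnitAddCircle)) ≠ (j, (b : UnitAddCircle)) →
    c.p (i, (a : UnitAddCircle)) = c.p (j, (b : UnitAddCircle)) →
    ∃ (e : ℝ × ℝ → F) (α β : ℝ → ℝ), IsOpenEmbedding e ∧ Continuous α ∧ Continuous β ∧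
      α 0 = a ∧ β 0 = b ∧
      (∀ u, c.p (i, (α u : UnitAddCircle)) = e (u, 0)) ∧
      (∀ v, c.p (j, (β v : UnitAddCircle)) = e (0, v)) ∧
      ∀ τ, c.p τ ∈ range e →
        (∃ u, τ = (i, (α u : UnitAddCircle))) ∨ ∃ v, τ = (j, (β v : UnitAddCircle))
  alt : ∀ (i : Fin n) (a b : ℝ), a < b → b ≤ a + 1 → (i, (a : UnitAddCircle)) ∈ c.crossing →
      (i, (b : UnitAddCircle)) ∈ c.crossing →
      (∀ w : ℝ, w ∈ Ioo a b → (i, (w : UnitAddCircle)) ∉ c.crossing) →
      (c.isOver (i, (a : UnitAddCircle)) ↔ c.isUnder (i, (b : UnitAddCircle)))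

variable {c : Config S F (Fin n × UnitAddCircle)}

theorem AltDiagram.exists_reg (hd : c.AltDiagram) {i : Fin n} {a : ℝ}
    (h : (i, (a : UnitAddCircle)) ∉ c.crossing) :
    ∃ (r : RegChart c) (α : ℝ → ℝ), Continuous α ∧ Function.Injective α ∧ α 0 = a ∧
      ∀ u, r.a u = (i, (α u : UnitAddCircle)) := by
  obtain ⟨e, α, he, hα, h0, h1, h2⟩ := hd.reg i a h
  have hαc : Continuous fun u => (i, (α u : UnitAddCircle)) :=
    continuous_const.prodMk ((AddCircle.continuous_mk' 1).comp hα)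
  refine ⟨⟨e, fun u => (i, (α u : UnitAddCircle)), he, hαc, h1, h2⟩, α, hα, ?_, h0, fun _ => rfl⟩
  intro u u' huu
  have h3 := h1 u
  rw [huu, h1 u'] at h3
  have := he.injective h3
  simpa using this.symm

theorem AltDiagram.exists_cross (hd : c.AltDiagram) {i j : Fin n} {a b : ℝ}
    (hne : (i, (a : UnitAddCircle)) ≠ (j, (b : UnitAddCircle)))
    (hp : c.p (i, (a : UnitAddCircle)) = c.p (j, (b : UnitAddCircle))) {s0 : ℝ}
    (hs1 : s0 < c.t (i, (a : UnitAddCircle))) (hs2 : c.t (j, (b : UnitAddCircle)) < s0) :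
    ∃ (r : CrossChart c) (α β : ℝ → ℝ), r.s0 = s0 ∧ Continuous α ∧ Function.Injective α ∧
      α 0 = a ∧ Continuous β ∧ Function.Injective β ∧ β 0 = b ∧
      (∀ u, r.a u = (i, (α u : UnitAddCircle))) ∧ (∀ v, r.b v = (j, (β v : UnitAddCircle))) := by
  obtain ⟨e, α, β, he, hα, hβ, hα0, hβ0, h1, h2, h3⟩ := hd.cross i j a b hne hp
  have hαc : Continuous fun u => (i, (α u : UnitAddCircle)) :=
    continuous_const.prodMk ((AddCircle.continuous_mk' 1).comp hα)
  have hβc : Continuous fun u => (j, (β u : UnitAddCircle)) :=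
    continuous_const.prodMk ((AddCircle.continuous_mk' 1).comp hβ)
  have e1 : ∀ᶠ u in 𝓝 (0 : ℝ), s0 < c.t (i, (α u : UnitAddCircle)) := by
    have : Tendsto (fun u => c.t (i, (α u : UnitAddCircle))) (𝓝 0)
        (𝓝 (c.t (i, (α 0 : UnitAddCircle)))) := (c.ht.comp hαc).tendsto 0
    rw [hα0] at this
    exact this.eventually (lt_mem_nhds hs1)
  have e2 : ∀ᶠ u in 𝓝 (0 : ℝ), c.t (j, (β u : UnitAddCircle)) < s0 := by
    have : Tendsto (fun u => c.t (j, (β u : UnitAddCircle))) (𝓝 0)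
        (𝓝 (c.t (j, (β 0 : UnitAddCircle)))) := (c.ht.comp hβc).tendsto 0
    rw [hβ0] at this
    exact this.eventually (gt_mem_nhds hs2)
  obtain ⟨δ, hδ, hδ2⟩ := Metric.eventually_nhds_iff.1 (e1.and e2)
  obtain ⟨φ, hφ, hφ0, hφd⟩ := exists_shrink hδ
  have hφd' : ∀ u, dist (φ u) 0 < δ := fun u => by
    rw [Real.dist_0_eq_abs]; exact hφd u
  refine ⟨⟨e ∘ Prod.map φ φ, fun u => (i, (α (φ u) : UnitAddCircle)),
    fun v => (j, (β (φ v) : UnitAddCircle)), he.comp (hφ.prodMap hφ),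
    hαc.comp hφ.continuous, hβc.comp hφ.continuous, ?_, ?_, ?_, s0, ?_, ?_⟩,
    fun u => α (φ u), fun v => β (φ v), rfl, hα.comp hφ.continuous, ?_, ?_,
    hβ.comp hφ.continuous, ?_, ?_, fun _ => rfl, fun _ => rfl⟩
  · intro u
    simp only [Function.comp_apply, Prod.map_apply, hφ0]
    exact h1 _
  · intro v
    simp only [Function.comp_apply, Prod.map_apply, hφ0]
    exact h2 _
  · rintro τ ⟨⟨u, v⟩, hq⟩
    simp only [Function.comp_apply, Prod.map_apply] at hq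
    rcases h3 τ ⟨_, hq⟩ with ⟨u', hu'⟩ | ⟨v', hv'⟩
    · left
      rw [hu', h1] at hq
      have := he.injective hq
      simp only [Prod.mk.injEq] at this
      exact ⟨u, by rw [hu', this.1]⟩
    · right
      rw [hv', h2] at hq
      have := he.injective hq
      simp only [Prod.mk.injEq] at this
      exact ⟨v, by rw [hv', this.2]⟩
  · intro u
    exact (hδ2 (hφd' u)).1
  · intro v
    exact (hδ2 (hφd' v)).2
  · intro u u' huu
    have h4 := h1 (φ u)
    simp only at huu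
    rw [huu, h1] at h4
    have := he.injective h4
    simp only [Prod.mk.injEq] at this
    exact hφ.injective this.1.symm
  · simp only [hφ0, hα0]
  · intro v v' hvv
    have h4 := h2 (φ v)
    simp only at hvv
    rw [hvv, h2] at h4
    have := he.injective h4
    simp only [Prod.mk.injEq] at this
    exact hφ.injective this.2.symm
  · simp only [hφ0, hβ0]

/-- There are exactly two parameters over a crossing. -/
theorem AltDiagram.unique_other (hd : c.AltDiagram) {τ τ' τ'' : Fin n × UnitAddCircle}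
    (h1 : τ' ≠ τ) (h2 : c.p τ' = c.p τ) (h3 : τ'' ≠ τ) (h4 : c.p τ'' = c.p τ) : τ' = τ'' := by
  obtain ⟨i, x⟩ := τ
  obtain ⟨j, y⟩ := τ'
  obtain ⟨a, rfl⟩ := QuotientAddGroup.mk_surjective x
  obtain ⟨b, rfl⟩ := QuotientAddGroup.mk_surjective y
  obtain ⟨e, α, β, he, hα, hβ, hα0, hβ0, e1, e2, e3⟩ := hd.cross i j a b h1.symm h2.symm
  have h5 : c.p (i, (a : UnitAddCircle)) = e (0, 0) := by
    have := e1 0
    rwa [hα0] at this
  rcases e3 τ'' ⟨(0, 0), by rw [h4, ← h5]⟩ with ⟨u, hu⟩ | ⟨v, hv⟩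
  · exfalso
    rw [hu, e1, h5] at h4
    have := he.injective h4
    simp only [Prod.mk.injEq, and_true] at this
    rw [this, hα0] at hu
    exact h3 hu
  · rw [hv, e2, h5] at h4
    have := he.injective h4
    simp only [Prod.mk.injEq, true_and] at this
    rw [this, hβ0] at hv
    exact hv.symm

theorem AltDiagram.over_iff (hd : c.AltDiagram) {τ τ' : Fin n × UnitAddCircle}
    (h1 : τ' ≠ τ) (h2 : c.p τ' = c.p τ) : c.isOver τ ↔ c.t τ' < c.t τ := by
  constructor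
  · rintro ⟨τ'', h3, h4, h5⟩
    rw [hd.unique_other h1 h2 h3 h4]
    exact h5
  · intro h
    exact ⟨τ', h1, h2, h⟩

theorem AltDiagram.under_iff (hd : c.AltDiagram) {τ τ' : Fin n × UnitAddCircle}
    (h1 : τ' ≠ τ) (h2 : c.p τ' = c.p τ) : c.isUnder τ ↔ c.t τ < c.t τ' := by
  constructor
  · rintro ⟨τ'', h3, h4, h5⟩
    rw [hd.unique_other h1 h2 h3 h4]
    exact h5
  · intro h
    exact ⟨τ', h1, h2, h⟩

theorem AltDiagram.under_iff_not_over (hd : c.AltDiagram) {τ : Fin n × UnitAddCircle}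
    (h : τ ∈ c.crossing) : c.isUnder τ ↔ ¬ c.isOver τ := by
  obtain ⟨τ', h1, h2⟩ := h
  rw [hd.over_iff h1 h2, hd.under_iff h1 h2, not_lt]
  constructor
  · exact fun h => h.le
  · intro h
    exact lt_of_le_of_ne h fun e => h1 (hd.inj _ _ h2 e.symm)

end Config

end Pool.Agent.Lib.MP_55d555_gt
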