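import Mathlib
import Pool.Agent.Lib.MP_55d555_gt.Mg.G002

set_option autoImplicit false
set_option linter.unusedSectionVars false

/-!
Gluing the two lifts over the whole double cover.
-/

namespace Pool.Agent.Lib.MP_55d555_gt

open Set Topology Filter

namespace Config

variable {S F : Type*} [TopologicalSpace S] [TopologicalSpace F] {n : ℕ}
variable {c : Config S F (Fin n × UnitAddCircle)} {G : S → ℂ} {R : ℝ}
    {θ : S × ℂ → UnitAddCircle} {fT fB : S × ℂ → ℝ}

/-- The two lifts agree over the intersection of the two regions. -/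
theorem Setup.agree (hs : c.Setup G R θ fT fB)
    (hkk : ∀ x ∉ range c.p, ∀ y : ℂ, y ^ 2 = G (c.h (x, R)) → c.kk R fT fB (x, y) = 0)
    {z : S × ℂ} (hz : z ∈ dbl G univ) (h1 : z.1 ∈ c.top) (h2 : z.1 ∈ c.flip.top) :
    fT z = fB z := by
  obtain ⟨x, s, hxs, hx⟩ := (top_inter_flip_top c).1 ⟨h1, h2⟩
  let A : Set S := (fun s' : ℝ => c.h (x, s')) '' univ
  have hemb : IsEmbedding (fun s' : ℝ => c.h (x, s')) :=
    c.hop.isEmbedding.comp (isEmbedding_prodMkRight x)
  have hAcon : ContractibleSpace A := by
    have : ContractibleSpace (univ : Set ℝ) := convex_univ.contractibleSpace ⟨0, mem_univ _⟩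
    exact (hemb.homeomorphImage univ).symm.contractibleSpace
  have hApre : IsPreconnected A := isPreconnected_univ.image _ hemb.continuous.continuousOn
  have hboth : ∀ w ∈ A, w ∈ c.top ∧ w ∈ c.flip.top := by
    rintro _ ⟨s', _, rfl⟩
    rw [top_inter_flip_top]
    exact ⟨x, s', rfl, hx⟩
  have hA0 : ∀ w ∈ A, G w ≠ 0 := fun w hw => hs.G_ne_zero (hboth w hw).1
  obtain ⟨y, hy, hy2⟩ := exists_sqrt_on A G hs.hG.continuousOn hA0
  obtain ⟨k, hk⟩ := exists_int_diff hApre
    (hs.hT.comp_continuousOn (fun w hw => (hboth w hw).1) hy hy2 hA0)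
    (hs.hB.comp_continuousOn (fun w hw => (hboth w hw).2) hy hy2 hA0)
    (fun w hw => by
      rw [hs.hT.lift _ ⟨(hboth w hw).1, hy2 w hw, hA0 w hw⟩,
        hs.hB.lift _ ⟨(hboth w hw).2, hy2 w hw, hA0 w hw⟩])
  have hRA : c.h (x, R) ∈ A := ⟨R, mem_univ _, rfl⟩
  have hsA : z.1 ∈ A := ⟨s, mem_univ _, hxs.symm⟩
  have hk0 : (k : ℝ) = 0 := by
    rw [← hk _ hRA]
    exact hkk x hx _ (hy2 _ hRA)
  have h3 := hk _ hsA
  rw [hk0] at h3
  have h4 : z.2 ^ 2 = y z.1 ^ 2 := by rw [hz.2.1, hy2 _ hsA]
  rcases sq_eq_sq_iff_eq_or_eq_neg.1 h4 with h | h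
  · have : z = (z.1, y z.1) := Prod.ext rfl h
    rw [this]
    linarith
  · have : z = (z.1, -y z.1) := Prod.ext rfl h
    rw [this]
    have e1 := hs.hT.odd (z.1, y z.1)
    have e2 := hs.hB.odd (z.1, y z.1)
    simp only at e1 e2
    rw [e1, e2]
    linarith

section

variable [T2Space F] [CompactSpace F] [T2Space S]

/-- The two lifts glue to a lift on the whole double cover. -/
theorem Setup.exists_lift (hs : c.Setup G R θ fT fB)
    (hodd : ∀ z ∈ dbl G univ, θ (z.1, -z.2) = -θ z)
    (hkk : ∀ x ∉ range c.p, ∀ y : ℂ, y ^ 2 = G (c.h (x, R)) → c.kk R fT fB (x, y) = 0) :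
    ∃ Φ : S × ℂ → ℝ, ContinuousOn Φ (dbl G univ) ∧
      ∀ z ∈ dbl G univ, ((Φ z : ℝ) : UnitAddCircle) = θ z := by
  classical
  let X : Set (S × ℂ) := dbl G univ
  let A : Set X := {z | z.1.1 ∈ c.top ∨ z.1.1 ∈ c.flip.top}
  let f : X → ℝ := fun z => if z.1.1 ∈ c.top then fT z.1 else fB z.1
  have hfst : Continuous fun z : X => z.1.1 := continuous_fst.comp continuous_subtype_val
  have hkey : ∀ z : X, z ∈ closure A ∧
      ∃ ℓ : ℝ, Tendsto f (𝓝[A] z) (𝓝 ℓ) ∧ ((ℓ : ℝ) : UnitAddCircle) = θ z.1 := by
    intro z
    by_cases hzT : z.1.1 ∈ c.top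
    · refine ⟨subset_closure (Or.inl hzT), fT z.1, ?_, hs.hT.lift _ ⟨hzT, z.2.2⟩⟩
      have h1 : ∀ᶠ z' : X in 𝓝 z, z'.1.1 ∈ c.top :=
        hfst.continuousAt.eventually (c.isOpen_top.mem_nhds hzT)
      have h2 : Tendsto (fun z' : X => fT z'.1) (𝓝 z) (𝓝 (fT z.1)) := by
        have h3 := hs.hT.cont z.1 ⟨hzT, z.2.2⟩
        have h4 : Tendsto (fun z' : X => z'.1) (𝓝 z) (𝓝[dbl G c.top] z.1) := by
          apply tendsto_nhdsWithin_of_tendsto_nhds_of_eventually_within _
            continuous_subtype_val.continuousAt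
          filter_upwards [h1] with z' hz'
          exact ⟨hz', z'.2.2⟩
        exact h3.tendsto.comp h4
      apply Tendsto.mono_left _ nhdsWithin_le_nhds
      apply h2.congr'
      filter_upwards [h1] with z' hz'
      simp only [f, if_pos hz']
    · by_cases hzB : z.1.1 ∈ c.flip.top
      · refine ⟨subset_closure (Or.inr hzB), fB z.1, ?_, hs.hB.lift _ ⟨hzB, z.2.2⟩⟩
        have h1 : ∀ᶠ z' : X in 𝓝 z, z'.1.1 ∈ c.flip.top :=
          hfst.continuousAt.eventually (c.flip.isOpen_top.mem_nhds hzB)
        have h2 : Tendsto (fun z' : X => fB z'.1) (𝓝 z) (𝓝 (fB z.1)) := by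
          have h3 := hs.hB.cont z.1 ⟨hzB, z.2.2⟩
          have h4 : Tendsto (fun z' : X => z'.1) (𝓝 z) (𝓝[dbl G c.flip.top] z.1) := by
            apply tendsto_nhdsWithin_of_tendsto_nhds_of_eventually_within _
              continuous_subtype_val.continuousAt
            filter_upwards [h1] with z' hz'
            exact ⟨hz', z'.2.2⟩
          exact h3.tendsto.comp h4
        apply Tendsto.mono_left _ nhdsWithin_le_nhds
        apply h2.congr'
        filter_upwards [h1] with z' hz'
        by_cases hz'' : z'.1.1 ∈ c.top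
        · simp only [f, if_pos hz'']
          exact (hs.agree hkk z'.2 hz'' hz').symm
        · simp only [f, if_neg hz'']
      · -- between two strands
        have hzl : z.1.1 ∉ c.link := fun h => z.2.2.2 ((hs.hlink _).2 h)
        obtain ⟨x, s, τ, τ', hxs, hτ, hτ', ht1, ht2⟩ := c.exists_between hzT hzB hzl
        obtain ⟨i, yi⟩ := τ
        obtain ⟨j, yj⟩ := τ'
        obtain ⟨a, rfl⟩ := QuotientAddGroup.mk_surjective yi
        obtain ⟨b, rfl⟩ := QuotientAddGroup.mk_surjective yj
        have hne : (i, (a : UnitAddCircle)) ≠ (j, (b : UnitAddCircle)) := by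
          intro h
          have e : c.t (i, (a : UnitAddCircle)) = c.t (j, (b : UnitAddCircle)) := by rw [h]
          have e1 : s < c.t (i, (a : UnitAddCircle)) := ht1
          have e2 : c.t (j, (b : UnitAddCircle)) < s := ht2
          linarith
        have hp : c.p (i, (a : UnitAddCircle)) = c.p (j, (b : UnitAddCircle)) :=
          hτ.trans hτ'.symm
        obtain ⟨r, α, β, hs0, hα, hαi, hα0, hβ, hβi, hβ0, hra, hrb⟩ :=
          hs.hd.exists_cross hne hp (s0 := s) ht1 ht2
        obtain ⟨yN, FN, aU, aD, bR, bL, hmid⟩ := r.exists_mid hs.hG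
          (fun x hx => (hs.hlink x).1 hx) hs.hθ hs.hT hs.hB
        obtain ⟨η, hη, -, -, -, -, w1, w2, w3, w4⟩ := r.values hs.hR hs.hG hs.hlink hs.hns
          hs.hT hs.hB hmid
        have hxe : x = r.e (0, 0) := by
          have : c.p (i, (a : UnitAddCircle)) = r.e (0, 0) := by rw [← r.hpa, hra, hα0]
          rw [← this]; exact hτ.symm
        -- all the constants agree
        have hconst : ∀ q : ℝ × ℝ, q.1 ≠ 0 → q.2 ≠ 0 → ∀ k : ℝ,
            (∀ y : ℂ, y ^ 2 = G (c.h (r.e q, R)) → |c.kk R fT fB (r.e q, y)| = |k|) →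
            k = 0 := by
          intro q h1 h2 k hk
          have hD : r.e q ∉ range c.p := by
            rw [r.mem_D]; push Not; exact ⟨h1, h2⟩
          obtain ⟨y, hy⟩ := IsAlgClosed.exists_pow_nat_eq (G (c.h (r.e q, R))) (n := 2)
            (by norm_num)
          have := hk y hy
          rw [hkk _ hD y hy, abs_zero] at this
          exact abs_eq_zero.1 this.symm
        have k1 : (aU : ℝ) - bR = 0 := hconst (1, 1) (by norm_num) (by norm_num) _
          (w1 (1, 1) (by norm_num) (by norm_num))
        have k2 : (aU : ℝ) - bL = 0 := hconst (-1, 1) (by norm_num) (by norm_num) _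
          (w2 (-1, 1) (by norm_num) (by norm_num))
        have k3 : (aD : ℝ) - bL = 0 := hconst (-1, -1) (by norm_num) (by norm_num) _
          (w3 (-1, -1) (by norm_num) (by norm_num))
        have hzcol : z.1.1 = c.col r.e ((0, 0), s) := by
          rw [hxs, hxe]; rfl
        have hmemN : (((0, 0), s) : (ℝ × ℝ) × ℝ) ∈ rN r.ta r.tb := by
          refine ⟨fun _ => ?_, fun _ => ?_⟩
          · have := r.has 0
            rw [hs0] at this
            exact this
          · have := r.hbs 0
            rw [hs0] at this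
            exact this
        have hemb := c.col_open r.he
        have hopen : IsOpen (c.col r.e '' rN r.ta r.tb) :=
          hemb.isOpenMap _ (isOpen_rN r.continuous_ta r.continuous_tb)
        have hzN : z.1.1 ∈ c.col r.e '' rN r.ta r.tb := ⟨_, hmemN, hzcol.symm⟩
        have hGN : ∀ x ∈ c.col r.e '' rN r.ta r.tb, G x ≠ 0 := by
          rintro _ ⟨w, hw, rfl⟩ h
          exact r.rN_not_link hw ((hs.hlink _).1 h)
        have hyN0 : ∀ x ∈ c.col r.e '' rN r.ta r.tb, yN x ≠ 0 := by
          intro x hx h
          have := hmid.ysq x hx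
          rw [h] at this
          exact hGN x hx (by simpa using this.symm)
        let L : S × ℂ → ℝ := oddExt yN (fun w => FN w + aU)
        have hLc : ContinuousOn L (dbl G (c.col r.e '' rN r.ta r.tb)) :=
          oddExt_continuousOn hmid.ycont hmid.ysq (hmid.Fcont.add continuousOn_const)
        have hLlift : ∀ w ∈ dbl G (c.col r.e '' rN r.ta r.tb),
            ((L w : ℝ) : UnitAddCircle) = θ w := by
          intro w hw
          apply oddExt_lift hodd hmid.ysq _ hw
          intro x hx
          rw [AddCircle.coe_add, hmid.Flift x hx]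
          have : ((aU : ℝ) : UnitAddCircle) = 0 := by
            rw [AddCircle.coe_eq_zero_iff]
            exact ⟨aU, by simp⟩
          rw [this, add_zero]
        -- odd functions agreeing with FN + aU on the section
        have hoddL : ∀ (g : S × ℂ → ℝ), (∀ z, g (z.1, -z.2) = -g z) →
            ∀ w : S × ℂ, w ∈ dbl G (c.col r.e '' rN r.ta r.tb) →
            g (w.1, yN w.1) = FN w.1 + aU → g w = L w := by
          intro g hg w hw hgw
          have hy0 := hyN0 _ hw.1
          rcases eq_or_eq_neg_of_dbl hw (hmid.ysq _ hw.1) with h | h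
          · have e : w = (w.1, yN w.1) := Prod.ext rfl h
            rw [e, hgw]
            exact (oddExt_section (F := fun w => FN w + aU) hy0).symm
          · have e : w = (w.1, -yN w.1) := Prod.ext rfl h
            rw [e]
            have e1 := hg (w.1, yN w.1)
            have e2 := oddExt_neg yN (fun w => FN w + aU) (w.1, yN w.1)
            simp only at e1 e2
            rw [e1, hgw]
            change _ = oddExt yN (fun w => FN w + aU) _
            rw [e2, oddExt_section (F := fun w => FN w + aU) hy0]
        have hTL : ∀ w ∈ dbl G (c.col r.e '' rN r.ta r.tb), w.1 ∈ c.top → fT w = L w := by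
          intro w hw hwT
          apply hoddL fT hs.hT.odd w hw
          obtain ⟨q, hq, hqe⟩ := hw.1
          rw [← hqe] at hwT ⊢
          have hq2 := r.mem_top.1 hwT
          have hv : q.1.2 ≠ 0 := by
            intro hv
            have e1 := hq2.1 hv
            have e2 := hq.1 hv
            linarith
          rcases lt_or_gt_of_ne hv with h | h
          · have := hmid.dn q ⟨hq2, hq⟩ h
            linarith
          · have := hmid.up q ⟨hq2, hq⟩ h
            linarith
        have hBL : ∀ w ∈ dbl G (c.col r.e '' rN r.ta r.tb), w.1 ∈ c.flip.top → fB w = L w := by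
          intro w hw hwB
          apply hoddL fB hs.hB.odd w hw
          obtain ⟨q, hq, hqe⟩ := hw.1
          rw [← hqe] at hwB ⊢
          have hq2 := r.mem_bot.1 hwB
          have hv : q.1.1 ≠ 0 := by
            intro hv
            have e1 := hq2.2 hv
            have e2 := hq.2 hv
            linarith
          rcases lt_or_gt_of_ne hv with h | h
          · have := hmid.lt q ⟨hq2, hq⟩ h
            linarith
          · have := hmid.rt q ⟨hq2, hq⟩ h
            linarith
        have hzX : z.1 ∈ dbl G (c.col r.e '' rN r.ta r.tb) := ⟨hzN, z.2.2⟩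
        have hev : ∀ᶠ z' : X in 𝓝 z, z'.1.1 ∈ c.col r.e '' rN r.ta r.tb :=
          hfst.continuousAt.eventually (hopen.mem_nhds hzN)
        refine ⟨?_, L z.1, ?_, hLlift _ hzX⟩
        · -- density
          have hsg : ∃ ε : ℂ, ε ^ 2 = 1 ∧ z.1.2 = ε * yN z.1.1 := by
            rcases eq_or_eq_neg_of_dbl hzX (hmid.ysq _ hzN) with h | h
            · exact ⟨1, by norm_num, by rw [one_mul]; exact h⟩
            · exact ⟨-1, by norm_num, by rw [neg_one_mul]; exact h⟩
          obtain ⟨ε, hε, hzε⟩ := hsg
          have hcol : Continuous fun u : ℝ => c.col r.e ((u, u), s) :=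
            hemb.continuous.comp (by fun_prop)
          have hN' : ∀ᶠ u : ℝ in 𝓝 0, c.col r.e ((u, u), s) ∈ c.col r.e '' rN r.ta r.tb := by
            have hmem : (fun u : ℝ => c.col r.e ((u, u), s)) 0 ∈ c.col r.e '' rN r.ta r.tb :=
              ⟨_, hmemN, rfl⟩
            exact hcol.continuousAt.eventually (hopen.mem_nhds hmem)
          rw [mem_closure_iff_nhds]
          intro W hW
          rw [nhds_subtype_eq_comap, mem_comap] at hW
          obtain ⟨W', hW', hWW⟩ := hW
          have htend : Tendsto (fun u : ℝ => ((c.col r.e ((u, u), s),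
              ε * yN (c.col r.e ((u, u), s))) : S × ℂ)) (𝓝 0) (𝓝 z.1) := by
            have e0 : z.1 = (c.col r.e ((0, 0), s), ε * yN (c.col r.e ((0, 0), s))) := by
              refine Prod.ext hzcol ?_
              rw [hzε, hzcol]
            rw [e0]
            apply Tendsto.prodMk_nhds hcol.continuousAt
            apply Tendsto.const_mul
            have h1 : ContinuousAt yN (c.col r.e ((0, 0), s)) := by
              apply hmid.ycont.continuousAt
              rw [← hzcol]
              exact hopen.mem_nhds hzN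
            exact ContinuousAt.comp (f := fun u : ℝ => c.col r.e ((u, u), s)) (x := 0) h1
              hcol.continuousAt
          have hall := ((htend.eventually hW').and hN').filter_mono
            (nhdsWithin_le_nhds (s := {(0 : ℝ)}ᶜ))
          obtain ⟨u, ⟨hu1, hu2⟩, hu3⟩ := (hall.and self_mem_nhdsWithin).exists
          have hX : (c.col r.e ((u, u), s), ε * yN (c.col r.e ((u, u), s))) ∈ X := by
            refine ⟨mem_univ _, ?_, hGN _ hu2⟩
            simp only
            rw [mul_pow, hε, one_mul, hmid.ysq _ hu2]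
          refine ⟨⟨_, hX⟩, hWW hu1, Or.inl ?_⟩
          have hu0 : u ≠ 0 := hu3
          have : c.col r.e ((u, u), s) ∈ c.top ∧ c.col r.e ((u, u), s) ∈ c.flip.top := by
            rw [top_inter_flip_top]
            refine ⟨r.e (u, u), s, rfl, ?_⟩
            rw [r.mem_D]
            push Not
            exact ⟨hu0, hu0⟩
          exact this.1
        · have h2 : Tendsto (fun z' : X => L z'.1) (𝓝 z) (𝓝 (L z.1)) := by
            have h3 := hLc z.1 hzX
            have h4 : Tendsto (fun z' : X => z'.1) (𝓝 z)
                (𝓝[dbl G (c.col r.e '' rN r.ta r.tb)] z.1) := by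
              apply tendsto_nhdsWithin_of_tendsto_nhds_of_eventually_within _
                continuous_subtype_val.continuousAt
              filter_upwards [hev] with z' hz'
              exact ⟨hz', z'.2.2⟩
            exact h3.tendsto.comp h4
          apply (h2.mono_left (nhdsWithin_le_nhds (s := A))).congr'
          filter_upwards [self_mem_nhdsWithin, nhdsWithin_le_nhds hev] with z' hzA hz'
          by_cases hz'' : z'.1.1 ∈ c.top
          · simp only [f, if_pos hz'']
            exact (hTL _ ⟨hz', z'.2.2⟩ hz'').symm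
          · simp only [f, if_neg hz'']
            exact (hBL _ ⟨hz', z'.2.2⟩ (hzA.resolve_left hz'')).symm
  have hdense : Dense A := fun z => (hkey z).1
  have hcont : Continuous (extendFrom A f) :=
    continuous_extendFrom hdense (fun z => by
      obtain ⟨_, ℓ, h, _⟩ := hkey z
      exact ⟨ℓ, h⟩)
  refine ⟨fun z => if hz : z ∈ X then extendFrom A f ⟨z, hz⟩ else 0, ?_, ?_⟩
  · rw [continuousOn_iff_continuous_domRestrict]
    have : X.domRestrict (fun z => if hz : z ∈ X then extendFrom A f ⟨z, hz⟩ else 0)
        = extendFrom A f := by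
      funext z
      simp [Set.domRestrict]
    rw [this]
    exact hcont
  · intro z hz
    simp only
    rw [dif_pos hz]
    obtain ⟨h1, ℓ, h2, h3⟩ := hkey ⟨z, hz⟩
    rw [extendFrom_eq h1 h2, h3]

end

end Config

end Pool.Agent.Lib.MP_55d555_gt
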