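import Mathlib
import Pool.Agent.Lib.MP_55d555_gt.Glue
import Pool.Agent.Lib.MP_55d555_gt.Mg.G001

set_option autoImplicit false
set_option linter.unusedSectionVars false

/-!
The main topological theorem: a cellular alternating diagram on a Heegaard surface of genus `g`
bounds the number of independent odd classes on the double branched cover complement.
-/

namespace Pool.Agent.Lib.MP_55d555_gt

open Set Topology Filter

/-- A system of fewer integral linear conditions than unknowns has a nonzero solution. -/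
theorem exists_int_vec {ι : Type} [Fintype ι] {N : ℕ} (K : ι → Fin N → ℤ)
    (h : Fintype.card ι < N) : ∃ a : Fin N → ℤ, a ≠ 0 ∧ ∀ j, ∑ i, a i * K j i = 0 := by
  classical
  rcases Nat.eq_zero_or_pos (Fintype.card ι) with h0 | h0
  · have : IsEmpty ι := Fintype.card_eq_zero_iff.1 h0
    refine ⟨fun _ => 1, ?_, fun j => this.elim j⟩
    intro h1
    have := congrFun h1 ⟨0, by omega⟩
    simp at this
  · obtain ⟨t, ht, ht2, _⟩ := Int.Matrix.exists_ne_zero_int_vec_norm_le (Matrix.of K)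
      (by simpa using h) h0
    refine ⟨t, ht, fun j => ?_⟩
    have := congrFun ht2 j
    simp only [Matrix.mulVec, dotProduct, Matrix.of_apply, Pi.zero_apply] at this
    rw [← this]
    exact Finset.sum_congr rfl fun i _ => mul_comm _ _

namespace Config

variable {S F : Type*} [TopologicalSpace S] [TopologicalSpace F] {n : ℕ}

theorem oddLift_sum {N : ℕ} {G : S → ℂ} {T : Set S} {θ : Fin N → S × ℂ → UnitAddCircle}
    {φ : Fin N → S × ℂ → ℝ} (h1 : ∀ i, ∀ z ∈ dbl G T, ((φ i z : ℝ) : UnitAddCircle) = θ i z)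
    (h2 : ∀ i z, φ i (z.1, -z.2) = -φ i z) (a : Fin N → ℤ)
    (h3 : ContinuousOn (fun z => ∑ i, (a i : ℝ) * φ i z) (dbl G T)) :
    OddLift G (fun z => ∑ i, a i • θ i z) T (fun z => ∑ i, (a i : ℝ) * φ i z) where
  cont := h3
  odd := fun z => by
    rw [← Finset.sum_neg_distrib]
    apply Finset.sum_congr rfl
    intro i _
    rw [h2]
    ring
  lift := fun z hz => by
    have e : ((∑ i, (a i : ℝ) * φ i z : ℝ) : UnitAddCircle)
        = ∑ i, (((a i : ℝ) * φ i z : ℝ) : UnitAddCircle) := by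
      exact map_sum (QuotientAddGroup.mk' (AddSubgroup.zmultiples (1 : ℝ))) _ _
    rw [e]
    apply Finset.sum_congr rfl
    intro i _
    rw [← h1 i z hz, ← zsmul_eq_mul, AddCircle.coe_zsmul]

theorem core [CompactSpace F] [T2Space F] [ConnectedSpace F] [LocallyConnectedSpace F]
    [T2Space S] (c : Config S F (Fin n × UnitAddCircle)) (hn : 0 < n) (hd : c.AltDiagram)
    (hcell : ∀ x ∉ range c.p, Nonempty (connectedComponentIn (range c.p)ᶜ x ≃ₜ ℝ × ℝ))
    {g : ℕ} (φp : c.Wp ≃ₜ handlebody g) (φm : c.Wm ≃ₜ handlebody g)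
    {G : S → ℂ} (hG : Continuous G) (hlink : ∀ x, G x = 0 ↔ x ∈ c.link)
    (hns : ∀ x ∈ c.link, ∀ U : Set S, IsOpen U → x ∈ U → ¬ ∃ y : S → ℂ,
      ContinuousOn y (U \ c.link) ∧ ∀ z ∈ U \ c.link, y z ^ 2 = G z)
    {N : ℕ} (hN : 2 * g + 4 < N) {θ : Fin N → S × ℂ → UnitAddCircle}
    (hθ : ∀ i, ContinuousOn (θ i) (dbl G univ))
    (hodd : ∀ i, ∀ z ∈ dbl G univ, θ i (z.1, -z.2) = -θ i z) :
    ∃ a : Fin N → ℤ, a ≠ 0 ∧ ∃ Φ : S × ℂ → ℝ, ContinuousOn Φ (dbl G univ) ∧
      ∀ z ∈ dbl G univ, ((Φ z : ℝ) : UnitAddCircle) = ∑ i, a i • θ i z := by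
  classical
  obtain ⟨MT, φT, hT1, hT2, hT3⟩ := c.top_lift φp hG (fun x hx => (hlink x).1 hx) hθ hodd
  obtain ⟨MB, φB, hB1, hB2, hB3⟩ := c.flip.top_lift φm hG
    (fun x hx => by rw [flip_link]; exact (hlink x).1 hx) hθ hodd
  obtain ⟨R, hR0, hR⟩ := c.exists_bound
  -- a regular parameter
  have hinf : Infinite (Fin n × UnitAddCircle) := by
    have : Nonempty (Fin n) := ⟨⟨0, hn⟩⟩
    have h1 : Infinite UnitAddCircle := by
      apply Infinite.of_injective (fun m : ℕ => (((1 : ℝ) / (m + 2) : ℝ) : UnitAddCircle))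
      intro m m' h
      simp only at h
      have h2 : ((((1 : ℝ) / (m + 2)) - (1 / (m' + 2)) : ℝ) : UnitAddCircle) = 0 := by
        rw [AddCircle.coe_sub, h, sub_self]
      rw [AddCircle.coe_eq_zero_iff] at h2
      obtain ⟨k, hk⟩ := h2
      simp only [zsmul_eq_mul, mul_one] at hk
      have p1 : (0 : ℝ) < 1 / ((m : ℝ) + 2) := by positivity
      have p2 : (0 : ℝ) < 1 / ((m' : ℝ) + 2) := by positivity
      have p3 : (1 : ℝ) / ((m : ℝ) + 2) < 1 := by
        rw [div_lt_one (by positivity)]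
        have : (0 : ℝ) ≤ m := by positivity
        linarith
      have p4 : (1 : ℝ) / ((m' : ℝ) + 2) < 1 := by
        rw [div_lt_one (by positivity)]
        have : (0 : ℝ) ≤ m' := by positivity
        linarith
      have h3 : (k : ℝ) < 1 := by rw [hk]; linarith
      have h4 : (-1 : ℝ) < k := by rw [hk]; linarith
      have h5 : k = 0 := by
        have h3' : k < 1 := by exact_mod_cast h3
        have h4' : -1 < k := by exact_mod_cast h4
        omega
      rw [h5] at hk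
      simp only [Int.cast_zero] at hk
      have h6 : (1 : ℝ) / ((m : ℝ) + 2) = 1 / ((m' : ℝ) + 2) := by linarith
      have h7 : ((m : ℝ) + 2) = (m' : ℝ) + 2 := by
        have := congrArg (fun t : ℝ => 1 / t) h6
        simpa using this
      have : (m : ℝ) = m' := by linarith
      exact_mod_cast this
    infer_instance
  obtain ⟨⟨i0, y0⟩, h0⟩ := hd.fin.exists_notMem
  obtain ⟨a0, rfl⟩ := QuotientAddGroup.mk_surjective y0
  have h0' : (i0, (a0 : UnitAddCircle)) ∉ c.crossing := h0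
  obtain ⟨r, α, hα, hαi, hα0, hra⟩ := hd.exists_reg h0'
  obtain ⟨y1, hy1⟩ := IsAlgClosed.exists_pow_nat_eq (G (c.h (r.e (0, 1), R))) (n := 2)
    (by norm_num)
  obtain ⟨y2, hy2⟩ := IsAlgClosed.exists_pow_nat_eq (G (c.h (r.e (0, -1), R))) (n := 2)
    (by norm_num)
  -- integrality of the differences at the two base points
  have hint : ∀ (x : F) (y : ℂ), x ∉ range c.p → y ^ 2 = G (c.h (x, R)) → ∀ i, ∃ m : ℤ,
      φT i (c.h (x, R), y) - φB i (c.h (x, R), y) = m := by
    intro x y hx hy i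
    have h1 : c.h (x, R) ∈ c.top ∧ c.h (x, R) ∈ c.flip.top := by
      rw [top_inter_flip_top]
      exact ⟨x, R, rfl, hx⟩
    have h2 : G (c.h (x, R)) ≠ 0 := fun h => c.top_disjoint_link h1.1 ((hlink _).1 h)
    have e1 := hT1 i (c.h (x, R), y) ⟨h1.1, hy, h2⟩
    have e2 := hB1 i (c.h (x, R), y) ⟨h1.2, hy, h2⟩
    have e3 : ((φT i (c.h (x, R), y) - φB i (c.h (x, R), y) : ℝ) : UnitAddCircle) = 0 := by
      rw [AddCircle.coe_sub, e1, e2, sub_self]
    rw [AddCircle.coe_eq_zero_iff] at e3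
    obtain ⟨m, hm⟩ := e3
    exact ⟨m, by simpa using hm.symm⟩
  have hD1 : r.e (0, 1) ∉ range c.p := by rw [r.mem_D]; norm_num
  have hD2 : r.e (0, -1) ∉ range c.p := by rw [r.mem_D]; norm_num
  choose K1 hK1 using hint _ y1 hD1 hy1
  choose K2 hK2 using hint _ y2 hD2 hy2
  let K : (Fin (g + 1) ⊕ Fin (g + 1)) ⊕ Fin 2 → Fin N → ℤ :=
    Sum.elim (Sum.elim MT MB) ![K1, K2]
  obtain ⟨a, ha, haK⟩ := exists_int_vec K (by simp; omega)
  have haT : ∀ j, ∑ i, a i * MT j i = 0 := fun j => haK (Sum.inl (Sum.inl j))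
  have haB : ∀ j, ∑ i, a i * MB j i = 0 := fun j => haK (Sum.inl (Sum.inr j))
  have ha1 : ∑ i, a i * K1 i = 0 := haK (Sum.inr 0)
  have ha2 : ∑ i, a i * K2 i = 0 := haK (Sum.inr 1)
  have hoddθ : ∀ z ∈ dbl G univ, (fun z => ∑ i, a i • θ i z) (z.1, -z.2)
      = -(fun z => ∑ i, a i • θ i z) z := by
    intro z hz
    simp only
    rw [← Finset.sum_neg_distrib]
    apply Finset.sum_congr rfl
    intro i _
    rw [hodd i z hz, smul_neg]
  have hθc : ContinuousOn (fun z => ∑ i, a i • θ i z) (dbl G univ) :=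
    continuousOn_finsetSum _ fun i _ => (hθ i).const_smul (a i)
  have hs : c.Setup G R (fun z => ∑ i, a i • θ i z) (fun z => ∑ i, (a i : ℝ) * φT i z)
      (fun z => ∑ i, (a i : ℝ) * φB i z) :=
    ⟨hG, hlink, hns, hθc, oddLift_sum hT1 hT2 a (hT3 a haT), oddLift_sum hB1 hB2 a (hB3 a haB),
      hR, hd⟩
  have hpre : IsPreconnected (range c.p) := preconnected_of_cellular isClosed_range_p hcell
  have hzero : ∀ (x : F) (y : ℂ) (K : Fin N → ℤ),
      (∀ i, φT i (c.h (x, R), y) - φB i (c.h (x, R), y) = K i) → ∑ i, a i * K i = 0 →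
      c.kk R (fun z => ∑ i, (a i : ℝ) * φT i z) (fun z => ∑ i, (a i : ℝ) * φB i z) (x, y) = 0 := by
    intro x y K hK haK
    simp only [kk]
    rw [← Finset.sum_sub_distrib]
    have : ∀ i ∈ Finset.univ, (a i : ℝ) * φT i (c.h (x, R), y)
        - (a i : ℝ) * φB i (c.h (x, R), y) = ((a i * K i : ℤ) : ℝ) := by
      intro i _
      rw [← mul_sub, hK i]
      push_cast
      ring
    rw [Finset.sum_congr rfl this, ← Int.cast_sum, haK]
    simp
  have hkk := hs.kk_zero hpre h0' r (by rw [← r.hpa, hra, hα0]) hy1 hy2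
    (hzero _ _ K1 hK1 ha1) (hzero _ _ K2 hK2 ha2)
  obtain ⟨Φ, hΦ, hΦ2⟩ := hs.exists_lift hoddθ hkk
  exact ⟨a, ha, Φ, hΦ, hΦ2⟩

end Config

end Pool.Agent.Lib.MP_55d555_gt
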