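import Mathlib
import Pool.Agent.Lib.MP_55d555_gt.Lift

set_option autoImplicit false
set_option linter.unusedSectionVars false

/-!
The planar double cover `y ^ 2 = ∏ j, ((Z - 4 j) ^ 2 - 1)` and its odd circle valued classes.
-/

namespace Pool.Agent.Lib.MP_55d555_gt

open Set Topology Filter

/-- the branch of `√(Z² - 1)` asymptotic to `Z` -/
noncomputable def rt (Z : ℂ) : ℂ := Z * (1 - (Z ^ 2)⁻¹) ^ ((2 : ℂ)⁻¹)

theorem rt_sq {Z : ℂ} (hZ : Z ≠ 0) : rt Z ^ 2 = Z ^ 2 - 1 := by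
  unfold rt
  have h := Complex.cpow_nat_inv_pow (1 - (Z ^ 2)⁻¹) (n := 2) (by norm_num)
  push_cast at h
  rw [mul_pow, h]
  field_simp

theorem rt_neg (Z : ℂ) : rt (-Z) = -rt Z := by
  unfold rt
  rw [neg_sq]
  ring

theorem rt_continuousAt_of_norm {Z : ℂ} (hZ : 1 < ‖Z‖) : ContinuousAt rt Z := by
  have h0 : Z ≠ 0 := by
    rintro rfl
    simp at hZ
    linarith
  have hs : (1 - (Z ^ 2)⁻¹) ∈ Complex.slitPlane := by
    rw [Complex.mem_slitPlane_iff]
    left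
    have h1 : ‖(Z ^ 2)⁻¹‖ < 1 := by
      rw [norm_inv, norm_pow]
      have : 1 < ‖Z‖ ^ 2 := by nlinarith
      exact inv_lt_one_of_one_lt₀ this
    have h2 := Complex.re_le_norm (Z ^ 2)⁻¹
    simp only [Complex.sub_re, Complex.one_re]
    linarith
  have hc : ContinuousAt (fun Z : ℂ => (1 - (Z ^ 2)⁻¹)) Z := by
    apply ContinuousAt.sub continuousAt_const
    apply ContinuousAt.inv₀
    · fun_prop
    · exact pow_ne_zero 2 h0
  have h3 : ContinuousAt (fun w : ℂ => w ^ ((2 : ℂ)⁻¹)) (1 - (Z ^ 2)⁻¹) :=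
    continuousAt_cpow_const hs
  exact continuousAt_id.mul (ContinuousAt.comp (f := fun Z : ℂ => (1 - (Z ^ 2)⁻¹)) (x := Z) h3 hc)

theorem rt_continuousAt_of_im {Z : ℂ} (hZ : Z.im ≠ 0) : ContinuousAt rt Z := by
  have h0 : Z ≠ 0 := by
    rintro rfl
    simp at hZ
  have hs : (1 - (Z ^ 2)⁻¹) ∈ Complex.slitPlane := by
    by_contra hcon
    rw [Complex.mem_slitPlane_iff] at hcon
    push Not at hcon
    obtain ⟨h1, h2⟩ := hcon
    -- then the inverse square is a real number at least one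
    set u := (Z ^ 2)⁻¹ with hu
    have hui : u.im = 0 := by
      have : (1 - u).im = -u.im := by simp
      rw [this] at h2
      linarith
    have hur : 1 ≤ u.re := by
      have : (1 - u).re = 1 - u.re := by simp
      rw [this] at h1
      linarith
    have hZ2 : Z ^ 2 = u⁻¹ := by rw [hu, inv_inv]
    have hur' : u = (u.re : ℂ) := by
      apply Complex.ext <;> simp [hui]
    have h3 : Z ^ 2 = ((u.re⁻¹ : ℝ) : ℂ) := by
      rw [hZ2, hur']
      push_cast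
      simp
    have h4 : (Z ^ 2).im = 0 := by rw [h3]; simp
    have h5 : 0 < (Z ^ 2).re := by
      rw [h3]
      simp only [Complex.ofReal_re]
      positivity
    rw [sq] at h4 h5
    simp only [Complex.mul_im, Complex.mul_re] at h4 h5
    have h6 : Z.re = 0 := by
      have : Z.re * Z.im = 0 := by linarith
      rcases mul_eq_zero.1 this with h | h
      · exact h
      · exact absurd h hZ
    rw [h6] at h5
    nlinarith [sq_nonneg Z.im]
  have hc : ContinuousAt (fun Z : ℂ => (1 - (Z ^ 2)⁻¹)) Z := by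
    apply ContinuousAt.sub continuousAt_const
    apply ContinuousAt.inv₀
    · fun_prop
    · exact pow_ne_zero 2 h0
  have h3 : ContinuousAt (fun w : ℂ => w ^ ((2 : ℂ)⁻¹)) (1 - (Z ^ 2)⁻¹) :=
    continuousAt_cpow_const hs
  exact continuousAt_id.mul (ContinuousAt.comp (f := fun Z : ℂ => (1 - (Z ^ 2)⁻¹)) (x := Z) h3 hc)

theorem rt_two_I : rt (2 * Complex.I) = (Real.sqrt 5 : ℂ) * Complex.I := by
  unfold rt
  have h1 : (1 - ((2 * Complex.I) ^ 2)⁻¹ : ℂ) = ((5 / 4 : ℝ) : ℂ) := by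
    rw [mul_pow, Complex.I_sq]
    push_cast
    norm_num
  rw [h1]
  have h2 : ((5 / 4 : ℝ) : ℂ) ^ ((2 : ℂ)⁻¹) = ((Real.sqrt 5 / 2 : ℝ) : ℂ) := by
    have : ((2 : ℂ)⁻¹) = ((1 / 2 : ℝ) : ℂ) := by push_cast; norm_num
    rw [this, ← Complex.ofReal_cpow (by norm_num), ← Real.sqrt_eq_rpow,
      Real.sqrt_div' _ (by norm_num)]
    have h3 : Real.sqrt 4 = 2 := by
      rw [show (4 : ℝ) = 2 ^ 2 by norm_num, Real.sqrt_sq (by norm_num)]
    rw [h3]
  rw [h2]
  push_cast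
  ring

variable {M : ℕ}

/-- the polynomial -/
noncomputable def PP (M : ℕ) (Z : ℂ) : ℂ := ∏ j : Fin M, ((Z - 4 * (j : ℕ)) ^ 2 - 1)

/-- the planar double cover -/
def CC (M : ℕ) : Set (ℂ × ℂ) := {q | q.2 ^ 2 = PP M q.1 ∧ PP M q.1 ≠ 0}

/-- product of the other branches -/
noncomputable def QQ (j : Fin M) (Z : ℂ) : ℂ := ∏ i ∈ Finset.univ.erase j, rt (Z - 4 * (i : ℕ))

theorem norm_other {i j : Fin M} (hij : i ≠ j) {Z : ℂ} (h : ‖Z - 4 * (j : ℕ)‖ < 3) :
    1 < ‖Z - 4 * (i : ℕ)‖ := by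
  have h1 : (4 : ℝ) ≤ ‖((4 * (i : ℕ) : ℂ)) - 4 * (j : ℕ)‖ := by
    have e : ((4 * (i : ℕ) : ℂ)) - 4 * (j : ℕ) = ((4 * (((i : ℕ) : ℤ) - ((j : ℕ) : ℤ)) : ℤ) : ℂ) := by
      push_cast; ring
    rw [e, Complex.norm_intCast]
    have h2 : ((i : ℕ) : ℤ) - ((j : ℕ) : ℤ) ≠ 0 := by
      intro h
      apply hij
      apply Fin.ext
      omega
    have h3 : (1 : ℤ) ≤ |((i : ℕ) : ℤ) - ((j : ℕ) : ℤ)| := Int.one_le_abs h2
    have h4 : (4 : ℤ) ≤ |4 * (((i : ℕ) : ℤ) - ((j : ℕ) : ℤ))| := by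
      rw [abs_mul]; simp only [Nat.abs_ofNat]; omega
    have h5 : ((4 : ℤ) : ℝ) ≤ ((|4 * (((i : ℕ) : ℤ) - ((j : ℕ) : ℤ))| : ℤ) : ℝ) := by
      exact_mod_cast h4
    rw [Int.cast_abs] at h5
    simpa using h5
  have h2 : ((4 * (i : ℕ) : ℂ)) - 4 * (j : ℕ) = (Z - 4 * (j : ℕ)) - (Z - 4 * (i : ℕ)) := by ring
  rw [h2] at h1
  have h3 := norm_sub_le (Z - 4 * (j : ℕ)) (Z - 4 * (i : ℕ))
  linarith

theorem QQ_continuousAt {j : Fin M} {Z : ℂ} (h : ‖Z - 4 * (j : ℕ)‖ < 3) :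
    ContinuousAt (QQ j) Z := by
  unfold QQ
  apply tendsto_finsetProd
  intro i hi
  have hij : i ≠ j := (Finset.mem_erase.1 hi).1
  have h1 := rt_continuousAt_of_norm (norm_other hij h)
  exact ContinuousAt.comp (f := fun Z : ℂ => Z - 4 * (i : ℕ)) (x := Z) h1 (by fun_prop)

theorem PP_eq (j : Fin M) (Z : ℂ) : PP M Z = ((Z - 4 * (j : ℕ)) ^ 2 - 1) *
    ∏ i ∈ Finset.univ.erase j, ((Z - 4 * (i : ℕ)) ^ 2 - 1) := by
  unfold PP
  rw [Finset.mul_prod_erase _ (fun i : Fin M => ((Z - 4 * ((i : ℕ) : ℂ)) ^ 2 - 1))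
    (Finset.mem_univ j)]

theorem QQ_sq {j : Fin M} {Z : ℂ} (h : ‖Z - 4 * (j : ℕ)‖ < 3) :
    QQ j Z ^ 2 = ∏ i ∈ Finset.univ.erase j, ((Z - 4 * (i : ℕ)) ^ 2 - 1) := by
  unfold QQ
  rw [← Finset.prod_pow]
  apply Finset.prod_congr rfl
  intro i hi
  have hij : i ≠ j := (Finset.mem_erase.1 hi).1
  apply rt_sq
  intro h0
  have := norm_other hij h
  rw [h0, norm_zero] at this
  linarith

theorem QQ_ne_zero {j : Fin M} {Z : ℂ} (h : ‖Z - 4 * (j : ℕ)‖ < 3) (hP : PP M Z ≠ 0) :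
    QQ j Z ≠ 0 := by
  intro h0
  apply hP
  rw [PP_eq j, ← QQ_sq h, h0]
  simp

/-- the sheet coordinate -/
noncomputable def ss (A Y : ℂ) : ℝ := (‖A + Y‖ - ‖A - Y‖) / (‖A + Y‖ + ‖A - Y‖)

/-- the clamped profile -/
noncomputable def prof (s : ℝ) : ℝ := (1 - max (-1) (min 1 (2 * s))) / 2

theorem prof_neg (s : ℝ) : prof (-s) = 1 - prof s := by
  unfold prof
  have : max (-1 : ℝ) (min 1 (2 * -s)) = -max (-1) (min 1 (2 * s)) := by
    rcases le_total (2 * s) (-1) with h | h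
    · rw [min_eq_left (by linarith : (1 : ℝ) ≤ 2 * -s), min_eq_right (by linarith : 2 * s ≤ 1),
        max_eq_right (by norm_num), max_eq_left h]
      norm_num
    · rcases le_total (2 * s) 1 with h' | h'
      · rw [min_eq_right (by linarith : 2 * -s ≤ 1), min_eq_right h',
          max_eq_right (by linarith : (-1 : ℝ) ≤ 2 * -s), max_eq_right h]
        ring
      · rw [min_eq_right (by linarith : 2 * -s ≤ 1), min_eq_left h',
          max_eq_left (by linarith : 2 * -s ≤ -1), max_eq_right (by norm_num)]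
  rw [this]
  ring

theorem prof_of_ge {s : ℝ} (h : 1 / 2 ≤ s) : prof s = 0 := by
  unfold prof
  rw [min_eq_left (by linarith), max_eq_right (by norm_num)]
  norm_num

theorem prof_of_le {s : ℝ} (h : s ≤ -(1 / 2)) : prof s = 1 := by
  unfold prof
  rw [min_eq_right (by linarith), max_eq_left (by linarith)]
  norm_num

theorem prof_coe_eq_zero {s : ℝ} (h : 1 / 2 ≤ |s|) : ((prof s : ℝ) : UnitAddCircle) = 0 := by
  rcases le_abs.1 h with h | h
  · rw [prof_of_ge h]; simp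
  · rw [prof_of_le (by linarith)]; simp

theorem continuous_prof : Continuous prof := by
  unfold prof
  fun_prop

theorem ss_neg (A Y : ℂ) : ss A (-Y) = -ss A Y := by
  unfold ss
  rw [← sub_eq_add_neg, sub_neg_eq_add, ← neg_sub, neg_div, add_comm ‖A - Y‖]

theorem ss_bound {A Y : ℂ} (hY : Y ^ 2 = A ^ 2 - 1) (hA : 2 ≤ ‖A‖) : 1 / 2 ≤ |ss A Y| := by
  have hprod : ‖A + Y‖ * ‖A - Y‖ = 1 := by
    rw [← norm_mul]
    have : (A + Y) * (A - Y) = 1 := by linear_combination -hY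
    rw [this, norm_one]
  have hsum : 4 ≤ ‖A + Y‖ + ‖A - Y‖ := by
    have h1 := norm_add_le (A + Y) (A - Y)
    have h2 : A + Y + (A - Y) = 2 * A := by ring
    rw [h2, norm_mul] at h1
    simp only [Complex.norm_ofNat] at h1
    linarith
  have hpos : 0 < ‖A + Y‖ + ‖A - Y‖ := by linarith
  unfold ss
  rw [abs_div, abs_of_pos hpos, le_div_iff₀ hpos]
  by_contra hcon
  push Not at hcon
  have h1 : |‖A + Y‖ - ‖A - Y‖| ^ 2 < (1 / 2 * (‖A + Y‖ + ‖A - Y‖)) ^ 2 :=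
    pow_lt_pow_left₀ hcon (abs_nonneg _) (by norm_num)
  rw [sq_abs] at h1
  nlinarith

/-- the planar class -/
noncomputable def th (j : Fin M) (q : ℂ × ℂ) : UnitAddCircle :=
  open Classical in
  if ‖q.1 - 4 * (j : ℕ)‖ < 2 then ((prof (ss (q.1 - 4 * (j : ℕ)) (q.2 / QQ j q.1)) : ℝ) :
    UnitAddCircle) else 0

theorem Y_sq {j : Fin M} {q : ℂ × ℂ} (hq : q ∈ CC M) (h : ‖q.1 - 4 * (j : ℕ)‖ < 3) :
    (q.2 / QQ j q.1) ^ 2 = (q.1 - 4 * (j : ℕ)) ^ 2 - 1 := by
  have h1 := QQ_ne_zero h hq.2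
  rw [div_pow, hq.1, PP_eq j, ← QQ_sq h]
  field_simp

theorem th_of_lt {j : Fin M} {q : ℂ × ℂ} (hq : q ∈ CC M) (h : ‖q.1 - 4 * (j : ℕ)‖ < 3) :
    th j q = ((prof (ss (q.1 - 4 * (j : ℕ)) (q.2 / QQ j q.1)) : ℝ) : UnitAddCircle) := by
  unfold th
  by_cases h2 : ‖q.1 - 4 * (j : ℕ)‖ < 2
  · rw [if_pos h2]
  · rw [if_neg h2]
    exact (prof_coe_eq_zero (ss_bound (Y_sq hq h) (not_lt.1 h2))).symm

theorem th_of_ge {j : Fin M} {q : ℂ × ℂ} (h : 2 ≤ ‖q.1 - 4 * (j : ℕ)‖) :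
    th j q = 0 := by
  unfold th
  rw [if_neg (not_lt.2 h)]

theorem th_neg {j : Fin M} {q : ℂ × ℂ} : th j (q.1, -q.2) = -th j q := by
  unfold th
  simp only
  split_ifs with h
  · rw [neg_div, ss_neg, prof_neg, AddCircle.coe_sub]
    simp
  · simp

theorem ss_continuousAt {X : Type*} [TopologicalSpace X] {A Y : X → ℂ} {x : X}
    (hA : ContinuousAt A x) (hY : ContinuousAt Y x) (h : A x + Y x ≠ 0) :
    ContinuousAt (fun x => ss (A x) (Y x)) x := by
  unfold ss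
  apply ContinuousAt.div
  · exact (hA.add hY).norm.sub (hA.sub hY).norm
  · exact (hA.add hY).norm.add (hA.sub hY).norm
  · have h1 := norm_pos_iff.2 h
    have h2 := norm_nonneg (A x - Y x)
    linarith

theorem th_continuousOn (j : Fin M) : ContinuousOn (th j) (CC M) := by
  intro q hq
  by_cases h : ‖q.1 - 4 * (j : ℕ)‖ < 3
  · have hopen : IsOpen {q : ℂ × ℂ | ‖q.1 - 4 * (j : ℕ)‖ < 3} :=
      isOpen_lt (by fun_prop) continuous_const
    have hc : ContinuousAt (fun q : ℂ × ℂ =>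
        ((prof (ss (q.1 - 4 * (j : ℕ)) (q.2 / QQ j q.1)) : ℝ) : UnitAddCircle)) q := by
      have hQ : ContinuousAt (fun q : ℂ × ℂ => QQ j q.1) q :=
        ContinuousAt.comp (f := Prod.fst) (x := q) (QQ_continuousAt h) continuous_fst.continuousAt
      have hY : ContinuousAt (fun q : ℂ × ℂ => q.2 / QQ j q.1) q :=
        continuous_snd.continuousAt.div hQ (QQ_ne_zero h hq.2)
      have hA : ContinuousAt (fun q : ℂ × ℂ => q.1 - 4 * ((j : ℕ) : ℂ)) q :=
        (continuous_fst.sub continuous_const).continuousAt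
      have hne : q.1 - 4 * ((j : ℕ) : ℂ) + q.2 / QQ j q.1 ≠ 0 := by
        intro h0
        have h1 := Y_sq hq h
        have h2 : q.2 / QQ j q.1 = -(q.1 - 4 * ((j : ℕ) : ℂ)) := by linear_combination h0
        rw [h2, neg_sq] at h1
        have : (0 : ℂ) = -1 := by linear_combination h1
        norm_num at this
      have hs := ss_continuousAt hA hY hne
      exact ((AddCircle.continuous_mk' 1).comp continuous_prof).continuousAt.comp
        (f := fun q : ℂ × ℂ => ss (q.1 - 4 * ((j : ℕ) : ℂ)) (q.2 / QQ j q.1)) (x := q) hs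
    apply ContinuousWithinAt.congr_of_eventuallyEq hc.continuousWithinAt _ (th_of_lt hq h)
    filter_upwards [self_mem_nhdsWithin, nhdsWithin_le_nhds (hopen.mem_nhds h)] with q' h1 h2
    exact th_of_lt h1 h2
  · have hopen : IsOpen {q : ℂ × ℂ | 2 < ‖q.1 - 4 * (j : ℕ)‖} :=
      isOpen_lt continuous_const (by fun_prop)
    have h' : 2 < ‖q.1 - 4 * (j : ℕ)‖ := by
      push Not at h
      linarith
    apply ContinuousAt.continuousWithinAt
    have : (fun _ => (0 : UnitAddCircle)) =ᶠ[𝓝 q] th j := by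
      filter_upwards [hopen.mem_nhds h'] with q' h2
      exact (th_of_ge (le_of_lt h2)).symm
    exact continuousAt_const.congr this

end Pool.Agent.Lib.MP_55d555_gt
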