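import Mathlib
import Pool.Agent.Lib.MP_55d555_gt.Planar

set_option autoImplicit false
set_option linter.unusedSectionVars false

/-!
Independence of the planar classes.
-/

namespace Pool.Agent.Lib.MP_55d555_gt

open Set Topology Filter

variable {M : ℕ}

theorem norm_four {i j : Fin M} (hij : i ≠ j) (Z : ℂ) :
    4 ≤ ‖Z - 4 * (j : ℕ)‖ + ‖Z - 4 * (i : ℕ)‖ := by
  have h1 : (4 : ℝ) ≤ ‖((4 * (i : ℕ) : ℂ)) - 4 * (j : ℕ)‖ := by
    have e : ((4 * (i : ℕ) : ℂ)) - 4 * (j : ℕ) = ((4 * (((i : ℕ) : ℤ) - ((j : ℕ) : ℤ)) : ℤ) : ℂ) := by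
      push_cast; ring
    rw [e, Complex.norm_intCast]
    have h2 : ((i : ℕ) : ℤ) - ((j : ℕ) : ℤ) ≠ 0 := by
      intro h
      apply hij
      apply Fin.ext
      omega
    have h3 : (1 : ℤ) ≤ |((i : ℕ) : ℤ) - ((j : ℕ) : ℤ)| := Int.one_le_abs h2
    have h4 : (4 : ℤ) ≤ |4 * (((i : ℕ) : ℤ) - ((j : ℕ) : ℤ))| := by
      rw [abs_mul]; simp only [Nat.abs_ofNat]; omega
    have h5 : ((4 : ℤ) : ℝ) ≤ ((|4 * (((i : ℕ) : ℤ) - ((j : ℕ) : ℤ))| : ℤ) : ℝ) := by
      exact_mod_cast h4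
    rw [Int.cast_abs] at h5
    simpa using h5
  have h2 : ((4 * (i : ℕ) : ℂ)) - 4 * (j : ℕ) = (Z - 4 * (j : ℕ)) - (Z - 4 * (i : ℕ)) := by ring
  rw [h2] at h1
  have h3 := norm_sub_le (Z - 4 * (j : ℕ)) (Z - 4 * (i : ℕ))
  linarith

theorem PP_ne_zero_of_im {Z : ℂ} (hZ : Z.im ≠ 0) : PP M Z ≠ 0 := by
  unfold PP
  rw [Finset.prod_ne_zero_iff]
  intro j _ h
  have h1 : (Z - 4 * ((j : ℕ) : ℂ)) ^ 2 = 1 := by linear_combination h
  rcases sq_eq_sq_iff_eq_or_eq_neg.1 (h1.trans (one_pow 2).symm) with h2 | h2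
  · have := congrArg Complex.im h2
    simp at this
    exact hZ this
  · have := congrArg Complex.im h2
    simp at this
    exact hZ this

/-- the product of all branches -/
noncomputable def RR (M : ℕ) (Z : ℂ) : ℂ := ∏ i : Fin M, rt (Z - 4 * (i : ℕ))

theorem RR_sq {Z : ℂ} (hZ : Z.im ≠ 0) : RR M Z ^ 2 = PP M Z := by
  unfold RR PP
  rw [← Finset.prod_pow]
  apply Finset.prod_congr rfl
  intro i _
  apply rt_sq
  intro h0
  have := congrArg Complex.im h0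
  simp at this
  exact hZ this

theorem RR_continuousAt {Z : ℂ} (hZ : Z.im ≠ 0) : ContinuousAt (RR M) Z := by
  unfold RR
  apply tendsto_finsetProd
  intro i _
  have h1 : ContinuousAt rt (Z - 4 * (i : ℕ)) := by
    apply rt_continuousAt_of_im
    simpa using hZ
  exact ContinuousAt.comp (f := fun Z : ℂ => Z - 4 * (i : ℕ)) (x := Z) h1 (by fun_prop)

theorem RR_eq (j : Fin M) (Z : ℂ) : RR M Z = rt (Z - 4 * (j : ℕ)) * QQ j Z := by
  unfold RR QQ
  rw [Finset.mul_prod_erase _ (fun i : Fin M => rt (Z - 4 * ((i : ℕ) : ℂ))) (Finset.mem_univ j)]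

theorem norm_ge_of_im {Z : ℂ} (hZ : 2 ≤ |Z.im|) (i : Fin M) : 2 ≤ ‖Z - 4 * (i : ℕ)‖ := by
  have h1 := Complex.abs_im_le_norm (Z - 4 * ((i : ℕ) : ℂ))
  have h2 : (Z - 4 * ((i : ℕ) : ℂ)).im = Z.im := by simp
  rw [h2] at h1
  linarith

theorem coe_eq_zero_int {r : ℝ} (h : ((r : ℝ) : UnitAddCircle) = 0) : ∃ m : ℤ, r = m := by
  rw [AddCircle.coe_eq_zero_iff] at h
  obtain ⟨m, hm⟩ := h
  exact ⟨m, by simpa using hm.symm⟩

/-- along a horizontal line at height `±2` the lift is constant -/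
theorem line_const {Θ : ℂ × ℂ → UnitAddCircle} {Φ : ℂ × ℂ → ℝ} (hΦ : ContinuousOn Φ (CC M))
    (h : ∀ q ∈ CC M, ((Φ q : ℝ) : UnitAddCircle) = Θ q)
    (hΘ : ∀ q : ℂ × ℂ, 2 ≤ |q.1.im| → Θ q = 0) {c : ℝ} (hc : 2 ≤ |c|) {ε : ℂ} (hε : ε ^ 2 = 1)
    (u v : ℝ) :
    Φ (u + c * Complex.I, ε * RR M (u + c * Complex.I))
      = Φ (v + c * Complex.I, ε * RR M (v + c * Complex.I)) := by
  have him : ∀ w : ℝ, ((w : ℂ) + c * Complex.I).im = c := by intro w; simp
  have hc0 : c ≠ 0 := by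
    rintro rfl
    simp at hc
    linarith
  have hmem : ∀ w : ℝ, ((w : ℂ) + c * Complex.I, ε * RR M (w + c * Complex.I)) ∈ CC M := by
    intro w
    have h1 : ((w : ℂ) + c * Complex.I).im ≠ 0 := by rw [him]; exact hc0
    exact ⟨by simp only; rw [mul_pow, hε, one_mul, RR_sq h1], PP_ne_zero_of_im h1⟩
  have hcont : Continuous fun w : ℝ =>
      (((w : ℂ) + c * Complex.I, ε * RR M (w + c * Complex.I)) : ℂ × ℂ) := by
    have h1 : Continuous fun w : ℝ => (w : ℂ) + c * Complex.I := by fun_prop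
    refine h1.prodMk (continuous_const.mul ?_)
    rw [continuous_iff_continuousAt]
    intro w
    have h2 : ContinuousAt (RR M) ((w : ℂ) + c * Complex.I) :=
      RR_continuousAt (by rw [him]; exact hc0)
    exact ContinuousAt.comp (f := fun w : ℝ => (w : ℂ) + c * Complex.I) (x := w) h2 h1.continuousAt
  obtain ⟨n, hn⟩ := exists_int_diff (A := (univ : Set ℝ)) isPreconnected_univ
    (F := fun w : ℝ => Φ (w + c * Complex.I, ε * RR M (w + c * Complex.I)))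
    (G := fun _ => 0) (hΦ.comp hcont.continuousOn (fun w _ => hmem w)) continuousOn_const
    (fun w _ => by
      rw [h _ (hmem w), hΘ _ (by simp only; rw [him]; exact hc)]
      simp)
  have h1 := hn u (mem_univ _)
  have h2 := hn v (mem_univ _)
  simp only [sub_zero] at h1 h2
  rw [h1, h2]

/-- the second coordinate on the column over `4 j` -/
theorem col_mem (j : Fin M) {τ : ℝ} (hτ : |τ| ≤ 2) :
    (4 * (j : ℕ) - τ * Complex.I, (Real.sqrt (1 + τ ^ 2) : ℂ) * Complex.I *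
      QQ j (4 * (j : ℕ) - τ * Complex.I)) ∈ CC M := by
  have hn : ‖(4 * ((j : ℕ) : ℂ) - τ * Complex.I) - 4 * (j : ℕ)‖ = |τ| := by
    have : (4 * ((j : ℕ) : ℂ) - τ * Complex.I) - 4 * (j : ℕ) = -(τ * Complex.I) := by ring
    rw [this]
    simp
  have hn3 : ‖(4 * ((j : ℕ) : ℂ) - τ * Complex.I) - 4 * (j : ℕ)‖ < 3 := by rw [hn]; linarith
  have hsq : ((Real.sqrt (1 + τ ^ 2) : ℝ) : ℂ) ^ 2 = 1 + τ ^ 2 := by
    rw [← Complex.ofReal_pow, Real.sq_sqrt (by positivity)]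
    push_cast; ring
  constructor
  · simp only
    rw [mul_pow, mul_pow, hsq, Complex.I_sq, QQ_sq hn3, PP_eq j]
    congr 1
    have : (4 * ((j : ℕ) : ℂ) - τ * Complex.I) - 4 * (j : ℕ) = -(τ * Complex.I) := by ring
    rw [this, neg_sq, mul_pow, Complex.I_sq]
    ring
  · simp only
    rw [PP_eq j]
    apply mul_ne_zero
    · have : (4 * ((j : ℕ) : ℂ) - τ * Complex.I) - 4 * (j : ℕ) = -(τ * Complex.I) := by ring
      rw [this, neg_sq, mul_pow, Complex.I_sq]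
      have h1 : ((τ : ℂ) ^ 2 * -1 - 1) = -((1 + τ ^ 2 : ℝ) : ℂ) := by push_cast; ring
      rw [h1, neg_ne_zero]
      norm_cast
      positivity
    · rw [Finset.prod_ne_zero_iff]
      intro i hi h
      have hij : i ≠ j := (Finset.mem_erase.1 hi).1
      have h1 := norm_other hij hn3
      have h2 : ((4 * ((j : ℕ) : ℂ) - τ * Complex.I) - 4 * (i : ℕ)) ^ 2 = 1 := by
        linear_combination h
      have h3 := congrArg norm h2
      rw [norm_pow, norm_one] at h3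
      nlinarith

theorem col_continuous (j : Fin M) : ContinuousOn (fun τ : ℝ =>
    ((4 * (j : ℕ) - τ * Complex.I, (Real.sqrt (1 + τ ^ 2) : ℂ) * Complex.I *
      QQ j (4 * (j : ℕ) - τ * Complex.I)) : ℂ × ℂ)) (Icc (-2) 2) := by
  have h1 : Continuous fun τ : ℝ => 4 * ((j : ℕ) : ℂ) - τ * Complex.I := by fun_prop
  apply h1.continuousOn.prodMk
  apply ContinuousOn.mul
  · apply Continuous.continuousOn
    fun_prop
  · intro τ hτ
    apply ContinuousAt.continuousWithinAt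
    have h2 : ContinuousAt (QQ j) (4 * ((j : ℕ) : ℂ) - τ * Complex.I) := by
      apply QQ_continuousAt
      have : (4 * ((j : ℕ) : ℂ) - τ * Complex.I) - 4 * (j : ℕ) = -(τ * Complex.I) := by ring
      rw [this]
      have h3 : |τ| ≤ 2 := abs_le.2 ⟨hτ.1, hτ.2⟩
      simp
      linarith
    exact ContinuousAt.comp (f := fun τ : ℝ => 4 * ((j : ℕ) : ℂ) - τ * Complex.I) (x := τ) h2
      h1.continuousAt

/-- the coordinate along the column -/
theorem col_ss (τ : ℝ) : ss (-(τ * Complex.I)) ((Real.sqrt (1 + τ ^ 2) : ℂ) * Complex.I)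
    = -τ / Real.sqrt (1 + τ ^ 2) := by
  have hpos : 0 < Real.sqrt (1 + τ ^ 2) := Real.sqrt_pos.2 (by positivity)
  have hlt : |τ| < Real.sqrt (1 + τ ^ 2) := by
    apply Real.lt_sqrt_of_sq_lt
    rw [sq_abs]
    linarith
  rw [abs_lt] at hlt
  unfold ss
  have e1 : -(τ * Complex.I) + (Real.sqrt (1 + τ ^ 2) : ℂ) * Complex.I
      = ((Real.sqrt (1 + τ ^ 2) - τ : ℝ) : ℂ) * Complex.I := by push_cast; ring
  have e2 : -(τ * Complex.I) - (Real.sqrt (1 + τ ^ 2) : ℂ) * Complex.I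
      = -(((Real.sqrt (1 + τ ^ 2) + τ : ℝ) : ℂ) * Complex.I) := by push_cast; ring
  rw [e1, e2, norm_neg, norm_mul, norm_mul, Complex.norm_I, Complex.norm_real, Complex.norm_real,
    mul_one, mul_one, Real.norm_of_nonneg (by linarith), Real.norm_of_nonneg (by linarith),
    div_eq_div_iff (by linarith) (ne_of_gt hpos)]
  ring

theorem two_div_sqrt_five : (1 : ℝ) / 2 ≤ 2 / Real.sqrt 5 := by
  have h1 : Real.sqrt 5 ≤ 4 := by
    rw [Real.sqrt_le_left (by norm_num)]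
    norm_num
  have h2 : 0 < Real.sqrt 5 := Real.sqrt_pos.2 (by norm_num)
  rw [div_le_div_iff₀ (by norm_num) h2]
  linarith

/-- comparison of the lift at the two ends of a column -/
theorem column {Θ : ℂ × ℂ → UnitAddCircle} {Φ : ℂ × ℂ → ℝ} (hΦ : ContinuousOn Φ (CC M))
    (h : ∀ q ∈ CC M, ((Φ q : ℝ) : UnitAddCircle) = Θ q) (j : Fin M) (b : ℤ)
    (hΘ : ∀ q ∈ CC M, ‖q.1 - 4 * (j : ℕ)‖ ≤ 2 → Θ q = b • th j q) :
    Φ (((4 * (j : ℕ) : ℝ) : ℂ) + ((-2 : ℝ) : ℂ) * Complex.I,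
      (-1) * RR M (((4 * (j : ℕ) : ℝ) : ℂ) + ((-2 : ℝ) : ℂ) * Complex.I))
      - Φ (((4 * (j : ℕ) : ℝ) : ℂ) + ((2 : ℝ) : ℂ) * Complex.I,
        1 * RR M (((4 * (j : ℕ) : ℝ) : ℂ) + ((2 : ℝ) : ℂ) * Complex.I)) = b := by
  have hn : ∀ τ : ℝ, ‖(4 * ((j : ℕ) : ℂ) - τ * Complex.I) - 4 * (j : ℕ)‖ = |τ| := by
    intro τ
    have : (4 * ((j : ℕ) : ℂ) - τ * Complex.I) - 4 * (j : ℕ) = -(τ * Complex.I) := by ring
    rw [this]
    simp
  obtain ⟨n, hn'⟩ := exists_int_diff (A := Icc (-2 : ℝ) 2) isPreconnected_Icc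
    (F := fun τ : ℝ => Φ (4 * (j : ℕ) - τ * Complex.I, (Real.sqrt (1 + τ ^ 2) : ℂ) * Complex.I *
      QQ j (4 * (j : ℕ) - τ * Complex.I)))
    (G := fun τ : ℝ => b * prof (-τ / Real.sqrt (1 + τ ^ 2)))
    (hΦ.comp (col_continuous j) (fun τ hτ => col_mem j (abs_le.2 ⟨hτ.1, hτ.2⟩)))
    (by
      apply Continuous.continuousOn
      apply continuous_const.mul
      apply continuous_prof.comp
      apply Continuous.div (by fun_prop) (by fun_prop)
      intro τ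
      exact ne_of_gt (Real.sqrt_pos.2 (by positivity)))
    (fun τ hτ => by
      have hτ2 : |τ| ≤ 2 := abs_le.2 ⟨hτ.1, hτ.2⟩
      have hmem := col_mem j hτ2
      rw [h _ hmem, hΘ _ hmem (by simp only; rw [hn]; exact hτ2),
        th_of_lt hmem (by simp only; rw [hn]; linarith)]
      have hQ : QQ j (4 * ((j : ℕ) : ℂ) - τ * Complex.I) ≠ 0 :=
        QQ_ne_zero (by rw [hn]; linarith) hmem.2
      simp only
      rw [mul_div_cancel_right₀ _ hQ]
      have : (4 * ((j : ℕ) : ℂ) - τ * Complex.I) - 4 * (j : ℕ) = -(τ * Complex.I) := by ring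
      rw [this, col_ss, ← AddCircle.coe_zsmul, zsmul_eq_mul])
  have h5 : (1 + (2 : ℝ) ^ 2) = 5 := by norm_num
  have h5' : (1 + (-2 : ℝ) ^ 2) = 5 := by norm_num
  have e1 := hn' (-2) ⟨le_refl _, by norm_num⟩
  have e2 := hn' 2 ⟨by norm_num, le_refl _⟩
  rw [h5'] at e1
  rw [h5] at e2
  have p1 : prof (-(-2 : ℝ) / Real.sqrt 5) = 0 := prof_of_ge (by
    rw [neg_neg]; exact two_div_sqrt_five)
  have p2 : prof (-(2 : ℝ) / Real.sqrt 5) = 1 := prof_of_le (by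
    rw [neg_div]
    have := two_div_sqrt_five
    linarith)
  rw [p1] at e1
  rw [p2] at e2
  -- identify the end points
  have z1 : (4 * ((j : ℕ) : ℂ) - ((-2 : ℝ) : ℂ) * Complex.I)
      = ((4 * (j : ℕ) : ℝ) : ℂ) + ((2 : ℝ) : ℂ) * Complex.I := by push_cast; ring
  have z2 : (4 * ((j : ℕ) : ℂ) - ((2 : ℝ) : ℂ) * Complex.I)
      = ((4 * (j : ℕ) : ℝ) : ℂ) + ((-2 : ℝ) : ℂ) * Complex.I := by push_cast; ring
  have r1 : RR M (((4 * (j : ℕ) : ℝ) : ℂ) + ((2 : ℝ) : ℂ) * Complex.I)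
      = (Real.sqrt 5 : ℂ) * Complex.I *
        QQ j (((4 * (j : ℕ) : ℝ) : ℂ) + ((2 : ℝ) : ℂ) * Complex.I) := by
    rw [RR_eq j, ← rt_two_I]
    congr 2
    push_cast
    ring
  have r2 : RR M (((4 * (j : ℕ) : ℝ) : ℂ) + ((-2 : ℝ) : ℂ) * Complex.I)
      = -((Real.sqrt 5 : ℂ) * Complex.I *
        QQ j (((4 * (j : ℕ) : ℝ) : ℂ) + ((-2 : ℝ) : ℂ) * Complex.I)) := by
    rw [RR_eq j, ← rt_two_I, ← neg_mul, ← rt_neg]
    congr 2
    push_cast
    ring
  rw [z1, ← r1] at e1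
  rw [z2, ← neg_neg ((Real.sqrt 5 : ℂ) * Complex.I *
        QQ j (((4 * (j : ℕ) : ℝ) : ℂ) + ((-2 : ℝ) : ℂ) * Complex.I)), ← r2] at e2
  rw [one_mul, neg_one_mul]
  linarith

/-- The first `N` planar classes of the cover with `N + 1` segments are independent. -/
theorem planar_indep {N : ℕ} (a : Fin N → ℤ) {Φ : ℂ × ℂ → ℝ} (hΦ : ContinuousOn Φ (CC (N + 1)))
    (h : ∀ q ∈ CC (N + 1), ((Φ q : ℝ) : UnitAddCircle) = ∑ i, a i • th (Fin.castSucc i) q) :
    a = 0 := by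
  have hzero : ∀ q : ℂ × ℂ, 2 ≤ |q.1.im| →
      (fun q => ∑ i, a i • th (M := N + 1) (Fin.castSucc i) q) q = 0 := by
    intro q hq
    simp only
    apply Finset.sum_eq_zero
    intro i _
    rw [th_of_ge (norm_ge_of_im hq _), smul_zero]
  funext j
  have hcol1 := column hΦ h (Fin.castSucc j) (a j) (fun q hq hqj => by
    rw [Finset.sum_eq_single j]
    · intro i _ hij
      rw [th_of_ge, smul_zero]
      have hne : (Fin.castSucc i) ≠ (Fin.castSucc j) := fun h => hij (Fin.castSucc_injective _ h)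
      have := norm_four hne q.1
      linarith
    · intro h
      exact absurd (Finset.mem_univ j) h)
  have hcol2 := column hΦ h (Fin.last N) 0 (fun q hq hqj => by
    rw [zero_smul]
    apply Finset.sum_eq_zero
    intro i _
    rw [th_of_ge, smul_zero]
    have hne : (Fin.castSucc i) ≠ (Fin.last N) := ne_of_lt (Fin.castSucc_lt_last i)
    have := norm_four hne q.1
    linarith)
  have l1 := line_const hΦ h hzero (c := 2) (by norm_num) (ε := 1) (by norm_num)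
    (4 * ((Fin.castSucc j : Fin (N + 1)) : ℕ)) (4 * ((Fin.last N : Fin (N + 1)) : ℕ))
  have l2 := line_const hΦ h hzero (c := -2) (by norm_num) (ε := -1) (by norm_num)
    (4 * ((Fin.castSucc j : Fin (N + 1)) : ℕ)) (4 * ((Fin.last N : Fin (N + 1)) : ℕ))
  rw [l1, l2] at hcol1
  rw [hcol1] at hcol2
  have : (a j : ℝ) = 0 := by exact_mod_cast hcol2
  exact_mod_cast this

end Pool.Agent.Lib.MP_55d555_gt
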