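import Mathlib
import Pool.Agent.Lib.MP_55d555_gt.Indep
import Pool.Agent.Lib.MP_55d555_gt.Top

set_option autoImplicit false
set_option linter.unusedSectionVars false

/-!
The unions of Hopf fibres and their odd classes.
-/

namespace Pool.Agent.Lib.MP_55d555_gt

open Set Topology Filter

/-- the unit sphere of `ℂ²` -/
abbrev S3 : Type := Metric.sphere (0 : EuclideanSpace ℂ (Fin 2)) 1

/-- first coordinate -/
def zc (x : S3) : ℂ := x.1 0

/-- second coordinate -/
def wc (x : S3) : ℂ := x.1 1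

theorem continuous_zc : Continuous zc := by
  unfold zc
  have : Continuous fun x : EuclideanSpace ℂ (Fin 2) => x 0 := by fun_prop
  exact this.comp continuous_subtype_val

theorem continuous_wc : Continuous wc := by
  unfold wc
  have : Continuous fun x : EuclideanSpace ℂ (Fin 2) => x 1 := by fun_prop
  exact this.comp continuous_subtype_val

theorem norm_coords (x : S3) : ‖zc x‖ ^ 2 + ‖wc x‖ ^ 2 = 1 := by
  have h1 : ‖(x : EuclideanSpace ℂ (Fin 2))‖ = 1 := by
    simp
  rw [EuclideanSpace.norm_eq, Fin.sum_univ_two] at h1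
  have h2 : 0 ≤ ‖(x : EuclideanSpace ℂ (Fin 2)) 0‖ ^ 2 + ‖(x : EuclideanSpace ℂ (Fin 2)) 1‖ ^ 2 := by
    positivity
  have h3 := Real.sq_sqrt h2
  rw [h1] at h3
  unfold zc wc
  linarith

/-- the polynomial on the sphere -/
noncomputable def GG (M : ℕ) (x : S3) : ℂ :=
  ∏ j : Fin M, ((zc x - 4 * (j : ℕ) * wc x) ^ 2 - wc x ^ 2)

theorem continuous_GG (M : ℕ) : Continuous (GG M) := by
  unfold GG
  apply continuous_finsetProd
  intro j _
  exact ((continuous_zc.sub (continuous_const.mul continuous_wc)).pow 2).sub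
    (continuous_wc.pow 2)

theorem GG_eq (M : ℕ) {x : S3} (hx : wc x ≠ 0) :
    GG M x = (wc x ^ M) ^ 2 * PP M (zc x / wc x) := by
  unfold GG PP
  have h1 : ∀ j : Fin M, (zc x - 4 * (j : ℕ) * wc x) ^ 2 - wc x ^ 2
      = wc x ^ 2 * ((zc x / wc x - 4 * (j : ℕ)) ^ 2 - 1) := by
    intro j
    field_simp
  rw [Finset.prod_congr rfl fun j _ => h1 j, Finset.prod_mul_distrib]
  congr 1
  simp only [Finset.prod_const, Finset.card_univ, Fintype.card_fin]
  ring

/-- the classes on the double cover -/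
noncomputable def Th {M : ℕ} (i : Fin M) (q : S3 × ℂ) : UnitAddCircle :=
  open Classical in if wc q.1 = 0 then 0 else th i (zc q.1 / wc q.1, q.2 / wc q.1 ^ M)

theorem mem_CC {M : ℕ} {q : S3 × ℂ} (hq : q ∈ dbl (GG M) univ) (hw : wc q.1 ≠ 0) :
    (zc q.1 / wc q.1, q.2 / wc q.1 ^ M) ∈ CC M := by
  have h1 := GG_eq M hw
  have h2 : wc q.1 ^ M ≠ 0 := pow_ne_zero _ hw
  constructor
  · simp only
    rw [div_pow, hq.2.1, h1]
    field_simp
  · simp only
    intro h
    apply hq.2.2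
    rw [h1, h, mul_zero]

theorem Th_neg {M : ℕ} (i : Fin M) (q : S3 × ℂ) : Th i (q.1, -q.2) = -Th i q := by
  unfold Th
  simp only
  split_ifs with h
  · simp
  · rw [neg_div]
    exact th_neg (q := (zc q.1 / wc q.1, q.2 / wc q.1 ^ M))

theorem Th_continuousOn {M : ℕ} (i : Fin M) : ContinuousOn (Th i) (dbl (GG M) univ) := by
  intro q hq
  have hz : Continuous fun q : S3 × ℂ => zc q.1 := continuous_zc.comp continuous_fst
  have hw : Continuous fun q : S3 × ℂ => wc q.1 := continuous_wc.comp continuous_fst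
  by_cases h0 : wc q.1 = 0
  · -- near points with vanishing second coordinate the class vanishes
    apply ContinuousAt.continuousWithinAt
    have hev : ∀ᶠ q' : S3 × ℂ in 𝓝 q, 2 * ‖wc q'.1‖ < ‖zc q'.1 - 4 * (i : ℕ) * wc q'.1‖ := by
      have hopen : IsOpen {q' : S3 × ℂ | 2 * ‖wc q'.1‖ < ‖zc q'.1 - 4 * (i : ℕ) * wc q'.1‖} :=
        isOpen_lt (continuous_const.mul hw.norm) (hz.sub (continuous_const.mul hw)).norm
      apply hopen.mem_nhds
      simp only [mem_ofPred_eq]
      rw [h0, norm_zero, mul_zero, mul_zero, sub_zero]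
      have := norm_coords q.1
      rw [h0, norm_zero] at this
      have h1 : ‖zc q.1‖ ^ 2 = 1 := by linarith
      by_contra hcon
      have h2 : ‖zc q.1‖ = 0 := le_antisymm (not_lt.1 hcon) (norm_nonneg _)
      rw [h2] at h1
      norm_num at h1
    have : (fun _ => (0 : UnitAddCircle)) =ᶠ[𝓝 q] Th i := by
      filter_upwards [hev] with q' h1
      unfold Th
      split_ifs with h2
      · rfl
      · symm
        apply th_of_ge
        simp only
        have h3 : zc q'.1 / wc q'.1 - 4 * (i : ℕ) = (zc q'.1 - 4 * (i : ℕ) * wc q'.1) / wc q'.1 := by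
          field_simp
        rw [h3, norm_div, le_div_iff₀ (norm_pos_iff.2 h2)]
        exact h1.le
    exact continuousAt_const.congr this
  · have hopen : IsOpen {q' : S3 × ℂ | wc q'.1 ≠ 0} := isOpen_ne_fun hw continuous_const
    have hmem := mem_CC hq h0
    have h1 := th_continuousOn i _ hmem
    have h2 : ContinuousAt (fun q : S3 × ℂ => ((zc q.1 / wc q.1, q.2 / wc q.1 ^ M) : ℂ × ℂ)) q :=
      (hz.continuousAt.div hw.continuousAt h0).prodMk
        (continuous_snd.continuousAt.div (hw.pow M).continuousAt (pow_ne_zero _ h0))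
    have h3 : Tendsto (fun q : S3 × ℂ => ((zc q.1 / wc q.1, q.2 / wc q.1 ^ M) : ℂ × ℂ))
        (𝓝[dbl (GG M) univ] q) (𝓝[CC M] (zc q.1 / wc q.1, q.2 / wc q.1 ^ M)) := by
      apply tendsto_nhdsWithin_of_tendsto_nhds_of_eventually_within
      · exact h2.tendsto.mono_left nhdsWithin_le_nhds
      · filter_upwards [self_mem_nhdsWithin, nhdsWithin_le_nhds (hopen.mem_nhds h0)]
          with q' h4 h5
        exact mem_CC h4 h5
    have h4 := h1.tendsto.comp h3
    have h5 : Th i q = th i (zc q.1 / wc q.1, q.2 / wc q.1 ^ M) := by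
      unfold Th; rw [if_neg h0]
    unfold ContinuousWithinAt
    rw [h5]
    apply h4.congr'
    filter_upwards [nhdsWithin_le_nhds (hopen.mem_nhds h0)] with q' h6
    simp only [Function.comp_apply]
    unfold Th
    rw [if_neg h6]

/-- the normalizing factor -/
noncomputable def lam (Z : ℂ) : ℝ := (Real.sqrt (1 + ‖Z‖ ^ 2))⁻¹

theorem lam_pos (Z : ℂ) : 0 < lam Z := inv_pos.2 (Real.sqrt_pos.2 (by positivity))

theorem lam_sq (Z : ℂ) : lam Z ^ 2 * (1 + ‖Z‖ ^ 2) = 1 := by
  unfold lam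
  rw [inv_pow, Real.sq_sqrt (by positivity)]
  exact inv_mul_cancel₀ (by positivity)

theorem continuous_lam : Continuous lam := by
  unfold lam
  apply Continuous.inv₀
  · fun_prop
  · intro Z
    exact ne_of_gt (Real.sqrt_pos.2 (by positivity))

/-- the point of the sphere with affine coordinate `Z` and phase `u` -/
noncomputable def pt (u : Circle) (Z : ℂ) : S3 :=
  ⟨!₂[(u : ℂ) * lam Z * Z, (u : ℂ) * lam Z], by
    rw [mem_sphere_zero_iff_norm, EuclideanSpace.norm_eq, Fin.sum_univ_two]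
    simp only [Matrix.cons_val_zero, Matrix.cons_val_one, Matrix.cons_val_fin_one]
    rw [norm_mul, norm_mul, Circle.norm_coe, one_mul, Complex.norm_real,
      Real.norm_of_nonneg (lam_pos Z).le]
    have := lam_sq Z
    have h : (lam Z * ‖Z‖) ^ 2 + lam Z ^ 2 = 1 := by linarith
    rw [h, Real.sqrt_one]⟩

theorem zc_pt (u : Circle) (Z : ℂ) : zc (pt u Z) = (u : ℂ) * lam Z * Z := rfl

theorem wc_pt (u : Circle) (Z : ℂ) : wc (pt u Z) = (u : ℂ) * lam Z := rfl

theorem wc_pt_ne (u : Circle) (Z : ℂ) : wc (pt u Z) ≠ 0 := by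
  rw [wc_pt]
  apply mul_ne_zero u.coe_ne_zero
  exact_mod_cast (lam_pos Z).ne'

theorem ratio_pt (u : Circle) (Z : ℂ) : zc (pt u Z) / wc (pt u Z) = Z := by
  rw [zc_pt, ← wc_pt]
  exact mul_div_cancel_left₀ Z (wc_pt_ne u Z)

theorem continuous_pt (u : Circle) : Continuous (pt u) := by
  apply Continuous.subtype_mk
  have h1 : Continuous fun Z : ℂ => ((lam Z : ℝ) : ℂ) :=
    Complex.continuous_ofReal.comp continuous_lam
  have h2 : Continuous fun Z : ℂ => ![(u : ℂ) * lam Z * Z, (u : ℂ) * lam Z] := by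
    rw [continuous_pi_iff]
    intro i
    fin_cases i
    · exact (continuous_const.mul h1).mul continuous_id
    · exact continuous_const.mul h1
  exact (PiLp.continuous_toLp 2 _).comp h2

/-- Independence of the classes. -/
theorem sphere_indep {N : ℕ} (a : Fin N → ℤ) {Φ : S3 × ℂ → ℝ}
    (hΦ : ContinuousOn Φ (dbl (GG (N + 1)) univ))
    (h : ∀ q ∈ dbl (GG (N + 1)) univ,
      ((Φ q : ℝ) : UnitAddCircle) = ∑ i, a i • Th (Fin.castSucc i) q) : a = 0 := by
  let σ' : ℂ × ℂ → S3 × ℂ := fun q => (pt 1 q.1, q.2 * wc (pt 1 q.1) ^ (N + 1))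
  have hσc : Continuous σ' := by
    have h1 : Continuous fun q : ℂ × ℂ => pt 1 q.1 := (continuous_pt 1).comp continuous_fst
    exact h1.prodMk (continuous_snd.mul ((continuous_wc.comp h1).pow _))
  have hmem : ∀ q ∈ CC (N + 1), σ' q ∈ dbl (GG (N + 1)) univ := by
    intro q hq
    have hw := wc_pt_ne 1 q.1
    refine ⟨mem_univ _, ?_, ?_⟩
    · simp only [σ']
      rw [GG_eq _ hw, ratio_pt, mul_pow, hq.1]
      ring
    · simp only [σ']
      rw [GG_eq _ hw, ratio_pt]
      exact mul_ne_zero (pow_ne_zero _ (pow_ne_zero _ hw)) hq.2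
  have hTh : ∀ q ∈ CC (N + 1), ∀ i : Fin (N + 1), Th i (σ' q) = th i q := by
    intro q hq i
    have hw := wc_pt_ne 1 q.1
    unfold Th
    simp only [σ']
    rw [if_neg hw, ratio_pt, mul_div_cancel_right₀ _ (pow_ne_zero _ hw)]
  apply planar_indep a (Φ := Φ ∘ σ') (hΦ.comp hσc.continuousOn hmem)
  intro q hq
  simp only [Function.comp_apply]
  rw [h _ (hmem q hq)]
  exact Finset.sum_congr rfl fun i _ => by rw [hTh q hq]

/-- There is no continuous square root of the identity on a circle. -/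
theorem no_circle_sqrt {c : ℂ → ℂ} {b : ℂ} {ρ : ℝ} (hρ : 0 < ρ)
    (hc : ContinuousOn c {Z | Z ≠ b ∧ ‖Z - b‖ ≤ ρ}) (hsq : ∀ Z, Z ≠ b → ‖Z - b‖ ≤ ρ →
      c Z ^ 2 = Z - b) : False := by
  have hpath : Continuous fun φ : ℝ => b + ρ * Complex.exp (φ * Complex.I) := by fun_prop
  have hn : ∀ φ : ℝ, ‖(b + ρ * Complex.exp (φ * Complex.I)) - b‖ = ρ := by
    intro φ
    rw [add_sub_cancel_left, norm_mul, Complex.norm_exp_ofReal_mul_I, mul_one, Complex.norm_real,
      Real.norm_of_nonneg hρ.le]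
  have hne : ∀ φ : ℝ, b + ρ * Complex.exp (φ * Complex.I) ≠ b := by
    intro φ h
    have := hn φ
    rw [h, sub_self, norm_zero] at this
    linarith
  have hF : Continuous fun φ : ℝ => c (b + ρ * Complex.exp (φ * Complex.I)) := by
    rw [← continuousOn_univ]
    exact hc.comp hpath.continuousOn (fun φ _ => ⟨hne φ, (hn φ).le⟩)
  have hH : Continuous fun φ : ℝ => (Real.sqrt ρ : ℂ) * Complex.exp (φ / 2 * Complex.I) := by
    fun_prop
  have hsq' : EqOn ((fun φ : ℝ => c (b + ρ * Complex.exp (φ * Complex.I))) ^ 2)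
      ((fun φ : ℝ => (Real.sqrt ρ : ℂ) * Complex.exp (φ / 2 * Complex.I)) ^ 2) univ := by
    intro φ _
    simp only [Pi.pow_apply]
    rw [hsq _ (hne φ) (hn φ).le, add_sub_cancel_left, mul_pow, ← Complex.ofReal_pow,
      Real.sq_sqrt hρ.le, ← Complex.exp_nat_mul]
    congr 2
    push_cast
    ring
  have hne0 : ∀ {φ : ℝ}, φ ∈ (univ : Set ℝ) →
      (Real.sqrt ρ : ℂ) * Complex.exp (φ / 2 * Complex.I) ≠ 0 := by
    intro φ _
    apply mul_ne_zero _ (Complex.exp_ne_zero _)
    exact_mod_cast (Real.sqrt_pos.2 hρ).ne'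
  have e0 : c (b + ρ * Complex.exp (((0 : ℝ) : ℂ) * Complex.I))
      = c (b + ρ * Complex.exp (((2 * Real.pi : ℝ) : ℂ) * Complex.I)) := by
    congr 3
    push_cast
    rw [Complex.exp_two_pi_mul_I, zero_mul, Complex.exp_zero]
  have e1 : (Real.sqrt ρ : ℂ) * Complex.exp (((2 * Real.pi : ℝ) : ℂ) / 2 * Complex.I)
      = -((Real.sqrt ρ : ℂ) * Complex.exp (((0 : ℝ) : ℂ) / 2 * Complex.I)) := by
    push_cast
    rw [mul_div_cancel_left₀ _ (two_ne_zero), Complex.exp_pi_mul_I, zero_div, zero_mul,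
      Complex.exp_zero]
    ring
  have hz : (Real.sqrt ρ : ℂ) * Complex.exp (((0 : ℝ) : ℂ) / 2 * Complex.I) ≠ 0 :=
    hne0 (mem_univ _)
  rcases isPreconnected_univ.eq_or_eq_neg_of_sq_eq hF.continuousOn hH.continuousOn hsq'
    (fun {x} hx => hne0 hx) with h | h
  · have h0 := h (mem_univ (0 : ℝ))
    have h1 := h (mem_univ (2 * Real.pi))
    simp only at h0 h1
    rw [h0, h1, e1] at e0
    exact hz (self_eq_neg.1 e0)
  · have h0 := h (mem_univ (0 : ℝ))
    have h1 := h (mem_univ (2 * Real.pi))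
    simp only [Pi.neg_apply] at h0 h1
    rw [h0, h1, e1, neg_neg] at e0
    exact hz (neg_eq_self.1 e0)

/-- There is no local square root of `GG` at its zeros. -/
theorem no_local_sqrt (M : ℕ) (q : S3) (hq : GG M q = 0) (U : Set S3) (hU : IsOpen U)
    (hqU : q ∈ U) : ¬ ∃ y : S3 → ℂ, ContinuousOn y (U \ {x | GG M x = 0}) ∧
      ∀ z ∈ U \ {x | GG M x = 0}, y z ^ 2 = GG M z := by
  rintro ⟨y, hy, hy2⟩
  have hw : wc q ≠ 0 := by
    intro h
    unfold GG at hq
    rw [Finset.prod_eq_zero_iff] at hq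
    obtain ⟨j, _, hj⟩ := hq
    rw [h] at hj
    have h1 : zc q = 0 := by
      have : zc q ^ 2 = 0 := by linear_combination hj
      simpa using this
    have := norm_coords q
    rw [h, h1] at this
    simp at this
  set b : ℂ := zc q / wc q with hb
  have hu : ‖wc q / (‖wc q‖ : ℂ)‖ = 1 := by
    rw [norm_div, Complex.norm_real, norm_norm, div_self (norm_ne_zero_iff.2 hw)]
  let u : Circle := ⟨wc q / (‖wc q‖ : ℂ), mem_sphere_zero_iff_norm.2 hu⟩
  have hun : (‖wc q‖ : ℂ) ≠ 0 := by exact_mod_cast norm_ne_zero_iff.2 hw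
  have hlam : lam b = ‖wc q‖ := by
    have h1 := lam_sq b
    have h2 := norm_coords q
    have h3 : ‖zc q‖ = ‖b‖ * ‖wc q‖ := by
      rw [← norm_mul, hb, div_mul_cancel₀ _ hw]
    rw [h3] at h2
    have h4 : ‖wc q‖ ^ 2 * (1 + ‖b‖ ^ 2) = 1 := by linarith
    have h5 : lam b ^ 2 = ‖wc q‖ ^ 2 := by
      have : (1 + ‖b‖ ^ 2) ≠ 0 := by positivity
      exact mul_right_cancel₀ this (h1.trans h4.symm)
    exact (pow_left_inj₀ (lam_pos b).le (norm_nonneg _) two_ne_zero).1 h5
  have hpt : pt u b = q := by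
    have e1 : (u : ℂ) * lam b = wc q := by
      rw [hlam]
      change wc q / (‖wc q‖ : ℂ) * (‖wc q‖ : ℂ) = wc q
      rw [div_mul_cancel₀ _ hun]
    apply Subtype.ext
    have h0 : zc (pt u b) = zc q := by
      rw [zc_pt, e1, hb, mul_div_cancel₀ _ hw]
    have h1 : wc (pt u b) = wc q := by rw [wc_pt, e1]
    ext i
    fin_cases i
    · exact h0
    · exact h1
  -- factor the polynomial
  have hP : PP M b = 0 := by
    have := GG_eq M hw
    rw [hq] at this
    have h2 : (wc q ^ M) ^ 2 ≠ 0 := pow_ne_zero _ (pow_ne_zero _ hw)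
    exact (mul_eq_zero.1 this.symm).resolve_left h2
  have hP' := hP
  unfold PP at hP'
  rw [Finset.prod_eq_zero_iff] at hP'
  obtain ⟨j, _, hj⟩ := hP'
  have hbj : (b - 4 * (j : ℕ)) ^ 2 = 1 := by linear_combination hj
  have hbn : ‖b - 4 * (j : ℕ)‖ = 1 := by
    have := congrArg norm hbj
    rw [norm_pow, norm_one] at this
    exact (pow_eq_one_iff_of_nonneg (norm_nonneg _) two_ne_zero).1 this
  let Q : ℂ → ℂ := fun Z => (Z - (8 * (j : ℕ) - b)) *
    ∏ i ∈ Finset.univ.erase j, ((Z - 4 * (i : ℕ)) ^ 2 - 1)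
  have hQc : Continuous Q := by
    apply Continuous.mul (by fun_prop)
    apply continuous_finsetProd
    intro i _
    fun_prop
  have hPQ : ∀ Z, PP M Z = (Z - b) * Q Z := by
    intro Z
    rw [PP_eq j]
    simp only [Q]
    rw [← mul_assoc]
    congr 1
    linear_combination hbj
  have hQb : Q b ≠ 0 := by
    apply mul_ne_zero
    · intro h
      have h1 : b - 4 * (j : ℕ) = 0 := by linear_combination h / 2
      rw [h1, norm_zero] at hbn
      norm_num at hbn
    · rw [Finset.prod_ne_zero_iff]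
      intro i hi h
      have hij : i ≠ j := (Finset.mem_erase.1 hi).1
      have h1 := norm_four hij b
      have h2 : (b - 4 * (i : ℕ)) ^ 2 = 1 := by linear_combination h
      have h3 := congrArg norm h2
      rw [norm_pow, norm_one] at h3
      rw [hbn] at h1
      nlinarith
  have hev : ∀ᶠ Z in 𝓝 b, Q Z ≠ 0 ∧ pt u Z ∈ U := by
    apply (hQc.continuousAt.eventually_ne hQb).and
    apply (continuous_pt u).continuousAt.eventually
    rw [hpt]
    exact hU.mem_nhds hqU
  obtain ⟨r, hr, hr2⟩ := Metric.eventually_nhds_iff_ball.1 hev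
  have hcon : ContractibleSpace (Metric.ball b r) :=
    (convex_ball b r).contractibleSpace ⟨b, Metric.mem_ball_self hr⟩
  obtain ⟨s, hs, hs2⟩ := exists_sqrt_on (Metric.ball b r) Q hQc.continuousOn
    (fun Z hZ => (hr2 Z hZ).1)
  have hs0 : ∀ Z ∈ Metric.ball b r, s Z ≠ 0 := by
    intro Z hZ h
    have := hs2 Z hZ
    rw [h] at this
    exact (hr2 Z hZ).1 (by simpa using this.symm)
  have hin : ∀ Z, Z ≠ b → ‖Z - b‖ ≤ r / 2 → Z ∈ Metric.ball b r ∧
      pt u Z ∈ U \ {x | GG M x = 0} := by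
    intro Z hZb hZ
    have h1 : Z ∈ Metric.ball b r := by
      rw [mem_ball_iff_norm]; linarith
    refine ⟨h1, (hr2 Z h1).2, ?_⟩
    simp only [mem_ofPred_eq]
    rw [GG_eq _ (wc_pt_ne u Z), ratio_pt, hPQ]
    exact mul_ne_zero (pow_ne_zero _ (pow_ne_zero _ (wc_pt_ne u Z)))
      (mul_ne_zero (sub_ne_zero.2 hZb) (hr2 Z h1).1)
  apply no_circle_sqrt (c := fun Z => y (pt u Z) / (wc (pt u Z) ^ M * s Z)) (b := b)
    (ρ := r / 2) (by linarith)
  · apply ContinuousOn.div
    · exact hy.comp (continuous_pt u).continuousOn (fun Z hZ => (hin Z hZ.1 hZ.2).2)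
    · apply ContinuousOn.mul
      · exact ((continuous_wc.comp (continuous_pt u)).pow M).continuousOn
      · exact hs.mono fun Z hZ => (hin Z hZ.1 hZ.2).1
    · intro Z hZ
      exact mul_ne_zero (pow_ne_zero _ (wc_pt_ne u Z)) (hs0 Z (hin Z hZ.1 hZ.2).1)
  · intro Z hZb hZ
    obtain ⟨h1, h2⟩ := hin Z hZb hZ
    have h3 := hs0 Z h1
    have h4 := wc_pt_ne u Z
    rw [div_pow, hy2 _ h2, GG_eq _ h4, ratio_pt, hPQ, mul_pow, hs2 Z h1]
    have h5 := (hr2 Z h1).1
    field_simp

end Pool.Agent.Lib.MP_55d555_gt
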