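import Mathlib
import Pool.Agent.Lib.MP_55d555_gt.Sphere

set_option autoImplicit false
set_option linter.unusedSectionVars false

/-!
The union of Hopf fibres as a smooth link.
-/

namespace Pool.Agent.Lib.MP_55d555_gt

open Set Topology Filter

/-- the slopes of the fibres -/
noncomputable def slope (k : ℕ) : ℂ := 2 * (k : ℂ) - 1

/-- the direction vector of a fibre -/
noncomputable def fvec (k : ℕ) : EuclideanSpace ℂ (Fin 2) :=
  !₂[(lam (slope k) : ℂ) * slope k, (lam (slope k) : ℂ)]

/-- the parametrization of a fibre -/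
noncomputable def fib (k : ℕ) (t : ℝ) : EuclideanSpace ℂ (Fin 2) :=
  Complex.exp (2 * Real.pi * t * Complex.I) • fvec k

theorem fib_eq_pt (k : ℕ) (t : ℝ) :
    fib k t = (pt (Circle.exp (2 * Real.pi * t)) (slope k) : EuclideanSpace ℂ (Fin 2)) := by
  ext i
  fin_cases i
  · simp [fib, fvec, pt, Circle.coe_exp, mul_assoc]
  · simp [fib, fvec, pt, Circle.coe_exp]

theorem fib_norm (k : ℕ) (t : ℝ) : ‖fib k t‖ = 1 := by
  rw [fib_eq_pt]
  exact mem_sphere_zero_iff_norm.1 (pt _ _).2

theorem fib_periodic (k : ℕ) (t : ℝ) : fib k (t + 1) = fib k t := by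
  unfold fib
  congr 1
  have : (2 * Real.pi * ((t + 1 : ℝ) : ℂ) * Complex.I)
      = 2 * Real.pi * t * Complex.I + 2 * Real.pi * Complex.I := by
    push_cast; ring
  rw [this, Complex.exp_add, Complex.exp_two_pi_mul_I, mul_one]

theorem exp_contDiff : ContDiff ℝ ((⊤ : ℕ∞) : WithTop ℕ∞)
    (fun t : ℝ => Complex.exp (2 * Real.pi * t * Complex.I)) := by
  apply ContDiff.cexp
  apply ContDiff.mul _ contDiff_const
  apply ContDiff.mul contDiff_const
  exact Complex.ofRealCLM.contDiff

theorem fib_contDiff (k : ℕ) : ContDiff ℝ ((⊤ : ℕ∞) : WithTop ℕ∞) (fib k) :=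
  exp_contDiff.smul contDiff_const

theorem fvec_ne_zero (k : ℕ) : fvec k ≠ 0 := by
  intro h
  have h1 := congrArg (fun v : EuclideanSpace ℂ (Fin 2) => v 1) h
  simp [fvec] at h1
  exact (lam_pos _).ne' h1

theorem fib_hasDerivAt (k : ℕ) (t : ℝ) : HasDerivAt (fib k)
    ((Complex.exp (2 * Real.pi * t * Complex.I) * (2 * Real.pi * Complex.I)) • fvec k) t := by
  unfold fib
  apply HasDerivAt.smul_const
  have h1 : HasDerivAt (fun t : ℝ => 2 * Real.pi * (t : ℂ) * Complex.I)
      (2 * Real.pi * Complex.I) t := by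
    have h2 : HasDerivAt (fun t : ℝ => (t : ℂ)) 1 t := Complex.ofRealCLM.hasDerivAt
    have h3 := (h2.const_mul (2 * (Real.pi : ℂ))).mul_const Complex.I
    simpa using h3
  exact h1.cexp

theorem fib_deriv_ne (k : ℕ) (t : ℝ) : deriv (fib k) t ≠ 0 := by
  rw [(fib_hasDerivAt k t).deriv]
  apply smul_ne_zero _ (fvec_ne_zero k)
  apply mul_ne_zero (Complex.exp_ne_zero _)
  apply mul_ne_zero _ Complex.I_ne_zero
  apply mul_ne_zero two_ne_zero
  exact_mod_cast Real.pi_ne_zero

theorem fib_inj {k k' : ℕ} {s t : ℝ} (h : fib k s = fib k' t) :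
    k = k' ∧ ∃ m : ℤ, s - t = m := by
  have e0 := congrArg (fun v : EuclideanSpace ℂ (Fin 2) => v 0) h
  have e1 := congrArg (fun v : EuclideanSpace ℂ (Fin 2) => v 1) h
  simp only [fib, fvec, PiLp.smul_apply, Matrix.cons_val_zero, Matrix.cons_val_one,
    Matrix.cons_val_fin_one, smul_eq_mul] at e0 e1
  have hne : Complex.exp (2 * Real.pi * t * Complex.I) * (lam (slope k') : ℂ) ≠ 0 :=
    mul_ne_zero (Complex.exp_ne_zero _) (by exact_mod_cast (lam_pos _).ne')
  have hsl : slope k = slope k' := by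
    rw [← mul_assoc, ← mul_assoc, e1] at e0
    exact mul_left_cancel₀ hne e0
  have hk : k = k' := by
    unfold slope at hsl
    have : (k : ℂ) = k' := by linear_combination hsl / 2
    exact_mod_cast this
  refine ⟨hk, ?_⟩
  subst hk
  have hl : ((lam (slope k) : ℝ) : ℂ) ≠ 0 := by exact_mod_cast (lam_pos _).ne'
  have e2 := mul_right_cancel₀ hl e1
  rw [Complex.exp_eq_exp_iff_exists_int] at e2
  obtain ⟨m, hm⟩ := e2
  refine ⟨m, ?_⟩
  have hpi : (2 * (Real.pi : ℂ) * Complex.I) ≠ 0 := Complex.two_pi_I_ne_zero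
  have : (s : ℂ) - t = m := by
    apply mul_left_cancel₀ hpi
    linear_combination hm
  exact_mod_cast this

theorem mem_zero_iff (M : ℕ) (x : S3) :
    GG M x = 0 ↔ ∃ (k : Fin (2 * M)) (t : ℝ), (x : EuclideanSpace ℂ (Fin 2)) = fib k t := by
  constructor
  · intro hq
    have hq' := hq
    unfold GG at hq'
    rw [Finset.prod_eq_zero_iff] at hq'
    obtain ⟨j, _, hj⟩ := hq'
    have hw : wc x ≠ 0 := by
      intro h
      rw [h] at hj
      have h1 : zc x = 0 := by
        have : zc x ^ 2 = 0 := by linear_combination hj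
        simpa using this
      have := norm_coords x
      rw [h, h1] at this
      simp at this
    have hfac : (zc x - (4 * (j : ℕ) + 1) * wc x) * (zc x - (4 * (j : ℕ) - 1) * wc x) = 0 := by
      linear_combination hj
    -- the fibre through a point
    have key : ∀ k : ℕ, zc x = slope k * wc x → ∃ t : ℝ,
        (x : EuclideanSpace ℂ (Fin 2)) = fib k t := by
      intro k hk
      have hu : ‖wc x / (‖wc x‖ : ℂ)‖ = 1 := by
        rw [norm_div, Complex.norm_real, norm_norm, div_self (norm_ne_zero_iff.2 hw)]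
      let u : Circle := ⟨wc x / (‖wc x‖ : ℂ), mem_sphere_zero_iff_norm.2 hu⟩
      have hun : (‖wc x‖ : ℂ) ≠ 0 := by exact_mod_cast norm_ne_zero_iff.2 hw
      have hlam : lam (slope k) = ‖wc x‖ := by
        have h1 := lam_sq (slope k)
        have h2 := norm_coords x
        rw [hk, norm_mul] at h2
        have h4 : ‖wc x‖ ^ 2 * (1 + ‖slope k‖ ^ 2) = 1 := by linarith
        have h5 : lam (slope k) ^ 2 = ‖wc x‖ ^ 2 := by
          have : (1 + ‖slope k‖ ^ 2) ≠ 0 := by positivity
          exact mul_right_cancel₀ this (h1.trans h4.symm)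
        exact (pow_left_inj₀ (lam_pos _).le (norm_nonneg _) two_ne_zero).1 h5
      have hpt : pt u (slope k) = x := by
        have e1 : (u : ℂ) * lam (slope k) = wc x := by
          rw [hlam]
          change wc x / (‖wc x‖ : ℂ) * (‖wc x‖ : ℂ) = wc x
          rw [div_mul_cancel₀ _ hun]
        apply Subtype.ext
        have h0 : zc (pt u (slope k)) = zc x := by
          rw [zc_pt, e1, hk, mul_comm]
        have h1 : wc (pt u (slope k)) = wc x := by rw [wc_pt, e1]
        ext i
        fin_cases i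
        · exact h0
        · exact h1
      refine ⟨Complex.arg u / (2 * Real.pi), ?_⟩
      rw [fib_eq_pt]
      have : 2 * Real.pi * (Complex.arg u / (2 * Real.pi)) = Complex.arg u := by
        field_simp
      rw [this, Circle.exp_arg, hpt]
    rcases mul_eq_zero.1 hfac with h | h
    · obtain ⟨t, ht⟩ := key (2 * (j : ℕ) + 1) (by
        unfold slope; push_cast; linear_combination h)
      exact ⟨⟨2 * (j : ℕ) + 1, by have := j.2; omega⟩, t, ht⟩
    · obtain ⟨t, ht⟩ := key (2 * (j : ℕ)) (by
        unfold slope; push_cast; linear_combination h)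
      exact ⟨⟨2 * (j : ℕ), by have := j.2; omega⟩, t, ht⟩
  · rintro ⟨k, t, hx⟩
    rw [fib_eq_pt] at hx
    have hx' : x = pt (Circle.exp (2 * Real.pi * t)) (slope k) := Subtype.ext hx
    unfold GG
    rw [Finset.prod_eq_zero_iff]
    refine ⟨⟨(k : ℕ) / 2, by have := k.2; omega⟩, Finset.mem_univ _, ?_⟩
    have hz : zc x = slope k * wc x := by
      rw [hx', zc_pt, wc_pt]; ring
    rw [hz]
    simp only
    rcases Nat.even_or_odd' (k : ℕ) with ⟨m, hm | hm⟩
    · have h1 : (k : ℕ) / 2 = m := by omega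
      rw [h1]
      unfold slope
      rw [hm]
      push_cast
      ring
    · have h1 : (k : ℕ) / 2 = m := by omega
      rw [h1]
      unfold slope
      rw [hm]
      push_cast
      ring

end Pool.Agent.Lib.MP_55d555_gt
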